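import Pool.Agent.Q282.AE.Mom

/-!
# The moments of the trace in the middle degree over the good members, over a finite field
-/

set_option autoImplicit false
set_option linter.unusedSectionVars false

namespace Q282AE

open Finset MvPolynomial
open Q282MM (gm)
open Q282GH (zeros Through)
open Q282GP (av av_add av_sub av_smul av_sum av_const av_nonneg av_mono abs_av av_cs av_indep gen fam tt vv main_term shift_mom)

open Classical in
/-- **The moments over the good members.** -/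
theorem good_mom (D r : ℕ) (hD : 1 ≤ D) (hr : 1 ≤ r) (w : ℕ → ℕ) (hw : w (D + r) = 1) (C₀ C₁ C₂ : ℝ) (hC₀ : 0 ≤ C₀) (hC₁ : 0 ≤ C₁)
    (hC₂ : 0 ≤ C₂) (ν : ℕ) (hν : 1 ≤ ν) :
    ∃ K : ℝ, 0 ≤ K ∧ ∀ {O : Type} [CommRing O] {n : ℕ} {F : Type} [Field F] [Fintype F] [DecidableEq F] (ψ : O →+* F) (_ : Function.Surjective ψ) {A : Type} [Fintype A] [DecidableEq A]
      {ι : A → Type} [∀ a, Fintype (ι a)] [∀ a, DecidableEq (ι a)] {J : Type} {h : J → MvPolynomial (Fin (n + 1)) O} {e : J → ℕ} {d : A → ℕ}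
      {f : (a : A) → ι a → MvPolynomial (Fin (n + 1)) O} (_ : Fintype.card A = r) (_ : ∀ j, (h j).IsHomogeneous (e j))
      (_ : ∀ j a, e j + 2 * ν ≤ d a + 1) (_ : ∀ a, Through h (d a) (f a)) (E : Set (MvPolynomial (Fin (n + 1)) O))
      (Bad : ((Σ a, ι a) → F) → Prop), ((univ.filter Bad).card : ℝ) ≤ C₂ * (Fintype.card F : ℝ) ^ Fintype.card (Σ a, ι a) / Fintype.card F →
      |(zeros ψ E : ℝ) - ∑ j ∈ range (D + r + 1), w j * (Fintype.card F : ℝ) ^ j| ≤ C₀ * Real.sqrt (Fintype.card F) ^ (2 * r + D - 1) →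
      (zeros ψ (E ∪ Set.range h) : ℝ) ≤ C₁ * Real.sqrt (Fintype.card F) ^ D → ∀ k ≤ ν,
      |av (fun c => if Bad c then 0 else (((zeros (eval₂Hom ψ c) (fam E f) : ℝ) - tt w D r (Fintype.card F)) / Real.sqrt (Fintype.card F) ^ D) ^ k) -
        ∑ j ∈ range (k + 1), (k.choose j : ℝ) * gm j * ((zeros ψ (E ∪ Set.range h) : ℝ) / Real.sqrt (Fintype.card F) ^ D + vv w D r) ^ (k - j)| ≤
      K / Real.sqrt (Fintype.card F) ∧
      av (fun c => ((((zeros (eval₂Hom ψ c) (fam E f) : ℝ) - tt w D r (Fintype.card F)) / Real.sqrt (Fintype.card F) ^ D) ^ k) ^ 2) ≤ K := by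
  obtain ⟨K₁, hK₁0, hK₁⟩ := gauss D r hD hr w hw C₀ C₁ hC₀ hC₁ ν hν
  obtain ⟨c, hc0, hc⟩ := main_term D r hD hr w C₀ C₁ hC₀ hC₁
  obtain ⟨G, hG⟩ : ∃ G : ℝ, G = ∑ j ∈ range (2 * ν + 1), (gm j : ℝ) := ⟨_, rfl⟩
  have hGj : ∀ j ≤ 2 * ν, |(gm j : ℝ)| ≤ G := by
    intro j hj
    rw [abs_of_nonneg (Nat.cast_nonneg _ : (0 : ℝ) ≤ _), hG]
    exact single_le_sum (f := fun j => (gm j : ℝ)) (fun j _ => Nat.cast_nonneg _) (mem_range.2 (by omega))
  have hG0 : 0 ≤ G := (abs_nonneg _).trans (hGj 0 (Nat.zero_le _))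
  obtain ⟨Q, hQ⟩ : ∃ Q : ℝ, Q = 1 + C₁ + vv w D r + c := ⟨_, rfl⟩
  have hQ1 : 1 ≤ Q := by
    rw [hQ]
    have : (0 : ℝ) ≤ vv w D r := Nat.cast_nonneg _
    linarith
  obtain ⟨K₂, hK₂⟩ : ∃ K₂ : ℝ, K₂ = (2 * Q) ^ (2 * ν) * (1 + G * (2 * ν : ℕ)) * (K₁ + c) := ⟨_, rfl⟩
  have hK₂0 : 0 ≤ K₂ := by
    rw [hK₂]
    positivity
  obtain ⟨K₃, hK₃⟩ : ∃ K₃ : ℝ, K₃ = K₂ + 2 ^ (2 * ν) * G * Q ^ (2 * ν) := ⟨_, rfl⟩
  have hK₃0 : 0 ≤ K₃ := by
    rw [hK₃]
    positivity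
  refine ⟨K₂ + Real.sqrt (C₂ * K₃) + K₃, by positivity, ?_⟩
  intro O _ n F _ _ _ ψ hψ A _ _ ι _ _ J h e d f hA hh hd hf E Bad hBad hW hZ k hk
  have hg := hK₁ ψ hψ hA hh hd hf E hW hZ
  have hcard : (Fintype.card ((Σ a, ι a) → F) : ℝ) = (Fintype.card F : ℝ) ^ Fintype.card (Σ a, ι a) := by
    rw [Fintype.card_fun]
    push_cast
    rfl
  have hzf := zeros_fam ψ hf E
  obtain ⟨p, hpF⟩ : ∃ p : ℝ, p = (Fintype.card F : ℝ) := ⟨_, rfl⟩
  have hp0 : (0 : ℝ) < p := by rw [hpF]; exact card_pos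
  have hp1 : (1 : ℝ) ≤ p := by rw [hpF]; exact card_one
  rw [← hpF] at hW hZ hg hBad hcard ⊢
  simp only [← hpF] at hzf
  obtain ⟨x, hx⟩ : ∃ x : ℝ, x = Real.sqrt p := ⟨_, rfl⟩
  have hx1 : 1 ≤ x := by
    rw [hx]
    exact Real.one_le_sqrt.2 hp1
  have hx0 : 0 < x := by linarith
  have hxp : p = x ^ 2 := by
    rw [hx, Real.sq_sqrt hp0.le]
  rw [← hx] at hW hZ hg ⊢
  rw [hxp] at hW
  have hm := hc x (zeros ψ E) (zeros ψ (E ∪ Set.range h)) hx1 (Nat.cast_nonneg _) hW hZ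
  obtain ⟨u, hu⟩ : ∃ u : ℝ, u = x ^ D := ⟨_, rfl⟩
  have hu0 : 0 < u := by
    rw [hu]
    positivity
  obtain ⟨Z, hZd⟩ : ∃ Z : ℝ, Z = zeros ψ (E ∪ Set.range h) := ⟨_, rfl⟩
  have hZ0 : 0 ≤ Z := by
    rw [hZd]
    exact Nat.cast_nonneg _
  obtain ⟨Am, hAm⟩ : ∃ Am : ℝ, Am = (Z + ((zeros ψ E : ℝ) - Z) / (x ^ 2) ^ r - tt w D r (x ^ 2)) / u := ⟨_, rfl⟩
  rw [← hZd, ← hu] at hm hZ ⊢
  rw [← hu] at hg
  rw [← hAm] at hm
  have hτ : ∀ c, ((zeros (eval₂Hom ψ c) (fam E f) : ℝ) - tt w D r p) / u = gdev ψ E h f c / u + Am := by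
    intro c
    rw [hzf c, hA, hAm, ← hZd, hxp]
    ring
  have hcx : c / x ≤ c := div_le_self hc0 hx1
  have hzu : Z / u ≤ C₁ := by
    rw [div_le_iff₀ hu0]
    exact hZ
  have hzu0 : 0 ≤ Z / u := by positivity
  have hvv : (0 : ℝ) ≤ vv w D r := Nat.cast_nonneg _
  have hBb : |Z / u + vv w D r| ≤ Q := by
    rw [abs_of_nonneg (by positivity), hQ]
    linarith
  have hAb : |Am| ≤ Q := by
    have h1 := abs_sub_abs_le_abs_sub Am (Z / u + vv w D r)
    rw [abs_of_nonneg (by positivity : 0 ≤ Z / u + (vv w D r : ℝ))] at h1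
    rw [hQ]
    linarith
  have hδ0 : 0 ≤ (K₁ + c) / x := by positivity
  have hδA : |Am - (Z / u + vv w D r)| ≤ (K₁ + c) / x := hm.trans (div_le_div_of_nonneg_right (by linarith) hx0.le)
  have hδY : ∀ j ≤ 2 * ν, |av (fun c => (gdev ψ E h f c / u) ^ j) - (gm j : ℝ)| ≤ (K₁ + c) / x := fun j hj =>
    (hg j hj).trans (div_le_div_of_nonneg_right (by linarith) hx0.le)
  have key : ∀ m ≤ 2 * ν, |av (fun c => (gdev ψ E h f c / u + Am) ^ m) -
      ∑ j ∈ range (m + 1), (m.choose j : ℝ) * gm j * (Z / u + vv w D r) ^ (m - j)| ≤ K₂ / x := by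
    intro m hmν
    have h1 := shift_mom (fun c => gdev ψ E h f c / u) Am (Z / u + vv w D r) Q ((K₁ + c) / x) m hQ1 hAb hBb hδA hδ0 (fun j => (gm j : ℝ)) G
      (fun j hj => hGj j (by omega)) (fun j hj => hδY j (by omega))
    refine h1.trans ?_
    rw [hK₂, mul_div_assoc]
    refine mul_le_mul_of_nonneg_right ?_ hδ0
    have h2 : (m : ℝ) ≤ (2 * ν : ℕ) := by exact_mod_cast hmν
    refine mul_le_mul (pow_le_pow_right₀ (by linarith) hmν) ?_ (by positivity) (by positivity)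
    linarith [mul_le_mul_of_nonneg_left h2 hG0]
  -- the bad members
  have hbad : av (fun c : (Σ a, ι a) → F => (if Bad c then (1 : ℝ) else 0) ^ 2) ≤ C₂ / p := by
    unfold av
    rw [hcard, div_le_div_iff₀ (by positivity) hp0]
    rw [le_div_iff₀ hp0] at hBad
    have h1 : ∑ c : (Σ a, ι a) → F, (if Bad c then (1 : ℝ) else 0) ^ 2 = ((univ.filter Bad).card : ℝ) := by
      rw [card_filter]
      push_cast
      refine sum_congr rfl fun c _ => ?_
      split_ifs <;> norm_num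
    rw [h1]
    exact hBad
  have h2k : av (fun c => ((gdev ψ E h f c / u + Am) ^ k) ^ 2) ≤ K₃ := by
    have h1 := key (2 * k) (by omega)
    have h2 : av (fun c => ((gdev ψ E h f c / u + Am) ^ k) ^ 2) = av (fun c => (gdev ψ E h f c / u + Am) ^ (2 * k)) := by
      congr 1
      funext c
      rw [← pow_mul]
      congr 1
      ring
    rw [h2]
    have h3 : |∑ j ∈ range (2 * k + 1), ((2 * k).choose j : ℝ) * gm j * (Z / u + vv w D r) ^ (2 * k - j)| ≤ 2 ^ (2 * ν) * G * Q ^ (2 * ν) := by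
      refine (abs_sum_le_sum_abs _ _).trans ?_
      have h4 : ∀ j ∈ range (2 * k + 1), |((2 * k).choose j : ℝ) * gm j * (Z / u + vv w D r) ^ (2 * k - j)| ≤
          ((2 * k).choose j : ℝ) * (G * Q ^ (2 * ν)) := by
        intro j hj
        rw [mem_range] at hj
        rw [mul_assoc, abs_mul, abs_of_nonneg (Nat.cast_nonneg _ : (0 : ℝ) ≤ (((2 * k).choose j : ℕ) : ℝ))]
        refine mul_le_mul_of_nonneg_left ?_ (Nat.cast_nonneg _)
        rw [abs_mul, abs_pow]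
        refine mul_le_mul (hGj j (by omega)) ?_ (by positivity) hG0
        exact (pow_le_pow_left₀ (abs_nonneg _) hBb _).trans (pow_le_pow_right₀ hQ1 (by omega))
      refine (sum_le_sum h4).trans ?_
      rw [← sum_mul]
      have h5 : ∑ j ∈ range (2 * k + 1), ((2 * k).choose j : ℝ) = 2 ^ (2 * k) := by exact_mod_cast Nat.sum_range_choose (2 * k)
      rw [h5, mul_assoc]
      exact mul_le_mul_of_nonneg_right (pow_le_pow_right₀ (by norm_num) (by omega)) (by positivity)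
    have h6 : K₂ / x ≤ K₂ := div_le_self hK₂0 hx1
    rw [hK₃]
    have h7 := (abs_le.1 h1).2
    have h8 := (abs_le.1 h3).2
    linarith
  have hcs := av_cs (fun c : (Σ a, ι a) → F => if Bad c then (1 : ℝ) else 0) (fun c => (gdev ψ E h f c / u + Am) ^ k)
  have hb2 : |av (fun c : (Σ a, ι a) → F => (if Bad c then (1 : ℝ) else 0) * (gdev ψ E h f c / u + Am) ^ k)| ≤
      Real.sqrt (C₂ * K₃) / x := by
    rw [← Real.sqrt_sq_eq_abs]
    have h1 : Real.sqrt (C₂ * K₃) / x = Real.sqrt (C₂ * K₃ / p) := by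
      rw [Real.sqrt_div' _ hp0.le, ← hx]
    rw [h1]
    refine Real.sqrt_le_sqrt (hcs.trans ?_)
    calc _ ≤ (C₂ / p) * K₃ := mul_le_mul hbad h2k (av_nonneg _ fun _ => sq_nonneg _) (by positivity)
      _ = _ := by ring
  have hsplit : av (fun c => if Bad c then 0 else (((zeros (eval₂Hom ψ c) (fam E f) : ℝ) - tt w D r p) / u) ^ k) =
      av (fun c => (gdev ψ E h f c / u + Am) ^ k) -
        av (fun c : (Σ a, ι a) → F => (if Bad c then (1 : ℝ) else 0) * (gdev ψ E h f c / u + Am) ^ k) := by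
    rw [← av_sub]
    congr 1
    funext c
    rw [hτ c]
    split_ifs <;> ring
  refine ⟨?_, ?_⟩
  · rw [hsplit]
    have h1 := key k (by omega)
    have h2 : 0 ≤ K₃ / x := by positivity
    rw [add_div, add_div]
    rw [abs_le] at h1 hb2 ⊢
    constructor <;> linarith [h1.1, h1.2, hb2.1, hb2.2]
  · have h1 : (fun c => ((((zeros (eval₂Hom ψ c) (fam E f) : ℝ) - tt w D r p) / u) ^ k) ^ 2) =
        fun c => ((gdev ψ E h f c / u + Am) ^ k) ^ 2 := by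
      funext c
      rw [hτ c]
    rw [h1]
    have h2 : 0 ≤ Real.sqrt (C₂ * K₃) := Real.sqrt_nonneg _
    linarith

end Q282AE
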