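import Pool.Agent.Q282.GP.Cnt

/-!
# Point counts of the members of a family of complete intersections, over a finite field
-/

set_option autoImplicit false
set_option linter.unusedSectionVars false

namespace Q282AE

open Finset MvPolynomial
open scoped LinearAlgebra.Projectivization
open Q282RH (Recur)
open Q282GH (zeros Through)
open Q282GP (av av_add av_sub av_smul av_sum av_const av_nonneg av_mono abs_av av_indep SepF recur_gen gen fam)

/-- the points of projective space over a finite field -/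
abbrev Pf (n : ℕ) (F : Type) [Field F] : Type := ℙ F (Fin (n + 1) → F)

noncomputable instance (n : ℕ) (F : Type) [Field F] : DecidableEq (Pf n F) := Classical.decEq _

noncomputable instance (n : ℕ) (F : Type) [Field F] [Fintype F] : Fintype (Pf n F) := Fintype.ofFinite _

/-- the centred indicator function of zero -/
noncomputable def x0 (A F : Type) [Fintype A] [DecidableEq A] [Field F] [Fintype F] [DecidableEq F] (u : A → F) : ℝ :=
  (if u = 0 then 1 else 0) - 1 / (Fintype.card F : ℝ) ^ Fintype.card A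

section

variable {A : Type} [Fintype A] [DecidableEq A] {F : Type} [Field F] [Fintype F] [DecidableEq F]

lemma card_pos : (0 : ℝ) < Fintype.card F := by exact_mod_cast Fintype.card_pos

lemma card_one : (1 : ℝ) ≤ Fintype.card F := by exact_mod_cast Fintype.one_lt_card.le

lemma card_H : (Fintype.card (A → F) : ℝ) = (Fintype.card F : ℝ) ^ Fintype.card A := by
  rw [Fintype.card_fun]
  push_cast
  rfl

lemma pr_pos : (0 : ℝ) < (Fintype.card F : ℝ) ^ Fintype.card A := pow_pos card_pos _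

lemma pr_one : (1 : ℝ) ≤ (Fintype.card F : ℝ) ^ Fintype.card A := one_le_pow₀ card_one

lemma av_ind : av (fun u : A → F => if u = 0 then (1 : ℝ) else 0) = 1 / (Fintype.card F : ℝ) ^ Fintype.card A := by
  unfold av
  rw [sum_ite_eq' univ (0 : A → F), if_pos (mem_univ _), card_H]

lemma av_x0 : av (x0 A F) = 0 := by
  unfold x0
  rw [av_sub, av_ind, av_const, sub_self]

lemma av_x0_sq : av (fun u => x0 A F u ^ 2) =
    1 / (Fintype.card F : ℝ) ^ Fintype.card A * (1 - 1 / (Fintype.card F : ℝ) ^ Fintype.card A) := by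
  have h1 : (fun u => x0 A F u ^ 2) = fun u => (1 - 2 * (1 / (Fintype.card F : ℝ) ^ Fintype.card A)) * (if u = 0 then (1 : ℝ) else 0) +
      (1 / (Fintype.card F : ℝ) ^ Fintype.card A) ^ 2 := by
    funext u
    unfold x0
    split_ifs <;> ring
  rw [h1, av_add, av_smul, av_ind, av_const]
  ring

lemma x0_le (u : A → F) : |x0 A F u| ≤ 1 := by
  have h1 : 1 / (Fintype.card F : ℝ) ^ Fintype.card A ≤ 1 := by
    rw [div_le_one pr_pos]
    exact pr_one
  have h2 : 0 < 1 / (Fintype.card F : ℝ) ^ Fintype.card A := by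
    have := pr_pos (A := A) (F := F)
    positivity
  unfold x0
  rw [abs_le]
  split_ifs <;> constructor <;> linarith

end

section

variable {O : Type} [CommRing O] {n : ℕ} {F : Type} [Field F] [Fintype F] [DecidableEq F] (ψ : O →+* F)

/-- the value of a form at (the chosen representative of) a point -/
noncomputable def gval (G : MvPolynomial (Fin (n + 1)) O) (P : Pf n F) : F := eval₂ ψ P.rep G

lemma gval_mul (F' G : MvPolynomial (Fin (n + 1)) O) (P : Pf n F) : gval ψ (F' * G) P = gval ψ F' P * gval ψ G P := eval₂_mul _ _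

lemma gval_sum {κ : Type} (s : Finset κ) (G : κ → MvPolynomial (Fin (n + 1)) O) (P : Pf n F) :
    gval ψ (∑ k ∈ s, G k) P = ∑ k ∈ s, gval ψ (G k) P := eval₂_sum _ _ _ _

lemma gval_prod {κ : Type} (s : Finset κ) (G : κ → MvPolynomial (Fin (n + 1)) O) (P : Pf n F) :
    gval ψ (∏ k ∈ s, G k) P = ∏ k ∈ s, gval ψ (G k) P := eval₂_prod _ _ _ _

lemma gval_C (a : O) (P : Pf n F) : gval ψ (C a) P = ψ a := by
  unfold gval
  rw [eval₂_C]

lemma gval_X (i : Fin (n + 1)) (P : Pf n F) : gval ψ (X i) P = P.rep i := by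
  unfold gval
  rw [eval₂_X]

/-- two different points are separated by a linear form -/
lemma exists_linear (hψ : Function.Surjective ψ) (P Q : Pf n F) (h : P ≠ Q) :
    ∃ l : MvPolynomial (Fin (n + 1)) O, l.IsHomogeneous 1 ∧ gval ψ l Q = 0 ∧ gval ψ l P ≠ 0 := by
  by_contra hcon
  push Not at hcon
  have hmin : ∀ i j, P.rep i * Q.rep j = P.rep j * Q.rep i := by
    intro i j
    obtain ⟨a, ha⟩ := hψ (Q.rep j)
    obtain ⟨b, hb⟩ := hψ (Q.rep i)
    have h1 := hcon (C a * X i - C b * X j)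
      (((isHomogeneous_C_mul_X a i)).sub (isHomogeneous_C_mul_X b j)) (by
        unfold gval
        rw [eval₂_sub, eval₂_mul, eval₂_mul, eval₂_C, eval₂_C, eval₂_X, eval₂_X, ha, hb]
        ring)
    unfold gval at h1
    rw [eval₂_sub, eval₂_mul, eval₂_mul, eval₂_C, eval₂_C, eval₂_X, eval₂_X, ha, hb] at h1
    have h2 := sub_eq_zero.1 h1
    calc P.rep i * Q.rep j = Q.rep j * P.rep i := mul_comm _ _
      _ = Q.rep i * P.rep j := h2
      _ = _ := mul_comm _ _
  apply h
  obtain ⟨j, hj⟩ : ∃ j, Q.rep j ≠ 0 := by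
    by_contra h0
    push Not at h0
    exact Q.rep_nonzero (funext h0)
  have hrep : P.rep = (P.rep j * (Q.rep j)⁻¹) • Q.rep := by
    funext i
    rw [Pi.smul_apply, smul_eq_mul, mul_assoc, mul_comm (Q.rep j)⁻¹, ← mul_assoc, ← hmin i j, mul_assoc, mul_inv_cancel₀ hj, mul_one]
  have hne : P.rep j * (Q.rep j)⁻¹ ≠ 0 := by
    intro h0
    rw [h0, zero_smul] at hrep
    exact P.rep_nonzero hrep
  rw [← P.mk_rep, ← Q.mk_rep, Projectivization.mk_eq_mk_iff']
  exact ⟨_, hrep.symm⟩

/-- **Separation of points.** -/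
theorem sepK (hψ : Function.Surjective ψ) (K : ℕ) {J ι : Type} [Fintype ι] {h : J → MvPolynomial (Fin (n + 1)) O} {e : J → ℕ} {d : ℕ}
    {f : ι → MvPolynomial (Fin (n + 1)) O} (hh : ∀ j, (h j).IsHomogeneous (e j)) (hd : ∀ j, e j + K ≤ d)
    (hf : Through h d f) (P : Pf n F) (S : Finset (Pf n F)) (hPS : P ∉ S) (hS : S.card ≤ K) (hP : ∃ j, gval ψ (h j) P ≠ 0) :
    ∃ b : ι → F, ∑ k, b k * gval ψ (f k) P = 1 ∧ ∀ Q ∈ S, ∑ k, b k * gval ψ (f k) Q = 0 := by
  classical
  obtain ⟨j, hj⟩ := hP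
  have hl : ∀ Q ∈ S, ∃ l : MvPolynomial (Fin (n + 1)) O, l.IsHomogeneous 1 ∧ gval ψ l Q = 0 ∧ gval ψ l P ≠ 0 := by
    intro Q hQ
    refine exists_linear ψ hψ P Q ?_
    rintro rfl
    exact hPS hQ
  choose! l hl1 hl2 hl3 using hl
  obtain ⟨i, hi⟩ : ∃ i, P.rep i ≠ 0 := by
    by_contra h0
    push Not at h0
    exact P.rep_nonzero (funext h0)
  have hcard : e j + S.card + (d - e j - S.card) = d := by
    have := hd j
    omega
  obtain ⟨a, ha⟩ := hf.gen (h j * (∏ Q ∈ S, l Q) * X i ^ (d - e j - S.card)) (by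
    have h1 : (∏ Q ∈ S, l Q).IsHomogeneous S.card := by
      have := IsHomogeneous.prod S (fun Q => l Q) (fun _ => 1) (fun Q hQ => hl1 Q hQ)
      rw [sum_const, smul_eq_mul, mul_one] at this
      exact this
    have h2 : ((X i : MvPolynomial (Fin (n + 1)) O) ^ (d - e j - S.card)).IsHomogeneous (d - e j - S.card) := by
      have := (isHomogeneous_X O i).pow (d - e j - S.card)
      rw [one_mul] at this
      exact this
    have := ((hh j).mul h1).mul h2
    rw [hcard] at this
    exact this) (by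
    rw [mul_assoc]
    exact Ideal.mul_mem_right _ _ (Ideal.subset_span ⟨j, rfl⟩))
  have hval : ∀ Q : Pf n F, ∑ k, ψ (a k) * gval ψ (f k) Q =
      gval ψ (h j) Q * (∏ Q' ∈ S, gval ψ (l Q') Q) * Q.rep i ^ (d - e j - S.card) := by
    intro Q
    have h1 : gval ψ (h j * (∏ Q' ∈ S, l Q') * X i ^ (d - e j - S.card)) Q =
        ∑ k, ψ (a k) * gval ψ (f k) Q := by
      rw [ha, gval_sum]
      refine sum_congr rfl fun k _ => ?_
      rw [gval_mul, gval_C]
    rw [← h1, gval_mul, gval_mul, gval_prod]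
    congr 1
    unfold gval
    rw [eval₂_pow, eval₂_X]
  obtain ⟨u, hu⟩ : ∃ u : F, u = gval ψ (h j) P * (∏ Q' ∈ S, gval ψ (l Q') P) * P.rep i ^ (d - e j - S.card) := ⟨_, rfl⟩
  have hu0 : u ≠ 0 := by
    rw [hu]
    exact mul_ne_zero (mul_ne_zero hj (prod_ne_zero_iff.2 fun Q hQ => hl3 Q hQ)) (pow_ne_zero _ hi)
  refine ⟨fun k => u⁻¹ * ψ (a k), ?_, ?_⟩
  · have h1 : ∑ k, u⁻¹ * ψ (a k) * gval ψ (f k) P = u⁻¹ * ∑ k, ψ (a k) * gval ψ (f k) P := by
      rw [mul_sum]
      exact sum_congr rfl fun k _ => by ring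
    rw [h1, hval, ← hu, inv_mul_cancel₀ hu0]
  · intro Q hQ
    have h1 : ∑ k, u⁻¹ * ψ (a k) * gval ψ (f k) Q = u⁻¹ * ∑ k, ψ (a k) * gval ψ (f k) Q := by
      rw [mul_sum]
      exact sum_congr rfl fun k _ => by ring
    have h2 : ∏ Q' ∈ S, gval ψ (l Q') Q = 0 := prod_eq_zero hQ (hl2 Q hQ)
    rw [h1, hval, h2, mul_zero, zero_mul, mul_zero]

open Classical in
/-- the points outside the base locus -/
noncomputable def free (E : Set (MvPolynomial (Fin (n + 1)) O)) {J : Type} (h : J → MvPolynomial (Fin (n + 1)) O) : Finset (Pf n F) :=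
  univ.filter fun P => (∀ G ∈ E, gval ψ G P = 0) ∧ ∃ j, gval ψ (h j) P ≠ 0

open Classical in
lemma zeros_eq (S : Set (MvPolynomial (Fin (n + 1)) O)) :
    zeros ψ S = (univ.filter fun P : Pf n F => ∀ G ∈ S, gval ψ G P = 0).card := by
  unfold zeros
  rw [Nat.card_eq_fintype_card, Fintype.card_subtype]
  rfl

lemma gval_zero_of_span {J : Type} {h : J → MvPolynomial (Fin (n + 1)) O} {P : Pf n F}
    (hP : ∀ j, gval ψ (h j) P = 0) {G : MvPolynomial (Fin (n + 1)) O} (hG : G ∈ (Ideal.span (Set.range h)).radical) : gval ψ G P = 0 := by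
  have h1 : Ideal.span (Set.range h) ≤ RingHom.ker (eval₂Hom ψ P.rep) := by
    rw [Ideal.span_le]
    rintro _ ⟨j, rfl⟩
    exact hP j
  obtain ⟨e, he⟩ := hG
  have h2 : (gval ψ G P) ^ e = 0 := by
    have h3 : eval₂Hom ψ P.rep (G ^ e) = 0 := h1 he
    rw [map_pow] at h3
    exact h3
  exact eq_zero_of_pow_eq_zero h2

lemma zeros_base (E : Set (MvPolynomial (Fin (n + 1)) O)) {J : Type} (h : J → MvPolynomial (Fin (n + 1)) O) :
    zeros ψ E = zeros ψ (E ∪ Set.range h) + (free ψ E h).card := by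
  classical
  rw [zeros_eq, zeros_eq]
  have h1 : (univ.filter fun P : Pf n F => ∀ G ∈ E, gval ψ G P = 0) =
      (univ.filter fun P : Pf n F => ∀ G ∈ E ∪ Set.range h, gval ψ G P = 0) ∪ free ψ E h := by
    ext P
    unfold free
    simp only [mem_union, mem_filter, mem_univ, true_and]
    constructor
    · intro hP
      by_cases h2 : ∃ j, gval ψ (h j) P ≠ 0
      · exact Or.inr ⟨hP, h2⟩
      · push Not at h2
        refine Or.inl ?_
        rintro G (hG | ⟨j, rfl⟩)
        · exact hP G hG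
        · exact h2 j
    · rintro (hP | hP)
      · exact fun G hG => hP G (Or.inl hG)
      · exact hP.1
  rw [h1, card_union_of_disjoint]
  rw [disjoint_left]
  intro P hP hP'
  unfold free at hP'
  rw [mem_filter] at hP hP'
  obtain ⟨j, hj⟩ := hP'.2.2
  exact hj (hP.2 _ (Or.inr ⟨j, rfl⟩))

variable {A : Type} [Fintype A] [DecidableEq A] {ι : A → Type} [∀ a, Fintype (ι a)] [∀ a, DecidableEq (ι a)]

/-- the values of the equations at a point -/
noncomputable def vals (f : (a : A) → ι a → MvPolynomial (Fin (n + 1)) O) (P : Pf n F) (c : (Σ a, ι a) → F) (a : A) : F :=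
  ∑ k, c ⟨a, k⟩ * gval ψ (f a k) P

theorem sepF (hψ : Function.Surjective ψ) (K : ℕ) {J : Type} {h : J → MvPolynomial (Fin (n + 1)) O} {e : J → ℕ} {d : A → ℕ}
    {f : (a : A) → ι a → MvPolynomial (Fin (n + 1)) O} (hh : ∀ j, (h j).IsHomogeneous (e j)) (hd : ∀ j a, e j + K ≤ d a)
    (hf : ∀ a, Through h (d a) (f a)) (E : Set (MvPolynomial (Fin (n + 1)) O)) : SepF K (vals ψ f) (free ψ E h) := by
  classical
  intro P hP S hS hPS hSK
  unfold free at hP
  rw [mem_filter] at hP
  choose b hb1 hb2 using fun a => sepK ψ hψ K hh (fun j => hd j a) (hf a) P S hPS hSK hP.2.2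
  refine ⟨fun t x => t x.1 * b x.1 x.2, ?_, ?_⟩
  · intro c t
    funext a
    unfold vals
    rw [Pi.add_apply]
    have h1 : ∑ k, (c + fun x : (Σ a, ι a) => t x.1 * b x.1 x.2) ⟨a, k⟩ * gval ψ (f a k) P =
        ∑ k, c ⟨a, k⟩ * gval ψ (f a k) P + t a * ∑ k, b a k * gval ψ (f a k) P := by
      rw [mul_sum, ← sum_add_distrib]
      refine sum_congr rfl fun k _ => ?_
      rw [Pi.add_apply]
      ring
    rw [h1, hb1, mul_one]
  · intro Q hQ c t
    funext a
    unfold vals
    have h1 : ∑ k, (c + fun x : (Σ a, ι a) => t x.1 * b x.1 x.2) ⟨a, k⟩ * gval ψ (f a k) Q =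
        ∑ k, c ⟨a, k⟩ * gval ψ (f a k) Q + t a * ∑ k, b a k * gval ψ (f a k) Q := by
      rw [mul_sum, ← sum_add_distrib]
      refine sum_congr rfl fun k _ => ?_
      rw [Pi.add_apply]
      ring
    rw [h1, hb2 a Q hQ, mul_zero, add_zero]

/-- the deviation of the number of points -/
noncomputable def gdev (E : Set (MvPolynomial (Fin (n + 1)) O)) {J : Type} (h : J → MvPolynomial (Fin (n + 1)) O)
    (f : (a : A) → ι a → MvPolynomial (Fin (n + 1)) O) (c : (Σ a, ι a) → F) : ℝ :=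
  ∑ P ∈ free ψ E h, x0 A F (vals ψ f P c)

theorem recur_gdev (hψ : Function.Surjective ψ) (K : ℕ) {J : Type} {h : J → MvPolynomial (Fin (n + 1)) O} {e : J → ℕ} {d : A → ℕ}
    {f : (a : A) → ι a → MvPolynomial (Fin (n + 1)) O} (hh : ∀ j, (h j).IsHomogeneous (e j)) (hd : ∀ j a, e j + K ≤ d a)
    (hf : ∀ a, Through h (d a) (f a)) (E : Set (MvPolynomial (Fin (n + 1)) O)) :
    Recur (K + 1) 1 (free ψ E h) (fun S k => av (fun c => (∑ Q ∈ S, x0 A F (vals ψ f Q c)) ^ k)) (fun _ j => av (fun u => x0 A F u ^ j))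
      (fun _ => av (fun u => x0 A F u ^ 2)) :=
  recur_gen K (vals ψ f) (x0 A F) av_x0 x0_le (free ψ E h) (sepF ψ hψ K hh hd hf E)

lemma eval_map (ι : Type) (c : ι → F) (G : MvPolynomial (Fin (n + 1)) O) (P : Pf n F) :
    eval₂ (eval₂Hom ψ c) P.rep (map C G) = gval ψ G P := by
  unfold gval
  rw [eval₂_map]
  congr 1
  ext a
  simp

lemma eval_gen (f : (a : A) → ι a → MvPolynomial (Fin (n + 1)) O) (c : (Σ a, ι a) → F) (P : Pf n F) (a : A) :
    eval₂ (eval₂Hom ψ c) P.rep (gen f a) = vals ψ f P c a := by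
  unfold gen vals
  rw [eval₂_sum]
  refine sum_congr rfl fun k _ => ?_
  rw [eval₂_mul, eval₂_C, eval_map, coe_eval₂Hom, eval₂_X]

/-- the number of the points of a member -/
theorem zeros_fam {J : Type} {h : J → MvPolynomial (Fin (n + 1)) O} {d : A → ℕ} {f : (a : A) → ι a → MvPolynomial (Fin (n + 1)) O}
    (hf : ∀ a, Through h (d a) (f a)) (E : Set (MvPolynomial (Fin (n + 1)) O)) (c : (Σ a, ι a) → F) :
    (zeros (eval₂Hom ψ c) (fam E f) : ℝ) = zeros ψ (E ∪ Set.range h) +
      ((zeros ψ E : ℝ) - zeros ψ (E ∪ Set.range h)) / (Fintype.card F : ℝ) ^ Fintype.card A + gdev ψ E h f c := by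
  classical
  have h1 : zeros (eval₂Hom ψ c) (fam E f) = ((univ.filter fun P : Pf n F => ∀ G ∈ E ∪ Set.range h, gval ψ G P = 0) ∪
        (free ψ E h).filter fun P => vals ψ f P c = 0).card := by
    unfold zeros
    rw [Nat.card_eq_fintype_card, Fintype.card_subtype]
    congr 1
    ext P
    unfold free fam
    simp only [mem_union, mem_filter, mem_univ, true_and]
    constructor
    · intro hP
      have h3 : vals ψ f P c = 0 := by
        funext a
        rw [← eval_gen]
        exact hP _ (Or.inl ⟨a, rfl⟩)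
      have h4 : ∀ G ∈ E, gval ψ G P = 0 := fun G hG => by
        rw [← eval_map ψ (Σ a, ι a) c]
        exact hP _ (Or.inr ⟨G, hG, rfl⟩)
      by_cases h2 : ∃ j, gval ψ (h j) P ≠ 0
      · exact Or.inr ⟨⟨h4, h2⟩, h3⟩
      · push Not at h2
        refine Or.inl ?_
        rintro G (hG | ⟨j, rfl⟩)
        · exact h4 G hG
        · exact h2 j
    · rintro (hP | hP)
      · rintro G (⟨a, rfl⟩ | ⟨G, hG, rfl⟩)
        · rw [eval_gen]
          unfold vals
          refine sum_eq_zero fun k _ => ?_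
          rw [gval_zero_of_span ψ (fun j => hP _ (Or.inr ⟨j, rfl⟩)) ((hf a).mem k), mul_zero]
        · rw [eval_map]
          exact hP G (Or.inl hG)
      · rintro G (⟨a, rfl⟩ | ⟨G, hG, rfl⟩)
        · rw [eval_gen]
          exact congrFun hP.2 a
        · rw [eval_map]
          exact hP.1.1 G hG
  have h2 : Disjoint (univ.filter fun P : Pf n F => ∀ G ∈ E ∪ Set.range h, gval ψ G P = 0)
      ((free ψ E h).filter fun P => vals ψ f P c = 0) := by
    rw [disjoint_left]
    intro P hP hP'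
    unfold free at hP'
    rw [mem_filter, mem_filter] at hP'
    rw [mem_filter] at hP
    obtain ⟨j, hj⟩ := hP'.1.2.2
    exact hj (hP.2 _ (Or.inr ⟨j, rfl⟩))
  rw [h1, card_union_of_disjoint h2, card_filter (p := fun P => vals ψ f P c = 0), ← zeros_eq]
  unfold gdev x0
  rw [sum_sub_distrib, sum_const, nsmul_eq_mul, zeros_base ψ E h]
  push_cast
  ring

end

end Q282AE
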