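import Pool.Agent.Q282.AE.Link

/-!
# Almost all members of a family over a rational function field have no more Tate classes than the known ones
-/

set_option autoImplicit false
set_option linter.unusedSectionVars false

namespace Q282AE

open Finset MvPolynomial
open Q282GH (zeros Through)
open Q282GP (av gen fam oc tt vv oser cc TT kun coh)

lemma growth (r : ℝ) (hr : 1 < r) (a b : ℝ) (κ : ℕ) : ∃ m₁ : ℕ, ∀ m : ℕ, m₁ ≤ m → a + b * (2 * m + 2 : ℝ) ^ κ ≤ r ^ m := by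
  have h1 := tendsto_pow_const_div_const_pow_of_one_lt κ hr
  have h2 : Filter.Tendsto (fun m : ℕ => |b| * 4 ^ κ * ((m : ℝ) ^ κ / r ^ m)) Filter.atTop (nhds (|b| * 4 ^ κ * 0)) := h1.const_mul _
  rw [mul_zero] at h2
  have h3 := tendsto_pow_atTop_atTop_of_one_lt hr
  have h4 : ∀ᶠ m : ℕ in Filter.atTop, |b| * 4 ^ κ * ((m : ℝ) ^ κ / r ^ m) < 1 / 2 := h2.eventually_lt_const (by norm_num)
  have h5 : ∀ᶠ m : ℕ in Filter.atTop, 2 * a ≤ r ^ m := h3.eventually_ge_atTop _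
  obtain ⟨m₁, hm₁⟩ := Filter.eventually_atTop.1 ((h4.and h5).and (Filter.eventually_ge_atTop 1))
  refine ⟨m₁, fun m hm => ?_⟩
  obtain ⟨⟨h6, h7⟩, h8⟩ := hm₁ m hm
  have hr0 : 0 < r ^ m := pow_pos (by linarith) _
  have hm1 : (1 : ℝ) ≤ m := by exact_mod_cast h8
  have h9 : b * (2 * m + 2 : ℝ) ^ κ ≤ |b| * 4 ^ κ * (m : ℝ) ^ κ := by
    rw [mul_assoc, ← mul_pow]
    refine (mul_le_mul_of_nonneg_right (le_abs_self b) (by positivity)).trans ?_
    refine mul_le_mul_of_nonneg_left ?_ (abs_nonneg _)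
    exact pow_le_pow_left₀ (by positivity) (by linarith) _
  have h10 : |b| * 4 ^ κ * (m : ℝ) ^ κ ≤ r ^ m / 2 := by
    have : |b| * 4 ^ κ * ((m : ℝ) ^ κ / r ^ m) = |b| * 4 ^ κ * (m : ℝ) ^ κ / r ^ m := by ring
    rw [this, div_lt_iff₀ hr0] at h6
    linarith
  linarith

variable {k : Type} [Field k] [Fintype k] {M n : ℕ} {A : Type} [Fintype A] [DecidableEq A] {ι : A → Type} [∀ a, Fintype (ι a)]
  [∀ a, DecidableEq (ι a)]

/-- there are numbers as in `IsFrobenius` and `IsLFunction` and the poles are not the expected ones -/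
def Exceptional (Fm : ℕ → Type) [∀ m, Field (Fm m)] [∀ m, Algebra k (Fm m)] (w : ℕ → ℕ) (D r b ν i : ℕ)
    (E : Set (MvPolynomial (Fin (n + 1)) (MvPolynomial (Fin M) k)))
    (f : (a : A) → ι a → MvPolynomial (Fin (n + 1)) (MvPolynomial (Fin M) k)) (Δ : MvPolynomial (Σ a, ι a) (MvPolynomial (Fin M) k))
    (T B₂ : ℕ) (B₁ : ℝ) (c : (Σ a, ι a) → MvPolynomial (Fin M) k) : Prop :=
  ∃ (α : (m : ℕ) → (Fin M → Fm m) → Multiset ℂ) (γ β β' : Multiset ℂ), IsFrobenius Fm w D r b E f Δ c α ∧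
    IsLFunction (traceSum Fm w D r ν i Δ c α) (Nat.card k) ((Nat.card k : ℝ) ^ (i + M)) B₁ B₂ γ β β' ∧
      γ ≠ Multiset.replicate T ((Nat.card k : ℂ) ^ (i + M))

open Classical in
theorem core (D : ℕ) (hD : 1 ≤ D) (r : ℕ) (hr : 1 ≤ r) (hA : Fintype.card A = r) (w : ℕ → ℕ) (hw : w (D + r) = 1) (C₀ C₁ : ℝ)
    (ν : ℕ) (hν : 1 ≤ ν) (i : ℕ) (hM : 1 ≤ M) {J : Type} {h : J → MvPolynomial (Fin (n + 1)) (MvPolynomial (Fin M) k)} {e : J → ℕ} {d : A → ℕ}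
    {f : (a : A) → ι a → MvPolynomial (Fin (n + 1)) (MvPolynomial (Fin M) k)} (hh : ∀ j, (h j).IsHomogeneous (e j))
    (hd : ∀ j a, e j + 2 * ν ≤ d a + 1) (hf : ∀ a, Through h (d a) (f a)) (E : Set (MvPolynomial (Fin (n + 1)) (MvPolynomial (Fin M) k)))
    (Δ : MvPolynomial (Σ a, ι a) (MvPolynomial (Fin M) k)) (z : ℕ → ℕ) (b B₂ κ : ℕ) (B₀ : ℝ)
    (Fm : ℕ → Type) [∀ m, Field (Fm m)] [∀ m, Algebra k (Fm m)] [∀ m, Fintype (Fm m)] (hF : ∀ m, 1 ≤ m → Module.finrank k (Fm m) = m)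
    (hW : ∀ m, 1 ≤ m → ∀ x : Fin M → Fm m, map (ev x) Δ ≠ 0 → |(zeros (ev x) E : ℝ) - ∑ j ∈ range (D + r + 1), w j * (Nat.card (Fm m) : ℝ) ^ j| ≤
        C₀ * Real.sqrt (Nat.card (Fm m)) ^ (2 * r + D - 1))
    (hZ1 : ∀ m, 1 ≤ m → ∀ x : Fin M → Fm m, map (ev x) Δ ≠ 0 →
      (zeros (ev x) (E ∪ Set.range h) : ℝ) ≤ C₁ * Real.sqrt (Nat.card (Fm m)) ^ D)
    (hZ : ∀ m, 1 ≤ m → ∀ l ≤ ν, |∑ x : Fin M → Fm m, (if map (ev x) Δ = 0 then (0 : ℝ) else
          ((zeros (ev x) (E ∪ Set.range h) : ℝ) / Real.sqrt (Nat.card (Fm m)) ^ D) ^ l) - z l * (Nat.card (Fm m) : ℝ) ^ M| ≤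
        C₁ * (Nat.card (Fm m) : ℝ) ^ M / Real.sqrt (Nat.card (Fm m))) :
    ∃ C : ℝ, ∀ N : ℕ, (Nat.card {c : Box k M N (Σ a, ι a) // Exceptional Fm w D r b ν i E f Δ (∑ l ∈ range (ν + 1), TT w D r ν i l * z l) B₂
        (B₀ * (N + 1) ^ κ) (fun s => (c s : MvPolynomial (Fin M) k))} : ℝ) * (Nat.card k : ℝ) ^ (M * ((N + 1) / 2)) ≤
      C * (N + 1) * Nat.card (Box k M N (Σ a, ι a)) := by
  obtain ⟨K₀, C, hK₀, hC, hav⟩ := avsum D hD r hr hA w hw C₀ C₁ ν hν i hM hh hd hf E Δ z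
  obtain ⟨T, hT⟩ : ∃ T : ℕ, T = ∑ l ∈ range (ν + 1), TT w D r ν i l * z l := ⟨_, rfl⟩
  obtain ⟨q, hq⟩ : ∃ q : ℕ, q = Nat.card k := ⟨_, rfl⟩
  have hq2 : (2 : ℝ) ≤ q := by
    rw [hq, Nat.card_eq_fintype_card]
    exact_mod_cast Fintype.one_lt_card
  have hq0 : (0 : ℝ) < q := by linarith
  have hq1 : (1 : ℝ) ≤ q := by linarith
  obtain ⟨Q, hQ⟩ : ∃ Q : ℝ, Q = (q : ℝ) ^ (i + M) := ⟨_, rfl⟩
  have hQ0 : 0 < Q := by
    rw [hQ]
    positivity
  obtain ⟨ρ, hρ⟩ : ∃ ρ : ℝ, ρ = Real.sqrt q := ⟨_, rfl⟩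
  have hρ1 : 1 < ρ := by
    rw [hρ]
    exact Real.lt_sqrt_of_sq_lt (by linarith)
  have hρ0 : 0 < ρ := by linarith
  have hρq : ρ ^ 2 = q := by
    rw [hρ, Real.sq_sqrt hq0.le]
  obtain ⟨bt, hbt⟩ : ∃ bt : ℕ, bt = bet w D r b ν (2 * i) := ⟨_, rfl⟩
  obtain ⟨L, hL⟩ := window Q hQ0 T B₂
  obtain ⟨m₁, hm₁⟩ := growth ρ hρ1 ((8 * K₀ + 8 * bt) * ρ ^ L) (4 * |B₀| * ρ ^ L) κ
  have hcF : ∀ m, 1 ≤ m → Nat.card (Fm m) = q ^ m := by
    intro m hm
    rw [Nat.card_eq_fintype_card, hq, Nat.card_eq_fintype_card]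
    have : Fintype.card (Fm m) = Fintype.card k ^ Module.finrank k (Fm m) := Module.card_eq_pow_finrank
    rw [this, hF m hm]
  have hsF : ∀ m, 1 ≤ m → Real.sqrt (Nat.card (Fm m)) = ρ ^ m := by
    intro m hm
    rw [hcF m hm]
    push_cast
    rw [← hρq, ← pow_mul, mul_comm 2 m, pow_mul, Real.sqrt_sq (by positivity)]
  obtain ⟨Ex, hEx⟩ : ∃ Ex : (N m : ℕ) → Finset (Box k M N (Σ a, ι a)), ∀ N m, Ex N m = univ.filter fun c : Box k M N (Σ a, ι a) =>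
    2 * (1 / 8) * (Fintype.card (Fm m) : ℝ) ^ M < |∑ x ∈ univ.filter (Gen k (F := Fm m) (M := M)), XX w D r ν i E f Δ x (at' x c) -
      (T : ℝ) * (Fintype.card (Fm m) : ℝ) ^ M| := ⟨fun N m => univ.filter fun c : Box k M N (Σ a, ι a) =>
    2 * (1 / 8) * (Fintype.card (Fm m) : ℝ) ^ M < |∑ x ∈ univ.filter (Gen k (F := Fm m) (M := M)), XX w D r ν i E f Δ x (at' x c) -
      (T : ℝ) * (Fintype.card (Fm m) : ℝ) ^ M|, fun _ _ => rfl⟩
  -- the large values of `N`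
  have key : ∀ N : ℕ, m₁ + L + 1 ≤ (N + 1) / 2 → ∀ c : Box k M N (Σ a, ι a),
      Exceptional Fm w D r b ν i E f Δ T B₂ (B₀ * (N + 1) ^ κ) (fun s => (c s : MvPolynomial (Fin M) k)) →
      ∃ m ∈ Ico ((N + 1) / 2 + 1 - L) ((N + 1) / 2 + 1), c ∈ Ex N m := by
    intro N hN c hc
    obtain ⟨α, γ, β, β', hα, hL1, hne⟩ := hc
    rw [← hq, ← hQ] at hL1
    obtain ⟨m, hm1, hm2, hm3⟩ := hL γ hL1.card hL1.top hL1.int (by
      rw [hQ]
      rw [← hq] at hne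
      push_cast
      exact hne) ((N + 1) / 2 + 1 - L)
    have hmlt : m < (N + 1) / 2 + 1 := by omega
    have hm0 : 1 ≤ m := by omega
    refine ⟨m, mem_Ico.2 ⟨hm1, hmlt⟩, ?_⟩
    by_contra hcm
    rw [hEx] at hcm
    simp only [mem_filter, mem_univ, true_and, not_lt] at hcm
    rw [← Nat.card_eq_fintype_card, hcF m hm0] at hcm
    have hlk := link w D r b ν i hM E f Δ c α hα m hm0
    rw [hsF m hm0, hcF m hm0, ← hbt, hL1.sum m hm0] at hlk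
    obtain ⟨U, hU⟩ : ∃ U : ℝ, U = ∑ x ∈ univ.filter (Gen k (F := Fm m) (M := M)), XX w D r ν i E f Δ x (at' x c) := ⟨_, rfl⟩
    rw [← hU] at hcm hlk
    push_cast at hcm hlk
    have hgr := hm₁ ((N + 1) / 2) (by omega)
    have hρm : ρ ^ ((N + 1) / 2) ≤ ρ ^ m * ρ ^ L := by
      rw [← pow_add]
      exact pow_le_pow_right₀ hρ1.le (by omega)
    have hNle : ((N : ℝ) + 1) ^ κ ≤ (2 * (((N + 1) / 2 : ℕ) : ℝ) + 2) ^ κ := by
      refine pow_le_pow_left₀ (by positivity) ?_ _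
      have : N + 1 ≤ 2 * ((N + 1) / 2) + 2 := by omega
      exact_mod_cast this
    have hgr2 : 8 * K₀ + 8 * bt + 4 * (|B₀| * ((N : ℝ) + 1) ^ κ) ≤ ρ ^ m := by
      have h1 : (8 * K₀ + 8 * bt + 4 * (|B₀| * ((N : ℝ) + 1) ^ κ)) * ρ ^ L ≤ ρ ^ m * ρ ^ L := by
        refine le_trans ?_ (hgr.trans hρm)
        have h2 : 4 * (|B₀| * ((N : ℝ) + 1) ^ κ) * ρ ^ L ≤ 4 * |B₀| * ρ ^ L * (2 * (((N + 1) / 2 : ℕ) : ℝ) + 2) ^ κ := by
          calc 4 * (|B₀| * ((N : ℝ) + 1) ^ κ) * ρ ^ L = 4 * |B₀| * ρ ^ L * ((N : ℝ) + 1) ^ κ := by ring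
            _ ≤ _ := mul_le_mul_of_nonneg_left hNle (by positivity)
        linarith
      exact le_of_mul_le_mul_right h1 (pow_pos hρ0 L)
    obtain ⟨s, hs⟩ : ∃ s : ℝ, s = ρ ^ m := ⟨_, rfl⟩
    have hs0 : 0 < s := by
      rw [hs]
      exact pow_pos hρ0 m
    have hs1 : 1 ≤ s := by
      rw [hs]
      exact one_le_pow₀ hρ1.le
    have hsq : (q : ℝ) ^ m = s ^ 2 := by
      rw [← hρq, hs, ← pow_mul, ← pow_mul, mul_comm]
    rw [← hs] at hgr2 hlk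
    rw [hsq] at hcm
    have hsqc : ((q : ℂ)) ^ m = (s : ℂ) ^ 2 := by exact_mod_cast hsq
    rw [hsq, hsqc] at hlk
    have hQm : Q ^ m = (s ^ 2) ^ i * (s ^ 2) ^ M := by
      rw [hQ, ← pow_add, ← hsq, ← pow_mul, ← pow_mul, mul_comm]
    have hsM : s ^ M ≤ (s ^ 2) ^ M / s := by
      rw [le_div_iff₀ hs0, ← pow_mul]
      calc s ^ M * s = s ^ (M + 1) := (pow_succ _ _).symm
        _ ≤ s ^ (2 * M) := pow_le_pow_right₀ hs1 (by omega)
    have hlow : ‖(β.map fun g => g ^ m).sum‖ + ‖(β'.map fun g => g ^ m).sum‖ ≤ |B₀| * ((N : ℝ) + 1) ^ κ * (Q ^ m / s) := by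
      have hR : 0 ≤ Q / Real.sqrt q := by positivity
      have h1 := norm_sum_pow β (Q / Real.sqrt q) hR (fun g hg => hL1.low g (Multiset.mem_add.2 (Or.inl hg))) m
      have h2 := norm_sum_pow β' (Q / Real.sqrt q) hR (fun g hg => hL1.low g (Multiset.mem_add.2 (Or.inr hg))) m
      have h3 : (Q / Real.sqrt q) ^ m = Q ^ m / s := by
        rw [div_pow, ← hρ, hs]
      rw [h3] at h1 h2
      have h4 := hL1.num
      rw [Multiset.card_add] at h4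
      push_cast at h4
      have h5 : B₀ * ((N : ℝ) + 1) ^ κ ≤ |B₀| * ((N : ℝ) + 1) ^ κ := mul_le_mul_of_nonneg_right (le_abs_self _) (by positivity)
      have h6 : 0 ≤ Q ^ m / s := by positivity
      calc _ ≤ (β.card : ℝ) * (Q ^ m / s) + (β'.card : ℝ) * (Q ^ m / s) := add_le_add h1 h2
        _ = ((β.card : ℝ) + β'.card) * (Q ^ m / s) := by ring
        _ ≤ _ := mul_le_mul_of_nonneg_right (by linarith) h6
    -- the contradiction
    have e1 : ‖(γ.map fun g => g ^ m).sum - (T : ℂ) * (Q : ℂ) ^ m‖ ≤ (1 / 2) * Q ^ m := by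
      have h1 : (γ.map fun g => g ^ m).sum - (T : ℂ) * (Q : ℂ) ^ m =
          ((γ.map fun g => g ^ m).sum + (β.map fun g => g ^ m).sum - (β'.map fun g => g ^ m).sum - ((s : ℂ) ^ 2) ^ i * (U : ℂ)) +
          (((s ^ 2) ^ i * (U - T * (s ^ 2) ^ M) : ℝ) : ℂ) - (β.map fun g => g ^ m).sum + (β'.map fun g => g ^ m).sum := by
        have h2 : (Q : ℂ) ^ m = (((s : ℂ)) ^ 2) ^ i * (((s : ℂ)) ^ 2) ^ M := by exact_mod_cast hQm
        rw [h2]
        push_cast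
        ring
      rw [h1]
      have h2 : ‖(((s ^ 2) ^ i * (U - T * (s ^ 2) ^ M) : ℝ) : ℂ)‖ ≤ (1 / 4) * Q ^ m := by
        rw [Complex.norm_real, Real.norm_eq_abs, abs_mul, abs_of_nonneg (by positivity : (0 : ℝ) ≤ (s ^ 2) ^ i), hQm]
        calc (s ^ 2) ^ i * |U - T * (s ^ 2) ^ M| ≤ (s ^ 2) ^ i * (2 * (1 / 8) * (s ^ 2) ^ M) := mul_le_mul_of_nonneg_left hcm (by positivity)
          _ = _ := by ring
      have h3 : 2 * (bt : ℝ) * s ^ M * (s ^ 2) ^ i ≤ 2 * bt * (Q ^ m / s) := by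
        rw [hQm]
        calc 2 * (bt : ℝ) * s ^ M * (s ^ 2) ^ i ≤ 2 * bt * ((s ^ 2) ^ M / s) * (s ^ 2) ^ i := by
              refine mul_le_mul_of_nonneg_right (mul_le_mul_of_nonneg_left hsM (by positivity)) (by positivity)
          _ = _ := by ring
      have h4 : (2 * (bt : ℝ) + |B₀| * ((N : ℝ) + 1) ^ κ) * (Q ^ m / s) ≤ (1 / 4) * Q ^ m := by
        have h5 : 2 * (bt : ℝ) + |B₀| * ((N : ℝ) + 1) ^ κ ≤ s / 4 := by linarith
        calc _ ≤ s / 4 * (Q ^ m / s) := mul_le_mul_of_nonneg_right h5 (by positivity)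
          _ = _ := by field_simp
      refine (norm_add_le _ _).trans ?_
      refine (add_le_add_left (norm_sub_le _ _) _).trans ?_
      refine (add_le_add_left (add_le_add_left (norm_add_le _ _) _) _).trans ?_
      push_cast at hlk h2 ⊢
      linarith
    have e2 : (γ.map fun g => (g / (Q : ℂ)) ^ m).sum - (T : ℂ) = ((γ.map fun g => g ^ m).sum - (T : ℂ) * (Q : ℂ) ^ m) / (Q : ℂ) ^ m := by
      have hQc : (Q : ℂ) ^ m ≠ 0 := pow_ne_zero _ (by exact_mod_cast hQ0.ne')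
      rw [sub_div, mul_div_cancel_right₀ _ hQc]
      congr 1
      have h1 : (γ.map fun g => (g / (Q : ℂ)) ^ m) = γ.map fun g => g ^ m * ((Q : ℂ) ^ m)⁻¹ :=
        Multiset.map_congr rfl fun g _ => by rw [div_pow, div_eq_mul_inv]
      rw [h1, Multiset.sum_map_mul_right, div_eq_mul_inv]
    rw [e2, norm_div, norm_pow, Complex.norm_real, Real.norm_of_nonneg hQ0.le, lt_div_iff₀ (pow_pos hQ0 m)] at hm3
    linarith
  -- the number of the exceptional members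
  refine ⟨64 * C * L * (q : ℝ) ^ (M * L) + (q : ℝ) ^ (M * (m₁ + L + 1)), ?_⟩
  intro N
  rw [← hq, ← hT, Nat.card_eq_fintype_card (α := Box k M N (Σ a, ι a))]
  obtain ⟨G, hG⟩ : ∃ G : ℝ, G = Fintype.card (Box k M N (Σ a, ι a)) := ⟨_, rfl⟩
  rw [← hG]
  have hG0 : 0 ≤ G := by
    rw [hG]
    exact Nat.cast_nonneg _
  have hcard : (Nat.card {c : Box k M N (Σ a, ι a) // Exceptional Fm w D r b ν i E f Δ T B₂
        (B₀ * (N + 1) ^ κ) (fun s => (c s : MvPolynomial (Fin M) k))} : ℝ) =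
      ((univ.filter fun c : Box k M N (Σ a, ι a) => Exceptional Fm w D r b ν i E f Δ T B₂
        (B₀ * (N + 1) ^ κ) (fun s => (c s : MvPolynomial (Fin M) k))).card : ℝ) := by
    rw [Nat.card_eq_fintype_card, Fintype.card_subtype]
  rw [hcard]
  by_cases hN : m₁ + L + 1 ≤ (N + 1) / 2
  · have h1 : (univ.filter fun c : Box k M N (Σ a, ι a) => Exceptional Fm w D r b ν i E f Δ T B₂
        (B₀ * (N + 1) ^ κ) (fun s => (c s : MvPolynomial (Fin M) k))) ⊆ (Ico ((N + 1) / 2 + 1 - L) ((N + 1) / 2 + 1)).biUnion (Ex N) := by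
      intro c hc
      rw [mem_filter] at hc
      obtain ⟨m, hm1, hm2⟩ := key N hN c hc.2
      exact mem_biUnion.2 ⟨m, hm1, hm2⟩
    have h2 : ∀ m ∈ Ico ((N + 1) / 2 + 1 - L) ((N + 1) / 2 + 1), ((Ex N m).card : ℝ) * (q : ℝ) ^ (M * ((N + 1) / 2)) ≤
        64 * C * (N + 1) * G * (q : ℝ) ^ (M * L) := by
      intro m hm
      rw [mem_Ico] at hm
      have hm0 : 1 ≤ m := by omega
      have hav' := hav (F := Fm m) (hW m hm0) (hZ1 m hm0) (hZ m hm0)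
      have hgr := hm₁ ((N + 1) / 2) (by omega)
      have hρm : ρ ^ ((N + 1) / 2) ≤ ρ ^ m * ρ ^ L := by
        rw [← pow_add]
        exact pow_le_pow_right₀ hρ1.le (by omega)
      have hK8 : 8 * K₀ ≤ ρ ^ m := by
        have h3 : (8 * K₀) * ρ ^ L ≤ ρ ^ m * ρ ^ L := by
          refine le_trans ?_ (hgr.trans hρm)
          have h4 : 0 ≤ 8 * (bt : ℝ) * ρ ^ L := by positivity
          have h5 : 0 ≤ 4 * |B₀| * ρ ^ L * (2 * (((N + 1) / 2 : ℕ) : ℝ) + 2) ^ κ := by positivity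
          linarith
        exact le_of_mul_le_mul_right h3 (pow_pos hρ0 L)
      have hcast : ((∑ l ∈ range (ν + 1), ((TT w D r ν i l * z l : ℕ) : ℝ)) : ℝ) = (T : ℝ) := by
        rw [hT]
        push_cast
        rfl
      have h3 := chebyshev (k := k) (F := Fm m) (N := N) (S := Σ a, ι a) (XX w D r ν i E f Δ) C hC hav'.1 (by rw [hF m hm0]; omega) T (1 / 8) (by norm_num) (by
        have h4 := hav'.2
        rw [hcast, hsF m hm0, Nat.card_eq_fintype_card] at h4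
        refine h4.trans ?_
        rw [div_le_iff₀ (pow_pos hρ0 m)]
        have h5 : (0 : ℝ) ≤ (Fintype.card (Fm m) : ℝ) ^ M := by positivity
        nlinarith)
      rw [hF m hm0, ← hG] at h3
      have h4 : ((Ex N m).card : ℝ) * (Fintype.card (Fm m) : ℝ) ^ M ≤ C / (1 / 8) ^ 2 * (m : ℝ) * G := by
        rw [hEx]
        exact h3
      rw [← Nat.card_eq_fintype_card, hcF m hm0] at h4
      push_cast at h4
      have h5 : (q : ℝ) ^ (M * ((N + 1) / 2)) ≤ ((q : ℝ) ^ m) ^ M * (q : ℝ) ^ (M * L) := by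
        rw [← pow_mul, ← pow_add]
        refine pow_le_pow_right₀ hq1 ?_
        have : (N + 1) / 2 ≤ m + L := by omega
        nlinarith
      have h6 : (m : ℝ) ≤ N + 1 := by
        have : m ≤ N + 1 := by omega
        exact_mod_cast this
      calc ((Ex N m).card : ℝ) * (q : ℝ) ^ (M * ((N + 1) / 2)) ≤ ((Ex N m).card : ℝ) * (((q : ℝ) ^ m) ^ M * (q : ℝ) ^ (M * L)) :=
            mul_le_mul_of_nonneg_left h5 (Nat.cast_nonneg _)
        _ = ((Ex N m).card : ℝ) * ((q : ℝ) ^ m) ^ M * (q : ℝ) ^ (M * L) := by ring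
        _ ≤ (C / (1 / 8) ^ 2 * (m : ℝ) * G) * (q : ℝ) ^ (M * L) := mul_le_mul_of_nonneg_right h4 (by positivity)
        _ = 64 * C * G * (q : ℝ) ^ (M * L) * m := by ring
        _ ≤ 64 * C * G * (q : ℝ) ^ (M * L) * (N + 1) := mul_le_mul_of_nonneg_left h6 (by positivity)
        _ = _ := by ring
    have h3 : ((univ.filter fun c : Box k M N (Σ a, ι a) => Exceptional Fm w D r b ν i E f Δ T B₂
        (B₀ * (N + 1) ^ κ) (fun s => (c s : MvPolynomial (Fin M) k))).card : ℝ) ≤ ∑ m ∈ Ico ((N + 1) / 2 + 1 - L) ((N + 1) / 2 + 1), ((Ex N m).card : ℝ) := by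
      have := (card_le_card h1).trans card_biUnion_le
      exact_mod_cast this
    calc _ ≤ (∑ m ∈ Ico ((N + 1) / 2 + 1 - L) ((N + 1) / 2 + 1), ((Ex N m).card : ℝ)) * (q : ℝ) ^ (M * ((N + 1) / 2)) :=
          mul_le_mul_of_nonneg_right h3 (by positivity)
      _ = ∑ m ∈ Ico ((N + 1) / 2 + 1 - L) ((N + 1) / 2 + 1), ((Ex N m).card : ℝ) * (q : ℝ) ^ (M * ((N + 1) / 2)) := sum_mul _ _ _
      _ ≤ ∑ m ∈ Ico ((N + 1) / 2 + 1 - L) ((N + 1) / 2 + 1), 64 * C * (N + 1) * G * (q : ℝ) ^ (M * L) := sum_le_sum h2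
      _ = L * (64 * C * (N + 1) * G * (q : ℝ) ^ (M * L)) := by
          rw [sum_const, Nat.card_Ico, nsmul_eq_mul]
          congr 2
          omega
      _ ≤ _ := by
          have h4 : 0 ≤ (q : ℝ) ^ (M * (m₁ + L + 1)) * ((N : ℝ) + 1) * G := by positivity
          linarith
  · have h1 : ((univ.filter fun c : Box k M N (Σ a, ι a) => Exceptional Fm w D r b ν i E f Δ T B₂
        (B₀ * (N + 1) ^ κ) (fun s => (c s : MvPolynomial (Fin M) k))).card : ℝ) ≤ G := by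
      rw [hG]
      exact_mod_cast card_le_univ _
    have h2 : (q : ℝ) ^ (M * ((N + 1) / 2)) ≤ (q : ℝ) ^ (M * (m₁ + L + 1)) := by
      refine pow_le_pow_right₀ hq1 (Nat.mul_le_mul_left _ (by omega))
    have hN1 : (1 : ℝ) ≤ (N : ℝ) + 1 := by
      have : (0 : ℝ) ≤ N := Nat.cast_nonneg _
      linarith
    calc _ ≤ G * (q : ℝ) ^ (M * (m₁ + L + 1)) := mul_le_mul h1 h2 (by positivity) hG0
      _ ≤ G * (q : ℝ) ^ (M * (m₁ + L + 1)) * ((N : ℝ) + 1) := le_mul_of_one_le_right (by positivity) hN1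
      _ ≤ _ := by
          have h4 : 0 ≤ 64 * C * L * (q : ℝ) ^ (M * L) * ((N : ℝ) + 1) * G := by positivity
          linarith

end Q282AE
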