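import Pool.Agent.Q282.AE.Lin

/-!
# The final form
-/

set_option autoImplicit false
set_option linter.unusedSectionVars false

namespace Q282AE

open Finset MvPolynomial
open scoped LinearAlgebra.Projectivization
open Q282GH (zeros Through)
open Q282GP (oc tt vv TT kun coh)

lemma ncard_box {k : Type} [Field k] {S : Type} (M N : ℕ) (P : (S → MvPolynomial (Fin M) k) → Prop) :
    Set.ncard {c : S → MvPolynomial (Fin M) k | (∀ s, (c s).totalDegree ≤ N) ∧ P c} =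
      Nat.card {c : Box k M N S // P fun s => c s} := by
  rw [← Nat.card_coe_set_eq]
  exact Nat.card_congr ⟨fun c => ⟨fun s => ⟨c.1 s, (mem_restrictTotalDegree _ _ _).2 (c.2.1 s)⟩, c.2.2⟩,
    fun c => ⟨fun s => c.1 s, fun s => (mem_restrictTotalDegree _ _ _).1 (c.1 s).2, c.2⟩, fun _ => rfl, fun _ => rfl⟩

lemma ncard_box' {k : Type} [Field k] {S : Type} (M N : ℕ) :
    Set.ncard {c : S → MvPolynomial (Fin M) k | ∀ s, (c s).totalDegree ≤ N} = Nat.card (Box k M N S) := by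
  rw [← Nat.card_coe_set_eq]
  exact Nat.card_congr ⟨fun c s => ⟨c.1 s, (mem_restrictTotalDegree _ _ _).2 (c.2 s)⟩,
    fun c => ⟨fun s => c s, fun s => (mem_restrictTotalDegree _ _ _).1 (c s).2⟩, fun _ => rfl, fun _ => rfl⟩

lemma sum_if {k : Type} [Field k] {M : ℕ} {S : Type} (Δ : MvPolynomial S (MvPolynomial (Fin M) k)) {F : Type} [Field F] [Fintype F]
    [Algebra k F] [DecidablePred fun x : Fin M → F => map (ev x) Δ = 0] (g : (Fin M → F) → ℝ) :
    ∑ x : Fin M → F, (if map (ev x) Δ = 0 then (0 : ℝ) else g x) = ∑ᶠ x : {x : Fin M → F // map (ev x) Δ ≠ 0}, g x.1 := by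
  classical
  rw [finsum_eq_sum_of_fintype]
  have h3 : ∑ x : Fin M → F, (if map (ev x) Δ = 0 then (0 : ℝ) else g x) =
      ∑ x ∈ univ.filter (fun x : Fin M → F => map (ev x) Δ ≠ 0), g x := by
    rw [sum_filter]
    refine sum_congr rfl fun x _ => ?_
    by_cases hx : map (ev x) Δ = 0
    · rw [if_pos hx, if_neg (fun h => h hx)]
    · rw [if_neg hx, if_pos hx]
  rw [h3]
  exact Finset.sum_subtype _ (fun x => by rw [mem_filter]; simp) g

lemma generic_count {k : Type} [Field k] {M : ℕ} {S : Type} (Δ : MvPolynomial S (MvPolynomial (Fin M) k)) (hΔ : Δ ≠ 0) :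
    ∃ B : ℝ, 0 ≤ B ∧ ∀ (F : Type) [Field F] [Fintype F] [Algebra k F],
      |∑ᶠ _x : {x : Fin M → F // map (ev x) Δ ≠ 0}, (1 : ℝ) - (Nat.card F : ℝ) ^ M| ≤
        B * (Nat.card F : ℝ) ^ M / Real.sqrt (Nat.card F) := by
  classical
  obtain ⟨s, hs⟩ := ne_zero_iff.1 hΔ
  refine ⟨(coeff s Δ).totalDegree, Nat.cast_nonneg _, ?_⟩
  intro F _ _ _
  rw [← sum_if Δ fun _ => (1 : ℝ)]
  have h1 : map (algebraMap k F) (coeff s Δ) ≠ 0 := by
    intro h
    exact hs (map_injective _ (algebraMap k F).injective (by rw [h, map_zero]))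
  have h2 := Q282GH.sz (map (algebraMap k F) (coeff s Δ)) h1
  have hp0 : (0 : ℝ) < Fintype.card F := by exact_mod_cast Fintype.card_pos
  have hp1 : (1 : ℝ) ≤ Fintype.card F := by exact_mod_cast Fintype.card_pos
  rw [Fintype.card_fin] at h2
  have h3 : ((univ.filter fun x : Fin M → F => map (ev x) Δ = 0).card : ℝ) ≤
      (Nat.card {u : Fin M → F // eval u (map (algebraMap k F) (coeff s Δ)) = 0} : ℝ) := by
    rw [Nat.card_eq_fintype_card, Fintype.card_subtype]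
    have : (univ.filter fun x : Fin M → F => map (ev x) Δ = 0) ⊆
        univ.filter fun u : Fin M → F => eval u (map (algebraMap k F) (coeff s Δ)) = 0 := by
      intro x hx
      rw [mem_filter] at hx ⊢
      refine ⟨mem_univ _, ?_⟩
      have h4 : coeff s (map (ev x) Δ) = 0 := by
        rw [hx.2, coeff_zero]
      rw [coeff_map, ev_apply] at h4
      rw [MvPolynomial.eval_map, ← aeval_def]
      exact h4
    exact_mod_cast card_le_card this
  have h4 : (map (algebraMap k F) (coeff s Δ)).totalDegree ≤ (coeff s Δ).totalDegree := by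
    unfold totalDegree
    exact Finset.sup_mono (support_map_subset _ _)
  have h5 : ((univ.filter fun x : Fin M → F => map (ev x) Δ = 0).card : ℝ) * Fintype.card F ≤
      (coeff s Δ).totalDegree * (Fintype.card F : ℝ) ^ M := by
    refine (mul_le_mul_of_nonneg_right h3 hp0.le).trans (h2.trans (mul_le_mul_of_nonneg_right ?_ (by positivity)))
    exact_mod_cast h4
  have h6 : ∑ x : Fin M → F, (if map (ev x) Δ = 0 then (0 : ℝ) else 1) - (Nat.card F : ℝ) ^ M =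
      -((univ.filter fun x : Fin M → F => map (ev x) Δ = 0).card : ℝ) := by
    have h7 : ∑ x : Fin M → F, (if map (ev x) Δ = 0 then (0 : ℝ) else 1) =
        ∑ x : Fin M → F, ((1 : ℝ) - if map (ev x) Δ = 0 then 1 else 0) := by
      refine sum_congr rfl fun x _ => ?_
      split_ifs <;> norm_num
    rw [h7, sum_sub_distrib, sum_boole, sum_const, card_univ, nsmul_eq_mul, mul_one, Fintype.card_fun, Fintype.card_fin,
      Nat.card_eq_fintype_card]
    push_cast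
    ring
  rw [h6, abs_neg, abs_of_nonneg (Nat.cast_nonneg _), Nat.card_eq_fintype_card]
  have h7 : 1 ≤ Real.sqrt (Fintype.card F) := Real.one_le_sqrt.2 hp1
  rw [le_div_iff₀ (by linarith)]
  refine le_trans (mul_le_mul_of_nonneg_left ?_ (Nat.cast_nonneg _)) h5
  rw [Real.sqrt_le_left (by linarith)]
  nlinarith

theorem almost {k : Type} [Field k] [Finite k] {M n : ℕ} {A : Type} [Fintype A] {ι : A → Type} [∀ a, Fintype (ι a)]
    (D : ℕ) (hD : 1 ≤ D) (r : ℕ) (hr : 1 ≤ r) (hA : Fintype.card A = r) (w : ℕ → ℕ) (hw : w (D + r) = 1) (C₀ C₁ : ℝ)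
    (ν : ℕ) (hν : 1 ≤ ν) (i : ℕ) (hM : 1 ≤ M) {J : Type} {h : J → MvPolynomial (Fin (n + 1)) (MvPolynomial (Fin M) k)} {e : J → ℕ} {d : A → ℕ}
    {f : (a : A) → ι a → MvPolynomial (Fin (n + 1)) (MvPolynomial (Fin M) k)} (hh : ∀ j, (h j).IsHomogeneous (e j))
    (hd : ∀ j a, e j + 2 * ν ≤ d a + 1) (hf : ∀ a, Through h (d a) (f a)) (E : Set (MvPolynomial (Fin (n + 1)) (MvPolynomial (Fin M) k)))
    (Δ : MvPolynomial (Σ a, ι a) (MvPolynomial (Fin M) k)) (hΔ : Δ ≠ 0) (z : ℕ → ℕ) (hz : z 0 = 1) (b B₂ κ : ℕ) (B₀ : ℝ)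
    (Fm : ℕ → Type) [∀ m, Field (Fm m)] [∀ m, Algebra k (Fm m)] [∀ m, Finite (Fm m)] (hF : ∀ m, 1 ≤ m → Module.finrank k (Fm m) = m)
    (hW : ∀ m, 1 ≤ m → ∀ x : Fin M → Fm m, map (ev x) Δ ≠ 0 → |(zeros (ev x) E : ℝ) - ∑ j ∈ range (D + r + 1), w j * (Nat.card (Fm m) : ℝ) ^ j| ≤
        C₀ * Real.sqrt (Nat.card (Fm m)) ^ (2 * r + D - 1))
    (hZ1 : ∀ m, 1 ≤ m → ∀ x : Fin M → Fm m, map (ev x) Δ ≠ 0 →
      (zeros (ev x) (E ∪ Set.range h) : ℝ) ≤ C₁ * Real.sqrt (Nat.card (Fm m)) ^ D)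
    (hZ : ∀ m, 1 ≤ m → ∀ l, 1 ≤ l → l ≤ ν →
      |∑ᶠ x : {x : Fin M → Fm m // map (ev x) Δ ≠ 0}, (zeros (ev x.1) (E ∪ Set.range h) : ℝ) ^ l -
        z l * ((Nat.card (Fm m) : ℝ) ^ M * Real.sqrt (Nat.card (Fm m)) ^ (D * l))| ≤
        C₁ * ((Nat.card (Fm m) : ℝ) ^ M * Real.sqrt (Nat.card (Fm m)) ^ (D * l)) / Real.sqrt (Nat.card (Fm m))) :
    ∃ C : ℝ, ∀ N : ℕ, (Set.ncard {c : (Σ a, ι a) → MvPolynomial (Fin M) k | (∀ s, (c s).totalDegree ≤ N) ∧
        Exceptional Fm w D r b ν i E f Δ (∑ l ∈ range (ν + 1), TT w D r ν i l * z l) B₂ (B₀ * (N + 1) ^ κ) c} : ℝ) *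
          (Nat.card k : ℝ) ^ (M * ((N + 1) / 2)) ≤
      C * (N + 1) * Set.ncard {c : (Σ a, ι a) → MvPolynomial (Fin M) k | ∀ s, (c s).totalDegree ≤ N} := by
  classical
  have : Fintype k := Fintype.ofFinite k
  have : ∀ m, Fintype (Fm m) := fun m => Fintype.ofFinite _
  obtain ⟨B, hB0, hB⟩ := generic_count Δ hΔ
  have key := core D hD r hr hA w hw C₀ (|C₁| + B) ν hν i hM hh hd hf E Δ z b B₂ κ B₀ Fm hF hW
    (fun m hm x hx => (hZ1 m hm x hx).trans (mul_le_mul_of_nonneg_right (by linarith [le_abs_self C₁]) (by positivity)))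
    (fun m hm l hl => by
      have hp0 : (0 : ℝ) < Nat.card (Fm m) := by exact_mod_cast Nat.card_pos
      have hs0 : 0 < Real.sqrt (Nat.card (Fm m)) := Real.sqrt_pos.2 hp0
      rw [sum_if Δ fun x => ((zeros (ev x) (E ∪ Set.range h) : ℝ) / Real.sqrt (Nat.card (Fm m)) ^ D) ^ l]
      rcases Nat.eq_zero_or_pos l with rfl | hl0
      · simp only [pow_zero]
        rw [hz, Nat.cast_one, one_mul]
        refine (hB (Fm m)).trans (div_le_div_of_nonneg_right (mul_le_mul_of_nonneg_right ?_ (by positivity)) hs0.le)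
        linarith [abs_nonneg C₁]
      · have h1 := hZ m hm l hl0 hl
        obtain ⟨u, hu⟩ : ∃ u : ℝ, u = Real.sqrt (Nat.card (Fm m)) ^ (D * l) := ⟨_, rfl⟩
        have hu0 : 0 < u := by
          rw [hu]
          positivity
        rw [← hu] at h1
        obtain ⟨Y, hY⟩ : ∃ Y : ℝ, Y = ∑ᶠ x : {x : Fin M → Fm m // map (ev x) Δ ≠ 0}, (zeros (ev x.1) (E ∪ Set.range h) : ℝ) ^ l := ⟨_, rfl⟩
        rw [← hY] at h1
        have h3 : ∑ᶠ x : {x : Fin M → Fm m // map (ev x) Δ ≠ 0},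
            ((zeros (ev x.1) (E ∪ Set.range h) : ℝ) / Real.sqrt (Nat.card (Fm m)) ^ D) ^ l = Y / u := by
          rw [hY, finsum_eq_sum_of_fintype, finsum_eq_sum_of_fintype, sum_div]
          refine sum_congr rfl fun x _ => ?_
          rw [div_pow, ← pow_mul, hu]
        rw [h3]
        have h4 : Y / u - z l * (Nat.card (Fm m) : ℝ) ^ M = (Y - z l * ((Nat.card (Fm m) : ℝ) ^ M * u)) / u := by
          field_simp
        rw [h4, abs_div, abs_of_pos hu0, div_le_iff₀ hu0]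
        refine h1.trans ?_
        have h5 : C₁ ≤ |C₁| + B := by linarith [le_abs_self C₁]
        calc C₁ * ((Nat.card (Fm m) : ℝ) ^ M * u) / Real.sqrt (Nat.card (Fm m)) ≤
            (|C₁| + B) * ((Nat.card (Fm m) : ℝ) ^ M * u) / Real.sqrt (Nat.card (Fm m)) :=
              div_le_div_of_nonneg_right (mul_le_mul_of_nonneg_right h5 (by positivity)) hs0.le
          _ = _ := by ring)
  obtain ⟨C, hC⟩ := key
  refine ⟨C, fun N => ?_⟩
  rw [ncard_box, ncard_box']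
  exact hC N

/-- **All complete intersections through linear subspaces.** -/
theorem almost_lin {k : Type} [Field k] [Finite k] {M : ℕ} {A : Type} [Fintype A] {ι : A → Type} [∀ a, Fintype (ι a)]
    (D : ℕ) (hD : 1 ≤ D) (r : ℕ) (hr : 1 ≤ r) (hA : Fintype.card A = r)
    (ν : ℕ) (hν : 1 ≤ ν) (i : ℕ) (hM : 1 ≤ M) {d : A → ℕ} {s m' : ℕ} (hm' : 2 * m' ≤ D)
    (l : Fin s → Fin (D + r - m') → Fin (D + r + 1) → MvPolynomial (Fin M) k)
    {f : (a : A) → ι a → MvPolynomial (Fin (D + r + 1)) (MvPolynomial (Fin M) k)}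
    (hd : ∀ a, s + 2 * ν ≤ d a + 1) (hf : ∀ a, Contains l (d a) (f a))
    (Δ : MvPolynomial (Σ a, ι a) (MvPolynomial (Fin M) k)) (hΔ : Δ ≠ 0) (b B₂ κ : ℕ) (B₀ : ℝ)
    (Fm : ℕ → Type) [∀ m, Field (Fm m)] [∀ m, Algebra k (Fm m)] [∀ m, Finite (Fm m)] (hF : ∀ m, 1 ≤ m → Module.finrank k (Fm m) = m)
    (hl : ∀ m, 1 ≤ m → ∀ x : Fin M → Fm m, map (ev x) Δ ≠ 0 → Subspaces x l) :
    ∃ C : ℝ, ∀ N : ℕ, (Set.ncard {c : (Σ a, ι a) → MvPolynomial (Fin M) k | (∀ s, (c s).totalDegree ≤ N) ∧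
        Exceptional Fm (fun _ => 1) D r b ν i ∅ f Δ (∑ j ∈ range (ν + 1), TT (fun _ => 1) D r ν i j * (if 2 * m' = D then s else 0) ^ j)
          B₂ (B₀ * (N + 1) ^ κ) c} : ℝ) * (Nat.card k : ℝ) ^ (M * ((N + 1) / 2)) ≤
      C * (N + 1) * Set.ncard {c : (Σ a, ι a) → MvPolynomial (Fin M) k | ∀ s, (c s).totalDegree ≤ N} := by
  classical
  have : Fintype k := Fintype.ofFinite k
  have : ∀ m, Fintype (Fm m) := fun m => Fintype.ofFinite _
  obtain ⟨B, hB0, hB⟩ := generic_count Δ hΔ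
  obtain ⟨z, hz⟩ : ∃ z : ℕ, z = if 2 * m' = D then s else 0 := ⟨_, rfl⟩
  rw [← hz]
  obtain ⟨c₀, hc₀⟩ : ∃ c₀ : ℝ, c₀ = 3 * s + 2 * s ^ 2 := ⟨_, rfl⟩
  have hc₀0 : 0 ≤ c₀ := by
    rw [hc₀]
    positivity
  have hzs : (z : ℝ) ≤ s := by
    rw [hz]
    split_ifs
    · exact le_rfl
    · push_cast
      exact Nat.cast_nonneg _
  obtain ⟨C₂, hC₂⟩ : ∃ C₂ : ℝ, C₂ = c₀ * ν * (1 + s + c₀) ^ ν := ⟨_, rfl⟩
  have hC₂0 : 0 ≤ C₂ := by
    rw [hC₂]
    positivity
  obtain ⟨C₃, hC₃⟩ : ∃ C₃ : ℝ, C₃ = C₂ * (1 + B) + (1 + s) ^ ν * B := ⟨_, rfl⟩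
  have hC₃0 : 0 ≤ C₃ := by
    rw [hC₃]
    positivity
  -- one point
  have hpt : ∀ m, 1 ≤ m → ∀ x : Fin M → Fm m, map (ev x) Δ ≠ 0 →
      |(zeros (ev x) (∅ ∪ Set.range (pforms l)) : ℝ) / Real.sqrt (Nat.card (Fm m)) ^ D - z| ≤ c₀ / Real.sqrt (Nat.card (Fm m)) := by
    intro m hm x hx
    have h1 := subspaces_count (m := m') x l (hl m hm x hx) (by omega)
    rw [← Nat.card_eq_fintype_card] at h1
    obtain ⟨u, hu⟩ : ∃ u : ℝ, u = Real.sqrt (Nat.card (Fm m)) := ⟨_, rfl⟩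
    have hp1 : (1 : ℝ) ≤ Nat.card (Fm m) := by exact_mod_cast Nat.card_pos
    have hu1 : 1 ≤ u := by
      rw [hu]
      exact Real.one_le_sqrt.2 hp1
    have hu0 : 0 < u := by linarith
    have hup : (Nat.card (Fm m) : ℝ) = u ^ 2 := by
      rw [hu, Real.sq_sqrt (by linarith)]
    rw [hup] at h1
    rw [← hu]
    obtain ⟨Z, hZ⟩ : ∃ Z : ℝ, Z = (zeros (ev x) (∅ ∪ Set.range (pforms l)) : ℝ) := ⟨_, rfl⟩
    have hZ0 : 0 ≤ Z := by
      rw [hZ]
      exact Nat.cast_nonneg _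
    rw [← hZ] at h1 ⊢
    have hs0 : (0 : ℝ) ≤ s := Nat.cast_nonneg _
    by_cases hD2 : 2 * m' = D
    · have h2 : z = s := by rw [hz, if_pos hD2]
      rw [h2]
      have h3 : (u ^ 2) ^ m' = u ^ D := by rw [← pow_mul, hD2]
      rw [h3] at h1
      have huD : 0 < u ^ D := pow_pos hu0 D
      have h4 : Z / u ^ D - s = (Z - s * u ^ D) / u ^ D := by
        field_simp
      rw [h4, abs_div, abs_of_pos huD, div_le_iff₀ huD]
      refine h1.trans ?_
      have h5 : u ^ D / u ^ 2 ≤ u ^ D / u := by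
        refine div_le_div_of_nonneg_left huD.le hu0 ?_
        nlinarith
      have h6 : 2 * (s : ℝ) + 2 * s ^ 2 ≤ c₀ := by
        rw [hc₀]
        linarith
      calc (2 * (s : ℝ) + 2 * s ^ 2) * (u ^ D / u ^ 2) ≤ c₀ * (u ^ D / u) := mul_le_mul h6 h5 (by positivity) hc₀0
        _ = _ := by ring
    · have h2 : z = 0 := by rw [hz, if_neg hD2]
      rw [h2]
      have h3 : (u ^ 2) ^ m' * u ≤ u ^ D := by
        rw [← pow_mul, ← pow_succ]
        exact pow_le_pow_right₀ hu1 (by omega)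
      have huD : 0 < u ^ D := pow_pos hu0 D
      have hum : 0 < (u ^ 2) ^ m' := by positivity
      have h4 : (u ^ 2) ^ m' / u ^ 2 ≤ (u ^ 2) ^ m' := div_le_self hum.le (by nlinarith)
      have h5 : Z ≤ c₀ * (u ^ 2) ^ m' := by
        have h6 := (abs_le.1 h1).2
        have h7 : (2 * (s : ℝ) + 2 * s ^ 2) * ((u ^ 2) ^ m' / u ^ 2) ≤ (2 * (s : ℝ) + 2 * s ^ 2) * (u ^ 2) ^ m' :=
          mul_le_mul_of_nonneg_left h4 (by positivity)
        rw [hc₀]
        linarith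
      rw [Nat.cast_zero, sub_zero, abs_of_nonneg (by positivity), div_le_div_iff₀ huD hu0]
      calc Z * u ≤ c₀ * (u ^ 2) ^ m' * u := mul_le_mul_of_nonneg_right h5 hu0.le
        _ = c₀ * ((u ^ 2) ^ m' * u) := by ring
        _ ≤ c₀ * u ^ D := mul_le_mul_of_nonneg_left h3 hc₀0
  have hY1 : ∀ m, 1 ≤ m → ∀ x : Fin M → Fm m, map (ev x) Δ ≠ 0 →
      (zeros (ev x) (∅ ∪ Set.range (pforms l)) : ℝ) / Real.sqrt (Nat.card (Fm m)) ^ D ≤ s + c₀ := by
    intro m hm x hx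
    have h1 := (abs_le.1 (hpt m hm x hx)).2
    have hp1 : (1 : ℝ) ≤ Nat.card (Fm m) := by exact_mod_cast Nat.card_pos
    have h2 : c₀ / Real.sqrt (Nat.card (Fm m)) ≤ c₀ := div_le_self hc₀0 (Real.one_le_sqrt.2 hp1)
    linarith
  have key := almost D hD r hr hA (fun _ => 1) rfl 0 (max (s + c₀) C₃) ν hν i hM (h := pforms l) (e := fun _ => s) (d := d) (f := f)
    (fun φ => pforms_hom l φ) (fun _ a => hd a) (fun a => (hf a).through) ∅ Δ hΔ (fun j => z ^ j) (pow_zero _) b B₂ κ B₀ Fm hF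
    (fun m hm x _ => by
      have h1 : (zeros (ev x) (∅ : Set (MvPolynomial (Fin (D + r + 1)) (MvPolynomial (Fin M) k))) : ℝ) =
          ∑ j ∈ range (D + r + 1), (Nat.card (Fm m) : ℝ) ^ j := by
        unfold zeros
        have h2 : Nat.card {P : ℙ (Fm m) (Fin (D + r + 1) → Fm m) //
            ∀ G ∈ (∅ : Set (MvPolynomial (Fin (D + r + 1)) (MvPolynomial (Fin M) k))), eval₂ (ev x) P.rep G = 0} =
            Nat.card (ℙ (Fm m) (Fin (D + r + 1) → Fm m)) :=
          Nat.card_congr (Equiv.subtypeUnivEquiv fun P G hG => absurd hG (Set.notMem_empty _))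
        rw [h2, Projectivization.card_of_finrank (Fm m) _ (by rw [Module.finrank_fin_fun])]
        push_cast
        rfl
      rw [h1]
      simp)
    (fun m hm x hx => by
      have hp0 : (0 : ℝ) < Nat.card (Fm m) := by exact_mod_cast Nat.card_pos
      have hs0 : 0 < Real.sqrt (Nat.card (Fm m)) ^ D := pow_pos (Real.sqrt_pos.2 hp0) D
      have h1 := hY1 m hm x hx
      rw [div_le_iff₀ hs0] at h1
      exact h1.trans (mul_le_mul_of_nonneg_right (le_max_left _ _) hs0.le))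
    (fun m hm j hj1 hj2 => by
      have hp1 : (1 : ℝ) ≤ Nat.card (Fm m) := by exact_mod_cast Nat.card_pos
      obtain ⟨u, hu⟩ : ∃ u : ℝ, u = Real.sqrt (Nat.card (Fm m)) := ⟨_, rfl⟩
      have hu1 : 1 ≤ u := by
        rw [hu]
        exact Real.one_le_sqrt.2 hp1
      have hu0 : 0 < u := by linarith
      obtain ⟨q, hq⟩ : ∃ q : ℝ, q = Nat.card (Fm m) := ⟨_, rfl⟩
      have hq0 : 0 < q := by linarith
      have h1 := hB (Fm m)
      have h2 : ∀ x : {x : Fin M → Fm m // map (ev x) Δ ≠ 0},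
          |(zeros (ev x.1) (∅ ∪ Set.range (pforms l)) : ℝ) ^ j - (z : ℝ) ^ j * u ^ (D * j)| ≤ C₂ * u ^ (D * j) / u := by
        intro x
        obtain ⟨Y, hY⟩ : ∃ Y : ℝ, Y = (zeros (ev x.1) (∅ ∪ Set.range (pforms l)) : ℝ) / u ^ D := ⟨_, rfl⟩
        have hY0 : 0 ≤ Y := by
          rw [hY]
          positivity
        have h3 : (zeros (ev x.1) (∅ ∪ Set.range (pforms l)) : ℝ) = Y * u ^ D := by
          rw [hY, div_mul_cancel₀ _ (pow_pos hu0 D).ne']
        have h4 := hpt m hm x.1 x.2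
        have h5 := hY1 m hm x.1 x.2
        rw [← hu, ← hY] at h4 h5
        rw [h3, mul_pow, ← pow_mul, ← sub_mul, abs_mul, abs_of_pos (pow_pos hu0 (D * j))]
        have h6 := abs_pow_sub_pow_le Y (z : ℝ) j
        have h7 : max |Y| |(z : ℝ)| ^ (j - 1) ≤ (1 + s + c₀) ^ ν := by
          have h8 : max |Y| |(z : ℝ)| ≤ 1 + s + c₀ := by
            rw [abs_of_nonneg hY0, abs_of_nonneg (Nat.cast_nonneg _)]
            exact max_le (by linarith) (by linarith)
          have h9 : (1 : ℝ) ≤ 1 + s + c₀ := by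
            have : (0 : ℝ) ≤ s := Nat.cast_nonneg _
            linarith
          exact (pow_le_pow_left₀ (le_max_of_le_left (abs_nonneg _)) h8 _).trans (pow_le_pow_right₀ h9 (by omega))
        have h8 : |Y ^ j - (z : ℝ) ^ j| ≤ C₂ / u := by
          refine h6.trans ?_
          have h9 : (j : ℝ) ≤ ν := by exact_mod_cast hj2
          calc |Y - z| * j * max |Y| |(z : ℝ)| ^ (j - 1) ≤ (c₀ / u) * ν * (1 + s + c₀) ^ ν :=
                mul_le_mul (mul_le_mul h4 h9 (Nat.cast_nonneg _) (by positivity)) h7 (by positivity) (by positivity)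
            _ = C₂ / u := by
              rw [hC₂]
              ring
        calc |Y ^ j - (z : ℝ) ^ j| * u ^ (D * j) ≤ C₂ / u * u ^ (D * j) := mul_le_mul_of_nonneg_right h8 (by positivity)
          _ = _ := by ring
      rw [finsum_eq_sum_of_fintype] at h1 ⊢
      rw [sum_const, nsmul_eq_mul, mul_one] at h1
      obtain ⟨G, hG⟩ : ∃ G : ℝ, G = ((univ : Finset {x : Fin M → Fm m // map (ev x) Δ ≠ 0}).card : ℝ) := ⟨_, rfl⟩
      rw [← hG, ← hu, ← hq] at h1
      rw [← hu, ← hq]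
      have hG0 : 0 ≤ G := by
        rw [hG]
        exact Nat.cast_nonneg _
      have hG1 : G ≤ (1 + B) * q ^ M := by
        have h3 := (abs_le.1 h1).2
        have h4 : B * q ^ M / u ≤ B * q ^ M := div_le_self (by positivity) hu1
        linarith
      have h3 : ∑ x : {x : Fin M → Fm m // map (ev x) Δ ≠ 0}, (zeros (ev x.1) (∅ ∪ Set.range (pforms l)) : ℝ) ^ j -
          ((z ^ j : ℕ) : ℝ) * (q ^ M * u ^ (D * j)) =
          ∑ x : {x : Fin M → Fm m // map (ev x) Δ ≠ 0}, ((zeros (ev x.1) (∅ ∪ Set.range (pforms l)) : ℝ) ^ j - (z : ℝ) ^ j * u ^ (D * j)) +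
            (z : ℝ) ^ j * u ^ (D * j) * (G - q ^ M) := by
        rw [sum_sub_distrib, sum_const, nsmul_eq_mul, ← hG]
        push_cast
        ring
      rw [h3]
      refine (abs_add_le _ _).trans ?_
      have h4 : |∑ x : {x : Fin M → Fm m // map (ev x) Δ ≠ 0}, ((zeros (ev x.1) (∅ ∪ Set.range (pforms l)) : ℝ) ^ j -
          (z : ℝ) ^ j * u ^ (D * j))| ≤ (1 + B) * q ^ M * (C₂ * u ^ (D * j) / u) := by
        refine (abs_sum_le_sum_abs _ _).trans ((sum_le_sum fun x _ => h2 x).trans ?_)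
        rw [sum_const, nsmul_eq_mul, ← hG]
        exact mul_le_mul_of_nonneg_right hG1 (by positivity)
      have h5 : |(z : ℝ) ^ j * u ^ (D * j) * (G - q ^ M)| ≤ (1 + s) ^ ν * u ^ (D * j) * (B * q ^ M / u) := by
        rw [abs_mul, abs_of_nonneg (by positivity)]
        refine mul_le_mul (mul_le_mul_of_nonneg_right ?_ (by positivity)) h1 (abs_nonneg _) (by positivity)
        have h6 : (1 : ℝ) ≤ 1 + s := by
          have : (0 : ℝ) ≤ s := Nat.cast_nonneg _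
          linarith
        exact (pow_le_pow_left₀ (Nat.cast_nonneg _) (by linarith) j).trans (pow_le_pow_right₀ h6 hj2)
      have h6 : C₃ * (q ^ M * u ^ (D * j)) / u ≤ max (s + c₀) C₃ * (q ^ M * u ^ (D * j)) / u :=
        div_le_div_of_nonneg_right (mul_le_mul_of_nonneg_right (le_max_right _ _) (by positivity)) hu0.le
      refine le_trans (le_trans (add_le_add h4 h5) (le_of_eq ?_)) h6
      rw [hC₃]
      ring)
  exact key

end Q282AE
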