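import Pool.Agent.Q282.AE.Core
import Pool.Agent.Q282.RH.Union
import Mathlib.LinearAlgebra.Projectivization.Cardinality

/-!
# Unions of linear subspaces over finite fields
-/

set_option autoImplicit false
set_option linter.unusedSectionVars false

namespace Q282AE

open Finset MvPolynomial
open scoped LinearAlgebra.Projectivization
open Q282GH (zeros Through)

section

variable {F : Type} [Field F] [Fintype F] [DecidableEq F] {n : ℕ}

noncomputable instance instPt : Fintype (ℙ F (Fin (n + 1) → F)) := Fintype.ofFinite _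

/-- points of projective space and nonzero vectors -/
lemma proj_count (φ : (Fin (n + 1) → F) → Prop) [DecidablePred φ] (hφ : ∀ (t : F) x, t ≠ 0 → φ x → φ (t • x)) :
    (univ.filter fun x : Fin (n + 1) → F => x ≠ 0 ∧ φ x).card =
      (Fintype.card F - 1) * (univ.filter fun P : ℙ F (Fin (n + 1) → F) => φ P.rep).card := by
  classical
  rw [← Fintype.card_units, ← card_univ (α := Fˣ), ← card_product]
  symm
  refine card_bij (fun z _ => (z.1 : F) • z.2.rep) ?_ ?_ ?_
  · rintro ⟨u, P⟩ hz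
    rw [mem_product, mem_filter] at hz
    rw [mem_filter]
    refine ⟨mem_univ _, ?_, hφ _ _ u.ne_zero hz.2.2⟩
    exact smul_ne_zero u.ne_zero P.rep_nonzero
  · rintro ⟨u, P⟩ _ ⟨u', P'⟩ _ h
    simp only at h
    have hP : P = P' := by
      rw [← P.mk_rep, ← P'.mk_rep, Projectivization.mk_eq_mk_iff']
      refine ⟨(u : F)⁻¹ * u', ?_⟩
      rw [mul_smul, ← h, smul_smul, inv_mul_cancel₀ u.ne_zero, one_smul]
    subst hP
    have h1 : ((u : F) - u') • P.rep = 0 := by
      rw [sub_smul, h, sub_self]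
    rcases smul_eq_zero.1 h1 with h2 | h2
    · rw [Prod.mk.injEq]
      exact ⟨Units.ext (sub_eq_zero.1 h2), rfl⟩
    · exact absurd h2 P.rep_nonzero
  · intro x hx
    rw [mem_filter] at hx
    obtain ⟨a, ha⟩ := Projectivization.exists_smul_eq_mk_rep F x hx.2.1
    refine ⟨(a⁻¹, Projectivization.mk F x hx.2.1), ?_, ?_⟩
    · rw [mem_product, mem_filter]
      refine ⟨mem_univ _, mem_univ _, ?_⟩
      rw [← ha]
      exact hφ _ _ a.ne_zero hx.2.2
    · show ((a⁻¹ : Fˣ) : F) • (Projectivization.mk F x hx.2.1).rep = x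
      rw [← ha, Units.smul_def, smul_smul, Units.inv_mul, one_smul]

open Classical in
lemma sub_count (W : Submodule F (Fin (n + 1) → F)) :
    (Fintype.card F - 1) * (univ.filter fun P : ℙ F (Fin (n + 1) → F) => P.rep ∈ W).card + 1 = Fintype.card F ^ Module.finrank F W := by
  rw [← proj_count (fun x => x ∈ W) fun t x _ hx => W.smul_mem t hx]
  have h1 : (univ.filter fun x : Fin (n + 1) → F => x ≠ 0 ∧ x ∈ W).card + 1 = (univ.filter fun x : Fin (n + 1) → F => x ∈ W).card := by
    have h2 : (univ.filter fun x : Fin (n + 1) → F => x ≠ 0 ∧ x ∈ W) = (univ.filter fun x : Fin (n + 1) → F => x ∈ W).erase 0 := by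
      ext x
      simp only [mem_filter, mem_univ, true_and, mem_erase]
    have h3 : (0 : Fin (n + 1) → F) ∈ univ.filter fun x : Fin (n + 1) → F => x ∈ W := mem_filter.2 ⟨mem_univ _, W.zero_mem⟩
    rw [h2, card_erase_add_one h3]
  rw [h1, ← Fintype.card_subtype]
  have h2 := Module.card_eq_pow_finrank (K := F) (V := W)
  exact h2

/-- **The number of the points of a union of linear subspaces.** -/
theorem union_count {s m : ℕ} (W : Fin s → Submodule F (Fin (n + 1) → F)) (hW : ∀ i, Module.finrank F (W i) = m + 1)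
    (hne : ∀ i j, i ≠ j → W i ≠ W j) :
    |(Nat.card {P : ℙ F (Fin (n + 1) → F) // ∃ i, P.rep ∈ W i} : ℝ) - s * (Fintype.card F : ℝ) ^ m| ≤
      (2 * s + 2 * s ^ 2) * ((Fintype.card F : ℝ) ^ m / Fintype.card F) := by
  classical
  obtain ⟨q, hq⟩ : ∃ q : ℕ, q = Fintype.card F := ⟨_, rfl⟩
  have hq2 : 2 ≤ q := by
    rw [hq]
    exact Fintype.one_lt_card
  obtain ⟨B, hB⟩ : ∃ B : Fin s → Finset (ℙ F (Fin (n + 1) → F)), B = fun i => univ.filter fun P => P.rep ∈ W i := ⟨_, rfl⟩
  have hcard : Nat.card {P : ℙ F (Fin (n + 1) → F) // ∃ i, P.rep ∈ W i} = (univ.biUnion B).card := by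
    rw [Nat.card_eq_fintype_card, Fintype.card_subtype]
    congr 1
    ext P
    rw [hB]
    simp only [mem_filter, mem_univ, true_and, mem_biUnion]
  obtain ⟨a, ha⟩ : ∃ a : ℕ, (q - 1) * a + 1 = q ^ (m + 1) := by
    have h1 : (q - 1) ∣ q ^ (m + 1) - 1 := by
      have := Nat.sub_dvd_pow_sub_pow q 1 (m + 1)
      rwa [one_pow] at this
    obtain ⟨a, ha⟩ := h1
    exact ⟨a, by rw [← ha]; exact Nat.sub_add_cancel (Nat.one_le_pow _ _ (by omega))⟩
  obtain ⟨b, hb⟩ : ∃ b : ℕ, (q - 1) * b + 1 = q ^ m := by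
    have h1 : (q - 1) ∣ q ^ m - 1 := by
      have := Nat.sub_dvd_pow_sub_pow q 1 m
      rwa [one_pow] at this
    obtain ⟨a, ha⟩ := h1
    exact ⟨a, by rw [← ha]; exact Nat.sub_add_cancel (Nat.one_le_pow _ _ (by omega))⟩
  have h1 : ∀ i, (B i).card = a := by
    intro i
    have h2 := sub_count (W i)
    have h3 : B i = univ.filter fun P : ℙ F (Fin (n + 1) → F) => P.rep ∈ W i := by
      rw [hB]
    rw [← h3, hW i, ← hq, ← ha] at h2
    exact Nat.eq_of_mul_eq_mul_left (by omega : 0 < q - 1) (by omega)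
  have h2 : ∀ i j, i ≠ j → (B i ∩ B j).card ≤ b := by
    intro i j hij
    have h3 := sub_count (W i ⊓ W j)
    have h4 : B i ∩ B j = univ.filter fun P : ℙ F (Fin (n + 1) → F) => P.rep ∈ W i ⊓ W j := by
      ext P
      rw [hB]
      simp only [mem_filter, mem_univ, true_and, mem_inter, Submodule.mem_inf]
    rw [← h4, ← hq] at h3
    have h5 : W i ⊓ W j < W i := by
      refine lt_of_le_of_ne inf_le_left fun h6 => hne i j hij ?_
      have h7 : W i ≤ W j := by
        rw [← h6]
        exact inf_le_right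
      exact Submodule.eq_of_le_of_finrank_eq h7 (by rw [hW, hW])
    have h6 := Submodule.finrank_lt_finrank_of_lt h5
    rw [hW i] at h6
    have h7 : q ^ Module.finrank F ↥(W i ⊓ W j) ≤ q ^ m := Nat.pow_le_pow_right (by omega) (by omega)
    rw [← h3, ← hb] at h7
    exact Nat.le_of_mul_le_mul_left (by omega) (by omega : 0 < q - 1)
  obtain ⟨h3, h4⟩ := Q282RH.union_bounds B a b h1 h2
  rw [hcard, ← hq]
  have hqR : (2 : ℝ) ≤ q := by exact_mod_cast hq2
  have hq1 : ((q - 1 : ℕ) : ℝ) = q - 1 := by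
    rw [Nat.cast_sub (by omega)]
    norm_num
  have haR : ((q : ℝ) - 1) * a + 1 = (q : ℝ) ^ (m + 1) := by
    rw [← hq1]
    exact_mod_cast ha
  have hbR : ((q : ℝ) - 1) * b + 1 = (q : ℝ) ^ m := by
    rw [← hq1]
    exact_mod_cast hb
  have hq0 : (0 : ℝ) < q := by linarith
  have hm1 : (1 : ℝ) ≤ (q : ℝ) ^ m := one_le_pow₀ (by linarith)
  have hb2 : (b : ℝ) ≤ 2 * ((q : ℝ) ^ m / q) := by
    have h5 : ((q : ℝ) - 1) * b ≤ (q : ℝ) ^ m := by linarith
    have h6 : (q : ℝ) / 2 * b ≤ (q : ℝ) ^ m := by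
      refine le_trans (mul_le_mul_of_nonneg_right (by linarith) (Nat.cast_nonneg _)) h5
    rw [← mul_div_assoc, le_div_iff₀ hq0]
    linarith
  have hab : (a : ℝ) = (q : ℝ) ^ m + b := by
    have h5 : ((q : ℝ) - 1) * a = ((q : ℝ) - 1) * ((q : ℝ) ^ m + b) := by
      rw [pow_succ] at haR
      linear_combination haR - hbR
    exact mul_left_cancel₀ (by linarith) h5
  have h3R : ((univ.biUnion B).card : ℝ) ≤ s * a := by exact_mod_cast h3
  have h4R : (s : ℝ) * a ≤ (univ.biUnion B).card + (s : ℝ) ^ 2 * b := by exact_mod_cast h4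
  rw [hab] at h3R h4R
  have hb0 : (0 : ℝ) ≤ b := Nat.cast_nonneg _
  have hs0 : (0 : ℝ) ≤ s := Nat.cast_nonneg _
  have h7 : (s : ℝ) * b ≤ s * (2 * ((q : ℝ) ^ m / q)) := mul_le_mul_of_nonneg_left hb2 hs0
  have h8 : (s : ℝ) ^ 2 * b ≤ s ^ 2 * (2 * ((q : ℝ) ^ m / q)) := mul_le_mul_of_nonneg_left hb2 (sq_nonneg _)
  have h9 : (0 : ℝ) ≤ s ^ 2 * (2 * ((q : ℝ) ^ m / q)) := by positivity
  have h10 : (0 : ℝ) ≤ s * (2 * ((q : ℝ) ^ m / q)) := by positivity
  rw [abs_le]
  constructor
  · nlinarith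
  · nlinarith

end

section

variable {k : Type} [Field k] {M n : ℕ}

/-- the linear form with coefficients `v` -/
noncomputable def lform (v : Fin (n + 1) → MvPolynomial (Fin M) k) : MvPolynomial (Fin (n + 1)) (MvPolynomial (Fin M) k) := ∑ j, C (v j) * X j

/-- the products of one equation of each of the linear subspaces -/
noncomputable def pforms {s c : ℕ} (l : Fin s → Fin c → Fin (n + 1) → MvPolynomial (Fin M) k) (φ : Fin s → Fin c) :
    MvPolynomial (Fin (n + 1)) (MvPolynomial (Fin M) k) := ∏ i, lform (l i (φ i))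

lemma lform_hom (v : Fin (n + 1) → MvPolynomial (Fin M) k) : (lform v).IsHomogeneous 1 := by
  unfold lform
  exact IsHomogeneous.sum _ _ _ fun i _ => isHomogeneous_C_mul_X _ _

lemma pforms_hom {s c : ℕ} (l : Fin s → Fin c → Fin (n + 1) → MvPolynomial (Fin M) k) (φ : Fin s → Fin c) : (pforms l φ).IsHomogeneous s := by
  unfold pforms
  have := IsHomogeneous.prod univ (fun i => lform (l i (φ i))) (fun _ => 1) (fun i _ => lform_hom _)
  rw [sum_const, card_univ, Fintype.card_fin, smul_eq_mul, mul_one] at this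
  exact this

/-- the forms `f k` have degree `d` and lie in the ideals of the linear subspaces `l i = 0`, and every form of degree `d`
in all these ideals is a combination of the `f k` -/
def Contains {s c : ℕ} (l : Fin s → Fin c → Fin (n + 1) → MvPolynomial (Fin M) k) (d : ℕ) {ι : Type} [Fintype ι]
    (f : ι → MvPolynomial (Fin (n + 1)) (MvPolynomial (Fin M) k)) : Prop :=
  (∀ j, (f j).IsHomogeneous d ∧ ∀ i, f j ∈ Ideal.span (Set.range fun a => lform (l i a))) ∧
  ∀ G : MvPolynomial (Fin (n + 1)) (MvPolynomial (Fin M) k), G.IsHomogeneous d → (∀ i, G ∈ Ideal.span (Set.range fun a => lform (l i a))) →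
    ∃ c : ι → MvPolynomial (Fin M) k, G = ∑ j, C (c j) * f j

lemma prod_mem_pforms {s c : ℕ} (l : Fin s → Fin c → Fin (n + 1) → MvPolynomial (Fin M) k)
    (g : Fin s → MvPolynomial (Fin (n + 1)) (MvPolynomial (Fin M) k))
    (hg : ∀ i, g i ∈ Ideal.span (Set.range fun j => lform (l i j))) : ∏ i, g i ∈ Ideal.span (Set.range (pforms l)) := by
  have h1 : ∏ i, g i ∈ ∏ i, Ideal.span (Set.range fun j => lform (l i j)) := Ideal.prod_mem_prod fun i _ => hg i
  rw [Ideal.prod_span] at h1
  refine Ideal.span_mono ?_ h1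
  intro F hF
  rw [Set.mem_finsetProd] at hF
  obtain ⟨G, hG, rfl⟩ := hF
  have h2 : ∀ i, ∃ j, lform (l i j) = G i := fun i => hG (mem_univ i)
  choose φ hφ using h2
  refine ⟨φ, ?_⟩
  unfold pforms
  exact prod_congr rfl fun i _ => hφ i

lemma Contains.through {s c d : ℕ} {l : Fin s → Fin c → Fin (n + 1) → MvPolynomial (Fin M) k} {ι : Type} [Fintype ι]
    {f : ι → MvPolynomial (Fin (n + 1)) (MvPolynomial (Fin M) k)} (hf : Contains l d f) : Through (pforms l) d f where
  hom j := (hf.1 j).1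
  mem j := by
    refine ⟨s, ?_⟩
    have h1 := prod_mem_pforms l (fun _ => f j) (hf.1 j).2
    rw [prod_const, card_univ, Fintype.card_fin] at h1
    exact h1
  gen G hG hG' := by
    refine hf.2 G hG fun i => ?_
    have h1 : Ideal.span (Set.range (pforms l)) ≤ Ideal.span (Set.range fun j => lform (l i j)) := by
      rw [Ideal.span_le]
      rintro _ ⟨φ, rfl⟩
      unfold pforms
      rw [← mul_prod_erase univ _ (mem_univ i)]
      exact Ideal.mul_mem_right _ _ (Ideal.subset_span ⟨φ i, rfl⟩)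
    exact h1 hG'

variable {F : Type} [Field F] [Algebra k F]

/-- the linear equations are independent at the point `x`, and the linear subspaces are different -/
def Subspaces (x : Fin M → F) {s c : ℕ} (l : Fin s → Fin c → Fin (n + 1) → MvPolynomial (Fin M) k) : Prop :=
  (∀ i, LinearIndependent F fun a j => ev x (l i a j)) ∧
  ∀ i i', i ≠ i' → ∃ y : Fin (n + 1) → F, ¬ ((∀ a, ∑ j, ev x (l i a j) * y j = 0) ↔ ∀ a, ∑ j, ev x (l i' a j) * y j = 0)

/-- the common zeros of the rows -/
noncomputable def kerAt (x : Fin M → F) {c : ℕ} (v : Fin c → Fin (n + 1) → MvPolynomial (Fin M) k) : Submodule F (Fin (n + 1) → F) :=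
  LinearMap.ker (Matrix.mulVecLin (Matrix.of fun a j => ev x (v a j)))

lemma mem_kerAt {x : Fin M → F} {c : ℕ} {v : Fin c → Fin (n + 1) → MvPolynomial (Fin M) k} {y : Fin (n + 1) → F} :
    y ∈ kerAt x v ↔ ∀ a, ∑ j, ev x (v a j) * y j = 0 := by
  unfold kerAt
  rw [LinearMap.mem_ker, Matrix.mulVecLin_apply]
  constructor
  · intro h k
    exact congrFun h k
  · intro h
    funext k
    exact h k

lemma finrank_kerAt {x : Fin M → F} {c : ℕ} {v : Fin c → Fin (n + 1) → MvPolynomial (Fin M) k}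
    (hv : LinearIndependent F fun a j => ev x (v a j)) : c + Module.finrank F (kerAt x v) = n + 1 := by
  have h1 : (Matrix.of fun a j => ev x (v a j)).rank = c := by
    have := LinearIndependent.rank_matrix (M := Matrix.of fun a j => ev x (v a j)) hv
    rw [this, Fintype.card_fin]
  have h2 := LinearMap.finrank_range_add_finrank_ker (Matrix.mulVecLin (Matrix.of fun a j => ev x (v a j)))
  rw [Module.finrank_fin_fun] at h2
  have h3 : Module.finrank F (LinearMap.range (Matrix.mulVecLin (Matrix.of fun a j => ev x (v a j)))) = c := h1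
  rw [h3] at h2
  exact h2

lemma val_lform (x : Fin M → F) (v : Fin (n + 1) → MvPolynomial (Fin M) k) (y : Fin (n + 1) → F) :
    eval₂ (ev x) y (lform v) = ∑ j, ev x (v j) * y j := by
  unfold lform
  rw [eval₂_sum]
  refine sum_congr rfl fun j _ => ?_
  rw [eval₂_mul, eval₂_C, eval₂_X]

lemma zeros_pforms (x : Fin M → F) {s c : ℕ} (l : Fin s → Fin c → Fin (n + 1) → MvPolynomial (Fin M) k) :
    zeros (ev x) (∅ ∪ Set.range (pforms l)) = Nat.card {P : ℙ F (Fin (n + 1) → F) // ∃ i, P.rep ∈ kerAt x (l i)} := by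
  unfold zeros
  refine Nat.card_congr (Equiv.subtypeEquivRight fun P => ?_)
  constructor
  · intro h
    by_contra hcon
    push Not at hcon
    have h1 : ∀ i, ∃ a, eval₂ (ev x) P.rep (lform (l i a)) ≠ 0 := by
      intro i
      have h2 := hcon i
      rw [mem_kerAt] at h2
      push Not at h2
      obtain ⟨a, ha⟩ := h2
      exact ⟨a, by rw [val_lform]; exact ha⟩
    choose φ hφ using h1
    have h2 := h (pforms l φ) (Or.inr ⟨φ, rfl⟩)
    unfold pforms at h2
    rw [eval₂_prod, prod_eq_zero_iff] at h2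
    obtain ⟨i, _, hi⟩ := h2
    exact hφ i hi
  · rintro ⟨i, hi⟩ G (hG | ⟨φ, rfl⟩)
    · exact absurd hG (Set.notMem_empty _)
    · unfold pforms
      rw [eval₂_prod]
      refine prod_eq_zero (mem_univ i) ?_
      rw [val_lform]
      rw [mem_kerAt] at hi
      exact hi (φ i)

/-- **The points of a union of linear subspaces.** -/
theorem subspaces_count [Fintype F] (x : Fin M → F) {s c m : ℕ} (l : Fin s → Fin c → Fin (n + 1) → MvPolynomial (Fin M) k)
    (hl : Subspaces x l) (hc : c + m = n) :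
    |(zeros (ev x) (∅ ∪ Set.range (pforms l)) : ℝ) - s * (Fintype.card F : ℝ) ^ m| ≤
      (2 * s + 2 * s ^ 2) * ((Fintype.card F : ℝ) ^ m / Fintype.card F) := by
  classical
  rw [zeros_pforms]
  refine union_count (fun i => kerAt x (l i)) (fun i => ?_) (fun i j hij h => ?_)
  · have := finrank_kerAt (hl.1 i)
    omega
  · obtain ⟨y, hy⟩ := hl.2 i j hij
    apply hy
    rw [← mem_kerAt, ← mem_kerAt]
    rw [h]

end

end Q282AE
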