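import Pool.Agent.Q282.GP.Kun
import Mathlib.Topology.Algebra.Polynomial

/-!
# Power sums of algebraic integers of given absolute value
-/

set_option autoImplicit false
set_option linter.unusedSectionVars false

namespace Q282AE

open Finset

/-- a multiset of numbers of absolute value one -/
lemma window_one (γ : Multiset ℂ) (T : ℕ) (h1 : ∀ g ∈ γ, ‖g‖ = 1) (hne : γ ≠ Multiset.replicate T 1) :
    ∃ L : ℕ, ∀ a : ℕ, ∃ m, a ≤ m ∧ m < a + L ∧ 1 / 2 < ‖(γ.map fun g => g ^ m).sum - T‖ := by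
  classical
  obtain ⟨S, hS⟩ : ∃ S : Finset ℂ, S = insert 1 γ.toFinset := ⟨_, rfl⟩
  obtain ⟨c, hc⟩ : ∃ c : ℂ → ℤ, c = fun z => (γ.count z : ℤ) - if z = 1 then (T : ℤ) else 0 := ⟨_, rfl⟩
  have hsum : ∀ m : ℕ, (γ.map fun g => g ^ m).sum - T = ∑ z ∈ S, (c z : ℂ) * z ^ m := by
    intro m
    have h2 : (γ.map fun g => g ^ m).sum = ∑ z ∈ S, (γ.count z : ℂ) * z ^ m := by
      rw [Finset.sum_multiset_map_count, hS]
      refine (sum_subset (subset_insert _ _) fun z _ hz => ?_).trans (sum_congr rfl fun z _ => ?_)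
      · rw [Multiset.mem_toFinset] at hz
        rw [Multiset.count_eq_zero_of_notMem hz, zero_smul]
      · rw [nsmul_eq_mul]
    have h3 : ∑ z ∈ S, (if z = 1 then (T : ℂ) else 0) * z ^ m = T := by
      rw [sum_eq_single (1 : ℂ)]
      · rw [if_pos rfl, one_pow, mul_one]
      · intro z _ hz
        rw [if_neg hz, zero_mul]
      · intro h
        exact absurd (by rw [hS]; exact mem_insert_self _ _) h
    rw [h2]
    conv_lhs => rw [← h3]
    rw [← sum_sub_distrib]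
    refine sum_congr rfl fun z _ => ?_
    rw [hc, ← sub_mul]
    push_cast
    congr 2
  have hnorm : ∀ z ∈ S, ‖z‖ = 1 := by
    intro z hz
    rw [hS, mem_insert] at hz
    rcases hz with rfl | hz
    · exact norm_one
    · exact h1 z (Multiset.mem_toFinset.1 hz)
  obtain ⟨z₀, hz₀, hcz⟩ : ∃ z₀ ∈ S, c z₀ ≠ 0 := by
    by_contra hcon
    push Not at hcon
    apply hne
    refine Multiset.ext.2 fun z => ?_
    rw [Multiset.count_replicate]
    by_cases hz : z ∈ S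
    · have h2 := hcon z hz
      rw [hc] at h2
      simp only at h2
      by_cases h3 : z = 1
      · rw [if_pos h3] at h2
        rw [if_pos h3.symm]
        omega
      · rw [if_neg h3] at h2
        rw [if_neg (Ne.symm h3)]
        omega
    · rw [hS, mem_insert, not_or, Multiset.mem_toFinset] at hz
      rw [Multiset.count_eq_zero_of_notMem hz.2, if_neg (Ne.symm hz.1)]
  have hz₀0 : z₀ ≠ 0 := by
    intro h
    have := hnorm z₀ hz₀
    rw [h, norm_zero] at this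
    exact zero_ne_one this
  obtain ⟨K, hK⟩ : ∃ K : ℝ, K = ∑ z ∈ S.erase z₀, |(c z : ℝ)| * (2 / ‖z / z₀ - 1‖) := ⟨_, rfl⟩
  have hK0 : 0 ≤ K := by
    rw [hK]
    positivity
  obtain ⟨L, hL⟩ := exists_nat_gt (2 * K)
  refine ⟨L, ?_⟩
  intro a
  by_contra hcon
  push Not at hcon
  have hLp : 0 < (L : ℝ) := by linarith
  -- the average of `s_m z₀^(-m)`
  have e1 : ∑ m ∈ Ico a (a + L), (∑ z ∈ S, (c z : ℂ) * z ^ m) * (z₀⁻¹) ^ m =
      L * (c z₀ : ℂ) + ∑ z ∈ S.erase z₀, (c z : ℂ) * ∑ m ∈ Ico a (a + L), (z / z₀) ^ m := by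
    have h2 : ∑ m ∈ Ico a (a + L), (∑ z ∈ S, (c z : ℂ) * z ^ m) * (z₀⁻¹) ^ m =
        ∑ z ∈ S, (c z : ℂ) * ∑ m ∈ Ico a (a + L), (z / z₀) ^ m := by
      simp only [sum_mul, mul_sum]
      rw [sum_comm]
      refine sum_congr rfl fun z _ => sum_congr rfl fun m _ => ?_
      rw [div_eq_mul_inv, mul_pow]
      ring
    rw [h2, ← add_sum_erase S _ hz₀]
    congr 1
    rw [div_self hz₀0]
    simp only [one_pow, sum_const, Nat.card_Ico, add_tsub_cancel_left, nsmul_eq_mul, mul_one]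
    ring
  have e2 : ‖∑ m ∈ Ico a (a + L), (∑ z ∈ S, (c z : ℂ) * z ^ m) * (z₀⁻¹) ^ m‖ ≤ L * (1 / 2) := by
    refine (norm_sum_le _ _).trans ?_
    have h2 : ∀ m ∈ Ico a (a + L), ‖(∑ z ∈ S, (c z : ℂ) * z ^ m) * (z₀⁻¹) ^ m‖ ≤ 1 / 2 := by
      intro m hm
      rw [mem_Ico] at hm
      rw [norm_mul, norm_pow, norm_inv, hnorm z₀ hz₀, inv_one, one_pow, mul_one, ← hsum]
      exact hcon m hm.1 hm.2
    refine (sum_le_sum h2).trans (le_of_eq ?_)
    rw [sum_const, Nat.card_Ico, nsmul_eq_mul]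
    simp
  have e3 : ‖∑ z ∈ S.erase z₀, (c z : ℂ) * ∑ m ∈ Ico a (a + L), (z / z₀) ^ m‖ ≤ K := by
    refine (norm_sum_le _ _).trans ?_
    rw [hK]
    refine sum_le_sum fun z hz => ?_
    rw [mem_erase] at hz
    have hne1 : z / z₀ ≠ 1 := fun h => hz.1 ((div_eq_one_iff_eq hz₀0).1 h)
    rw [norm_mul, Complex.norm_intCast, geom_sum_Ico hne1 (by omega), norm_div]
    refine mul_le_mul_of_nonneg_left ?_ (abs_nonneg _)
    refine div_le_div_of_nonneg_right ?_ (norm_nonneg _)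
    refine (norm_sub_le _ _).trans ?_
    rw [norm_pow, norm_pow, norm_div, hnorm z hz.2, hnorm z₀ hz₀, div_one, one_pow, one_pow]
    norm_num
  have e4 : (L : ℝ) ≤ ‖(L : ℂ) * (c z₀ : ℂ)‖ := by
    rw [norm_mul, Complex.norm_natCast, Complex.norm_intCast]
    refine le_mul_of_one_le_right hLp.le ?_
    have : 1 ≤ |c z₀| := Int.one_le_abs hcz
    exact_mod_cast this
  have e5 : ‖(L : ℂ) * (c z₀ : ℂ)‖ ≤ L * (1 / 2) + K := by
    have h2 : (L : ℂ) * (c z₀ : ℂ) = (∑ m ∈ Ico a (a + L), (∑ z ∈ S, (c z : ℂ) * z ^ m) * (z₀⁻¹) ^ m) -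
        ∑ z ∈ S.erase z₀, (c z : ℂ) * ∑ m ∈ Ico a (a + L), (z / z₀) ^ m := by
      rw [e1]
      ring
    rw [h2]
    exact (norm_sub_le _ _).trans (add_le_add e2 e3)
  linarith

/-- the multisets with a given number of elements of a finite set -/
lemma finite_multisets (R : Set ℂ) (hR : R.Finite) (B : ℕ) : {γ : Multiset ℂ | γ.card ≤ B ∧ ∀ g ∈ γ, g ∈ R}.Finite := by
  have h1 : ∀ j : ℕ, {f : Fin j → ℂ | ∀ i, f i ∈ R}.Finite := fun j => Set.Finite.pi' fun _ => hR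
  refine ((Set.finite_Iic B).biUnion fun j _ => (h1 j).image fun f => (univ : Finset (Fin j)).val.map f).subset ?_
  rintro γ ⟨hγ1, hγ2⟩
  rw [Set.mem_iUnion₂]
  obtain ⟨f, hf⟩ := Q282GP.exists_family γ γ.card rfl
  refine ⟨γ.card, hγ1, f, ?_, hf.symm⟩
  intro i
  apply hγ2
  rw [hf]
  exact Multiset.mem_map_of_mem _ (mem_univ i)

/-- the characteristic polynomials with integer coefficients and roots of given absolute value are finite in number -/
theorem finite_weil (Q : ℝ) (B : ℕ) : {γ : Multiset ℂ | γ.card ≤ B ∧ (∀ g ∈ γ, ‖g‖ = Q) ∧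
    ∃ P : Polynomial ℤ, P.map (Int.castRingHom ℂ) = (γ.map fun g => Polynomial.X - Polynomial.C g).prod}.Finite := by
  classical
  obtain ⟨H, hH⟩ : ∃ H : ℝ, H = (max 1 Q) ^ B * 2 ^ B := ⟨_, rfl⟩
  have hfin := Polynomial.bUnion_roots_finite (Int.castRingHom ℂ) B (Set.finite_Icc (-⌈H⌉) ⌈H⌉)
  refine (finite_multisets _ hfin B).subset ?_
  rintro γ ⟨hγ1, hγ2, P, hP⟩
  refine ⟨hγ1, ?_⟩
  intro g hg
  have hinj : Function.Injective (Int.castRingHom ℂ) := Int.cast_injective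
  have hmon : P.Monic := by
    have h1 : (P.map (Int.castRingHom ℂ)).Monic := by
      rw [hP]
      exact Polynomial.monic_multiset_prod_of_monic _ _ fun g _ => Polynomial.monic_X_sub_C g
    exact Polynomial.monic_of_injective hinj h1
  have hroots : (P.map (Int.castRingHom ℂ)).roots = γ := by
    rw [hP]
    exact Polynomial.roots_multiset_prod_X_sub_C γ
  have hdeg : P.natDegree = γ.card := by
    have h1 : (P.map (Int.castRingHom ℂ)).natDegree = γ.card := by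
      rw [hP, Polynomial.natDegree_multiset_prod_X_sub_C_eq_card]
    rw [← h1, Polynomial.natDegree_map_eq_of_injective hinj]
  rw [Set.mem_iUnion₂]
  refine ⟨P, ⟨by omega, ?_⟩, ?_⟩
  · intro i
    have h1 := Polynomial.coeff_le_of_roots_le (p := P) (f := Int.castRingHom ℂ) (B := Q) i hmon (IsAlgClosed.splits _) (by
      intro z hz
      rw [hroots] at hz
      exact (hγ2 z hz).le)
    have hQ0 : 0 ≤ Q := by
      rw [← hγ2 g hg]
      exact norm_nonneg _
    have h2 : Q ^ (P.natDegree - i) * (P.natDegree.choose i : ℝ) ≤ H := by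
      rw [hH]
      refine mul_le_mul ?_ ?_ (Nat.cast_nonneg _) (by positivity)
      · refine (pow_le_pow_left₀ hQ0 (le_max_right 1 Q) _).trans ?_
        exact pow_le_pow_right₀ (le_max_left 1 Q) (by omega)
      · have h3 : P.natDegree.choose i ≤ 2 ^ P.natDegree := Nat.choose_le_two_pow _ _
        calc (P.natDegree.choose i : ℝ) ≤ ((2 ^ P.natDegree : ℕ) : ℝ) := by exact_mod_cast h3
          _ ≤ 2 ^ B := by
            push_cast
            exact pow_le_pow_right₀ (by norm_num) (by omega)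
    rw [Polynomial.coeff_map, Int.coe_castRingHom, Complex.norm_intCast] at h1
    have h3 := h1.trans (h2.trans (Int.le_ceil H))
    have h4 : |P.coeff i| ≤ ⌈H⌉ := by exact_mod_cast h3
    exact abs_le.1 h4
  · rw [hroots]
    exact Multiset.mem_toFinset.2 hg

theorem window (Q : ℝ) (hQ : 0 < Q) (T B : ℕ) : ∃ L : ℕ, ∀ γ : Multiset ℂ, γ.card ≤ B → (∀ g ∈ γ, ‖g‖ = Q) →
    (∃ P : Polynomial ℤ, P.map (Int.castRingHom ℂ) = (γ.map fun g => Polynomial.X - Polynomial.C g).prod) →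
    γ ≠ Multiset.replicate T (Q : ℂ) → ∀ a : ℕ, ∃ m, a ≤ m ∧ m < a + L ∧ 1 / 2 < ‖(γ.map fun g => (g / (Q : ℂ)) ^ m).sum - T‖ := by
  classical
  have hQc : (Q : ℂ) ≠ 0 := by exact_mod_cast hQ.ne'
  have h1 : ∀ γ : Multiset ℂ, ∃ L : ℕ, (∀ g ∈ γ, ‖g‖ = Q) → γ ≠ Multiset.replicate T (Q : ℂ) →
      ∀ a : ℕ, ∃ m, a ≤ m ∧ m < a + L ∧ 1 / 2 < ‖(γ.map fun g => (g / (Q : ℂ)) ^ m).sum - T‖ := by
    intro γ
    by_cases h : (∀ g ∈ γ, ‖g‖ = Q) ∧ γ ≠ Multiset.replicate T (Q : ℂ)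
    · obtain ⟨L, hL⟩ := window_one (γ.map fun g => g / Q) T (by
        intro g hg
        rw [Multiset.mem_map] at hg
        obtain ⟨g', hg', rfl⟩ := hg
        rw [norm_div, h.1 g' hg', Complex.norm_real, Real.norm_of_nonneg hQ.le, div_self hQ.ne']) (by
        intro he
        apply h.2
        have h2 : (γ.map fun g => g / (Q : ℂ)).map (fun g => g * (Q : ℂ)) = γ := by
          rw [Multiset.map_map]
          conv_rhs => rw [← Multiset.map_id γ]
          refine Multiset.map_congr rfl fun g _ => ?_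
          simp only [Function.comp_apply, id_eq]
          exact div_mul_cancel₀ _ hQc
        rw [← h2, he, Multiset.map_replicate, one_mul])
      refine ⟨L, fun _ _ a => ?_⟩
      obtain ⟨m, hm1, hm2, hm3⟩ := hL a
      refine ⟨m, hm1, hm2, ?_⟩
      rw [Multiset.map_map] at hm3
      exact hm3
    · refine ⟨0, fun ha hb => ?_⟩
      exact absurd ⟨ha, hb⟩ h
  choose L hL using h1
  obtain ⟨S, hS⟩ : ∃ S : Finset (Multiset ℂ), S = (finite_weil Q B).toFinset := ⟨_, rfl⟩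
  refine ⟨∑ γ ∈ S, L γ, ?_⟩
  intro γ hγ1 hγ2 hγ3 hγ4 a
  have hmem : γ ∈ S := by
    rw [hS, Set.Finite.mem_toFinset]
    exact ⟨hγ1, hγ2, hγ3⟩
  obtain ⟨m, hm1, hm2, hm3⟩ := hL γ hγ2 hγ4 a
  refine ⟨m, hm1, ?_, hm3⟩
  have : L γ ≤ ∑ γ ∈ S, L γ := single_le_sum (f := L) (fun _ _ => Nat.zero_le _) hmem
  omega

end Q282AE
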