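import Pool.Agent.Q282.AE.Stm
import Pool.Agent.Q282.AE.Tur

/-!
# The sums of the traces and the poles of the L-function
-/

set_option autoImplicit false
set_option linter.unusedSectionVars false

namespace Q282AE

open Finset MvPolynomial
open Q282GH (zeros)
open Q282GP (av gen fam oc tt vv oser cc TT kun coh kun_card kun_norm coh_card coh_norm)

variable {k : Type} [Field k] {M n : ℕ} {A : Type} [Fintype A] [DecidableEq A] {ι : A → Type} [∀ a, Fintype (ι a)] [∀ a, DecidableEq (ι a)]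

lemma eval_C_map {F : Type} [Field F] [Algebra k F] (x : Fin M → F) (u : (Σ a, ι a) → F) (y : Fin (n + 1) → F)
    (G : MvPolynomial (Fin (n + 1)) (MvPolynomial (Fin M) k)) :
    eval₂ (eval₂Hom (ev x) u) y (map C G) = eval₂ (ev x) y G := by
  rw [eval₂_map]
  congr 1
  ext a
  · simp
  · simp

theorem zeros_member (E : Set (MvPolynomial (Fin (n + 1)) (MvPolynomial (Fin M) k)))
    (f : (a : A) → ι a → MvPolynomial (Fin (n + 1)) (MvPolynomial (Fin M) k)) (c : (Σ a, ι a) → MvPolynomial (Fin M) k)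
    {F : Type} [Field F] [Algebra k F] (x : Fin M → F) :
    zeros (eval₂Hom (ev x) fun s => ev x (c s)) (fam E f) = zeros (ev x) (member E f c) := by
  have hg : ∀ (P : Fin (n + 1) → F) (a : A), eval₂ (eval₂Hom (ev x) fun s => ev x (c s)) P (gen f a) =
      eval₂ (ev x) P (∑ j, C (c ⟨a, j⟩) * f a j) := by
    intro P a
    unfold gen
    rw [eval₂_sum, eval₂_sum]
    refine sum_congr rfl fun j _ => ?_
    rw [eval₂_mul, eval₂_mul, eval₂_C, eval₂_C, eval_C_map, coe_eval₂Hom, eval₂_X]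
  unfold zeros
  refine Nat.card_congr (Equiv.subtypeEquivRight fun P => ?_)
  unfold fam member
  constructor
  · rintro h G (⟨a, rfl⟩ | hG)
    · rw [← hg]
      exact h _ (Or.inl ⟨a, rfl⟩)
    · rw [← eval_C_map x fun s => ev x (c s)]
      exact h _ (Or.inr ⟨G, hG, rfl⟩)
  · rintro h G (⟨a, rfl⟩ | ⟨G, hG, rfl⟩)
    · rw [hg]
      exact h _ (Or.inl ⟨a, rfl⟩)
    · rw [eval_C_map]
      exact h _ (Or.inr hG)

/-- the number of the eigenvalues on the cohomology of the power -/
noncomputable def bet (w : ℕ → ℕ) (D r b ν j : ℕ) : ℕ :=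
  PowerSeries.coeff j ((PowerSeries.mk fun b' => if b' = D then b else if Even b' then oc w D r (b' / 2) else 0 : PowerSeries ℕ) ^ ν)

lemma kun_le (w : ℕ → ℕ) (D r b ν i q : ℕ) (α : Multiset ℂ) (hb : α.card = b) (hα : ∀ a ∈ α, ‖a‖ ≤ Real.sqrt q ^ D) :
    ‖(kun (coh w D r q α) ν (2 * i)).sum‖ ≤ bet w D r b ν (2 * i) * (q : ℝ) ^ i := by
  have h1 := kun_norm (coh w D r q α) (Real.sqrt q) (Real.sqrt_nonneg _)
    (fun b' => coh_norm w D r q α (Real.sqrt q) (Real.sq_sqrt (Nat.cast_nonneg q)).symm hα b') ν (2 * i)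
  have h2 : (kun (coh w D r q α) ν (2 * i)).card = bet w D r b ν (2 * i) := by
    rw [kun_card]
    unfold bet
    congr 3
    ext b'
    rw [coh_card w D r q α b hb]
  have h3 : Real.sqrt q ^ (2 * i) = (q : ℝ) ^ i := by
    rw [pow_mul, Real.sq_sqrt (Nat.cast_nonneg q)]
  rw [← h2]
  have h4 : ∀ s : Multiset ℂ, (∀ a ∈ s, ‖a‖ ≤ (q : ℝ) ^ i) → ‖s.sum‖ ≤ s.card * (q : ℝ) ^ i := by
    intro s
    induction s using Multiset.induction_on with
    | empty => simp
    | cons a s ih =>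
      intro hs
      rw [Multiset.sum_cons, Multiset.card_cons]
      push_cast
      have h5 := hs a (Multiset.mem_cons_self a s)
      have h6 := ih fun a' ha' => hs a' (Multiset.mem_cons_of_mem ha')
      refine (norm_add_le _ _).trans ?_
      linarith
  exact h4 _ fun a ha => by rw [← h3]; exact h1 a ha

lemma norm_sum_pow (s : Multiset ℂ) (R : ℝ) (_ : 0 ≤ R) (hs : ∀ a ∈ s, ‖a‖ ≤ R) (m : ℕ) : ‖(s.map fun g => g ^ m).sum‖ ≤ s.card * R ^ m := by
  induction s using Multiset.induction_on with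
  | empty => simp
  | cons a s ih =>
    rw [Multiset.map_cons, Multiset.sum_cons, Multiset.card_cons]
    push_cast
    have h5 : ‖a ^ m‖ ≤ R ^ m := by
      rw [norm_pow]
      exact pow_le_pow_left₀ (norm_nonneg _) (hs a (Multiset.mem_cons_self a s)) m
    have h6 := ih fun a' ha' => hs a' (Multiset.mem_cons_of_mem ha')
    refine (norm_add_le _ _).trans ?_
    linarith

section

variable [Fintype k] {Fm : ℕ → Type} [∀ m, Field (Fm m)] [∀ m, Algebra k (Fm m)] [∀ m, Fintype (Fm m)]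

open Classical in
/-- **The sums of the traces.** -/
theorem link (w : ℕ → ℕ) (D r b ν i : ℕ) (hM : 1 ≤ M) (E : Set (MvPolynomial (Fin (n + 1)) (MvPolynomial (Fin M) k)))
    (f : (a : A) → ι a → MvPolynomial (Fin (n + 1)) (MvPolynomial (Fin M) k)) (Δ : MvPolynomial (Σ a, ι a) (MvPolynomial (Fin M) k))
    {N : ℕ} (c : Box k M N (Σ a, ι a)) (α : (m : ℕ) → (Fin M → Fm m) → Multiset ℂ)
    (hα : IsFrobenius Fm w D r b E f Δ (fun s => (c s : MvPolynomial (Fin M) k)) α) (m : ℕ) (hm : 1 ≤ m) :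
    ‖traceSum Fm w D r ν i Δ (fun s => (c s : MvPolynomial (Fin M) k)) α m -
      ((Nat.card (Fm m) : ℝ) ^ i * ∑ x ∈ univ.filter (Gen k (F := Fm m) (M := M)), XX w D r ν i E f Δ x (at' x c) : ℝ)‖ ≤
      2 * bet w D r b ν (2 * i) * Real.sqrt (Nat.card (Fm m)) ^ M * (Nat.card (Fm m) : ℝ) ^ i := by
  obtain ⟨q, hq⟩ : ∃ q : ℕ, q = Nat.card (Fm m) := ⟨_, rfl⟩
  have hq1 : (1 : ℝ) ≤ q := by
    rw [hq, Nat.card_eq_fintype_card]
    exact card_one
  have hq0 : (0 : ℝ) < q := by linarith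
  obtain ⟨g, hg⟩ : ∃ g : (Fin M → Fm m) → ℂ, g = fun x => if Good Δ (fun s => (c s : MvPolynomial (Fin M) k)) x then
    (kun (coh w D r q (α m x)) ν (2 * i)).sum else 0 := ⟨_, rfl⟩
  have h1 : traceSum Fm w D r ν i Δ (fun s => (c s : MvPolynomial (Fin M) k)) α m = ∑ x, g x := by
    unfold traceSum
    rw [finsum_eq_sum_of_fintype, ← hq, hg, ← sum_filter]
    exact (Finset.sum_subtype (univ.filter (Good Δ fun s => (c s : MvPolynomial (Fin M) k)))
      (fun x => by rw [mem_filter]; simp) (fun x => (kun (coh w D r q (α m x)) ν (2 * i)).sum)).symm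
  have hgen : ∀ x : Fin M → Fm m, g x = (((q : ℝ) ^ i * XX w D r ν i E f Δ x (at' x c) : ℝ) : ℂ) := by
    intro x
    rw [hg]
    simp only
    unfold XX
    have hG : Good Δ (fun s => (c s : MvPolynomial (Fin M) k)) x ↔ ¬ eval₂ (ev x) (at' x c) Δ = 0 := Iff.rfl
    by_cases hx : Good Δ (fun s => (c s : MvPolynomial (Fin M) k)) x
    · rw [if_pos hx, if_neg (hG.1 hx)]
      have h2 := hα.trace m hm x hx
      rw [← zeros_member, ← hq] at h2
      have hu0 : (Real.sqrt q : ℂ) ≠ 0 := by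
        rw [Complex.ofReal_ne_zero]
        exact (Real.sqrt_pos.2 hq0).ne'
      have h3 : (α m x).sum = (-1) ^ D * (((tau w D r E f x (at' x c) : ℝ) : ℂ) * (Real.sqrt q : ℂ) ^ D) := by
        have h4 : ((tau w D r E f x (at' x c) : ℝ) : ℂ) * (Real.sqrt q : ℂ) ^ D = (-1) ^ D * (α m x).sum := by
          unfold tau
          rw [← hq]
          push_cast
          rw [div_mul_cancel₀ _ (pow_ne_zero _ hu0)]
          have h5 : (zeros (eval₂Hom (ev x) (at' x c)) (fam E f) : ℂ) = ((tt w D r (q : ℝ) : ℝ) : ℂ) + (-1) ^ D * (α m x).sum := h2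
          rw [h5]
          ring
        rw [h4, ← mul_assoc, ← mul_pow]
        norm_num
      have h4 := Q282GP.trace w D r q (α m x) (Real.sqrt q : ℂ) _ (by
        rw [← Complex.ofReal_pow, Real.sq_sqrt hq0.le]
        simp) h3 ν i
      rw [h4, Complex.ofReal_mul, Complex.ofReal_pow, Complex.ofReal_natCast, Complex.ofReal_sum]
      congr 1
      refine sum_congr rfl fun κ _ => ?_
      rw [Complex.ofReal_mul, Complex.ofReal_pow, Complex.ofReal_natCast]
      rfl
    · rw [if_neg hx, if_pos (by by_contra h0; exact hx (hG.2 h0))]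
      simp
  have h2 : (((Nat.card (Fm m) : ℝ) ^ i * ∑ x ∈ univ.filter (Gen k (F := Fm m) (M := M)), XX w D r ν i E f Δ x (at' x c) : ℝ) : ℂ) =
      ∑ x ∈ univ.filter (Gen k (F := Fm m) (M := M)), g x := by
    rw [mul_sum, Complex.ofReal_sum, ← hq]
    exact sum_congr rfl fun x _ => (hgen x).symm
  have hgb : ∀ x : Fin M → Fm m, ‖g x‖ ≤ bet w D r b ν (2 * i) * (q : ℝ) ^ i := by
    intro x
    rw [hg]
    simp only
    split_ifs with hx
    · refine kun_le w D r b ν i q (α m x) (hα.card m hm x hx) ?_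
      rw [hq]
      exact hα.norm m hm x hx
    · rw [norm_zero]
      positivity
  rw [h1, h2, ← sum_filter_add_sum_filter_not univ (Gen k (F := Fm m) (M := M)), add_sub_cancel_left]
  refine (norm_sum_le _ _).trans ((sum_le_sum fun x _ => hgb x).trans ?_)
  rw [sum_const, nsmul_eq_mul]
  have h5 := card_not_gen (k := k) (F := Fm m) hM
  rw [Nat.card_eq_fintype_card, Fintype.card_subtype] at h5
  have h6 : (Fintype.card k : ℝ) ^ (M * (Module.finrank k (Fm m) / 2)) ≤ Real.sqrt q ^ M := by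
    have h7 : (q : ℝ) = (Fintype.card k : ℝ) ^ Module.finrank k (Fm m) := by
      rw [hq, Nat.card_eq_fintype_card]
      have : Fintype.card (Fm m) = Fintype.card k ^ Module.finrank k (Fm m) := Module.card_eq_pow_finrank
      exact_mod_cast this
    rw [mul_comm, pow_mul]
    refine pow_le_pow_left₀ (by positivity) ?_ _
    refine Real.le_sqrt_of_sq_le ?_
    rw [h7, ← pow_mul]
    have : (1 : ℝ) ≤ Fintype.card k := by exact_mod_cast Fintype.one_lt_card.le
    exact pow_le_pow_right₀ this (by omega)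
  rw [← hq]
  calc (((univ.filter (fun x => ¬ Gen k (F := Fm m) (M := M) x)).card : ℕ) : ℝ) * (bet w D r b ν (2 * i) * (q : ℝ) ^ i) ≤
      (2 * Real.sqrt q ^ M) * (bet w D r b ν (2 * i) * (q : ℝ) ^ i) := mul_le_mul_of_nonneg_right (by linarith) (by positivity)
    _ = _ := by ring

end

end Q282AE
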