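import Pool.Agent.Q282.AE.Cnt
import Pool.Agent.Q282.GP.Ave

/-!
# The normalised moments of the number of points, over a finite field
-/

set_option autoImplicit false
set_option linter.unusedSectionVars false

namespace Q282AE

open Finset MvPolynomial
open Q282MM (gm)
open Q282RH (Recur rec_main)
open Q282GH (zeros Through)
open Q282GP (av av_add av_sub av_smul av_sum av_const av_nonneg av_mono abs_av av_indep gen fam var_main)

/-- **The normalised moments.** -/
theorem gauss (D r : ℕ) (hD : 1 ≤ D) (hr : 1 ≤ r) (w : ℕ → ℕ) (hw : w (D + r) = 1) (C₀ C₁ : ℝ) (hC₀ : 0 ≤ C₀) (hC₁ : 0 ≤ C₁) (ν : ℕ)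
    (hν : 1 ≤ ν) :
    ∃ K : ℝ, 0 ≤ K ∧ ∀ {O : Type} [CommRing O] {n : ℕ} {F : Type} [Field F] [Fintype F] [DecidableEq F] (ψ : O →+* F) (_ : Function.Surjective ψ) {A : Type} [Fintype A] [DecidableEq A]
      {ι : A → Type} [∀ a, Fintype (ι a)] [∀ a, DecidableEq (ι a)] {J : Type} {h : J → MvPolynomial (Fin (n + 1)) O} {e : J → ℕ} {d : A → ℕ}
      {f : (a : A) → ι a → MvPolynomial (Fin (n + 1)) O} (_ : Fintype.card A = r) (_ : ∀ j, (h j).IsHomogeneous (e j))
      (_ : ∀ j a, e j + 2 * ν ≤ d a + 1) (_ : ∀ a, Through h (d a) (f a)) (E : Set (MvPolynomial (Fin (n + 1)) O)),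
      |(zeros ψ E : ℝ) - ∑ j ∈ range (D + r + 1), w j * (Fintype.card F : ℝ) ^ j| ≤ C₀ * Real.sqrt (Fintype.card F) ^ (2 * r + D - 1) →
      (zeros ψ (E ∪ Set.range h) : ℝ) ≤ C₁ * Real.sqrt (Fintype.card F) ^ D → ∀ k ≤ 2 * ν,
      |av (fun c => (gdev ψ E h f c / Real.sqrt (Fintype.card F) ^ D) ^ k) - (gm k : ℝ)| ≤ K / Real.sqrt (Fintype.card F) := by
  obtain ⟨c, hc0, hc⟩ := var_main D r hD hr w hw C₀ C₁ hC₀ hC₁
  choose b hb0 hb1 hb using rec_main 1 le_rfl
  obtain ⟨K, hK⟩ : ∃ K : ℝ, K = ∑ k ∈ range (2 * ν + 1), (b k * (1 + c) * (2 + c) ^ k + (gm k : ℝ) * (c * k * (1 + c) ^ (k - 1))) := ⟨_, rfl⟩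
  have hKk : ∀ k ≤ 2 * ν, b k * (1 + c) * (2 + c) ^ k + (gm k : ℝ) * (c * k * (1 + c) ^ (k - 1)) ≤ K := by
    intro k hk
    rw [hK]
    refine single_le_sum (f := fun k => b k * (1 + c) * (2 + c) ^ k + (gm k : ℝ) * (c * k * (1 + c) ^ (k - 1))) (fun k _ => ?_)
      (mem_range.2 (by omega))
    have := hb0 k
    positivity
  have hK0 : 0 ≤ K := by
    refine le_trans ?_ (hKk 0 (Nat.zero_le _))
    have := hb0 0
    positivity
  refine ⟨K, hK0, ?_⟩
  intro O _ n F _ _ _ ψ hψ A _ _ ι _ _ J h e d f hA hh hd hf E hW hZ k hk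
  obtain ⟨p, hpF⟩ : ∃ p : ℝ, p = (Fintype.card F : ℝ) := ⟨_, rfl⟩
  rw [← hpF] at hW hZ ⊢
  have hp0 : (0 : ℝ) < p := by rw [hpF]; exact card_pos
  have hp1 : (1 : ℝ) ≤ p := by rw [hpF]; exact card_one
  obtain ⟨x, hx⟩ : ∃ x : ℝ, x = Real.sqrt p := ⟨_, rfl⟩
  have hx1 : 1 ≤ x := by
    rw [hx]
    exact Real.one_le_sqrt.2 hp1
  have hx0 : 0 < x := by linarith
  have hxp : p = x ^ 2 := by
    rw [hx, Real.sq_sqrt hp0.le]
  rw [← hx] at hW hZ ⊢
  rw [hxp] at hW
  obtain ⟨u, hu⟩ : ∃ u : ℝ, u = x ^ D := ⟨_, rfl⟩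
  have hu1 : 1 ≤ u := by
    rw [hu]
    exact one_le_pow₀ hx1
  have hu0 : 0 < u := by linarith
  have hux : x ≤ u := by
    rw [hu]
    calc x = x ^ 1 := (pow_one x).symm
      _ ≤ x ^ D := pow_le_pow_right₀ hx1 hD
  have hrec := recur_gdev ψ hψ (2 * ν - 1) hh (fun j a => by have := hd j a; omega) hf E
  have h1 := hb k (Pf n F) (free ψ E h) _ _ _ (hrec.mono (Subset.refl _) (by omega : k ≤ 2 * ν - 1 + 1))
  obtain ⟨V, hV⟩ : ∃ V : ℝ, V = ∑ _ ∈ free ψ E h, av (fun u => x0 A F u ^ 2) := ⟨_, rfl⟩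
  rw [← hV] at h1
  have hVe : V = ((zeros ψ E : ℝ) - zeros ψ (E ∪ Set.range h)) * (1 / (x ^ 2) ^ r * (1 - 1 / (x ^ 2) ^ r)) := by
    rw [hV, sum_const, nsmul_eq_mul, av_x0_sq, hA, ← hpF, ← hxp, zeros_base ψ E h]
    push_cast
    ring
  have hvar := hc x (zeros ψ E) (zeros ψ (E ∪ Set.range h)) hx1 (Nat.cast_nonneg _) hW hZ
  rw [← hVe, ← hu] at hvar
  have hV0 : 0 ≤ V := by
    rw [hV]
    exact sum_nonneg fun _ _ => av_nonneg _ fun _ => sq_nonneg _
  obtain ⟨v, hv⟩ : ∃ v : ℝ, v = V / u ^ 2 := ⟨_, rfl⟩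
  rw [← hv] at hvar
  have hv0 : 0 ≤ v := by
    rw [hv]
    positivity
  have hcx : c / x ≤ c := div_le_self hc0 hx1
  have hv1 : v ≤ 1 + c := by
    have := (abs_le.1 hvar).2
    linarith
  have hVv : V = v * u ^ 2 := by
    rw [hv]
    field_simp
  have hsV : Real.sqrt V = Real.sqrt v * u := by
    rw [hVv, Real.sqrt_mul hv0, Real.sqrt_sq hu0.le]
  obtain ⟨y, hy⟩ : ∃ y : ℝ, y = Real.sqrt v := ⟨_, rfl⟩
  have hy0 : 0 ≤ y := by
    rw [hy]
    exact Real.sqrt_nonneg _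
  have hyv : y ^ 2 = v := by
    rw [hy, Real.sq_sqrt hv0]
  have hy1 : y ≤ 1 + c := by
    rw [hy, Real.sqrt_le_left (by linarith)]
    nlinarith
  rw [← hy] at hsV
  have hyd : |y - 1| ≤ c / x := by
    refine le_trans ?_ hvar
    rw [← hyv]
    have : y ^ 2 - 1 = (y - 1) * (y + 1) := by ring
    rw [this, abs_mul]
    have h2 : 1 ≤ |y + 1| := by
      rw [abs_of_nonneg (by linarith)]
      linarith
    exact le_mul_of_one_le_right (abs_nonneg _) h2
  -- the two errors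
  have e1 : av (fun c => (gdev ψ E h f c / u) ^ k) = av (fun c => (∑ Q ∈ free ψ E h, x0 A F (vals ψ f Q c)) ^ k) / u ^ k := by
    rw [eq_div_iff (pow_pos hu0 k).ne', mul_comm, ← av_smul]
    congr 1
    funext c'
    rw [div_pow, mul_div_cancel₀ _ (pow_pos hu0 k).ne']
    rfl
  have e2 : av (fun c => (gdev ψ E h f c / u) ^ k) - (gm k : ℝ) =
      (av (fun c => (∑ Q ∈ free ψ E h, x0 A F (vals ψ f Q c)) ^ k) - (gm k : ℝ) * Real.sqrt V ^ k) / u ^ k + (gm k : ℝ) * (y ^ k - 1 ^ k) := by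
    rw [e1, hsV, mul_pow]
    have := (pow_pos hu0 k).ne'
    field_simp
    ring
  have e3 : |(av (fun c => (∑ Q ∈ free ψ E h, x0 A F (vals ψ f Q c)) ^ k) - (gm k : ℝ) * Real.sqrt V ^ k) / u ^ k| ≤
      b k * (1 + c) * (2 + c) ^ k / x := by
    rw [abs_div, abs_of_pos (pow_pos hu0 k), div_le_iff₀ (pow_pos hu0 k)]
    refine h1.trans ?_
    rcases Nat.lt_or_ge k 3 with h3 | h3
    · rw [hb1 k (by omega)]
      simp
    · have h6 : Real.sqrt (1 + V) ≤ (2 + c) * u := by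
        rw [Real.sqrt_le_left (by positivity)]
        have h7 : 1 ≤ u ^ 2 := one_le_pow₀ hu1
        have h8 : V ≤ (1 + c) * u ^ 2 := by
          rw [hVv]
          exact mul_le_mul_of_nonneg_right hv1 (by positivity)
        have h9 : (2 + c) * u ^ 2 ≤ (2 + c) ^ 2 * u ^ 2 := by
          refine mul_le_mul_of_nonneg_right ?_ (by positivity)
          nlinarith
        rw [mul_pow]
        linarith
      have h7 : V ≤ (1 + c) * u ^ 2 := by
        rw [hVv]
        exact mul_le_mul_of_nonneg_right hv1 (by positivity)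
      calc b k * V * Real.sqrt (1 + V) ^ (k - 3) ≤ b k * ((1 + c) * u ^ 2) * ((2 + c) * u) ^ (k - 3) := by
            refine mul_le_mul (mul_le_mul_of_nonneg_left h7 (hb0 k)) (pow_le_pow_left₀ (Real.sqrt_nonneg _) h6 _) (by positivity) ?_
            have := hb0 k
            positivity
        _ = b k * (1 + c) * (2 + c) ^ (k - 3) * u ^ (k - 1) := by
            have h8 : u ^ (k - 1) = u ^ 2 * u ^ (k - 3) := by
              rw [← pow_add]
              congr 1
              omega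
            rw [mul_pow, h8]
            ring
        _ ≤ b k * (1 + c) * (2 + c) ^ k * u ^ (k - 1) := by
            refine mul_le_mul_of_nonneg_right (mul_le_mul_of_nonneg_left ?_ ?_) (by positivity)
            · exact pow_le_pow_right₀ (by linarith) (by omega)
            · have := hb0 k
              positivity
        _ ≤ b k * (1 + c) * (2 + c) ^ k / x * u ^ k := by
            have h8 : u ^ k = u ^ (k - 1) * u := by
              rw [← pow_succ]
              congr 1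
              omega
            have h9 := hb0 k
            rw [h8, div_mul_eq_mul_div, le_div_iff₀ hx0]
            have h10 : u ^ (k - 1) * x ≤ u ^ (k - 1) * u := mul_le_mul_of_nonneg_left hux (by positivity)
            calc b k * (1 + c) * (2 + c) ^ k * u ^ (k - 1) * x = b k * (1 + c) * (2 + c) ^ k * (u ^ (k - 1) * x) := by ring
              _ ≤ _ := mul_le_mul_of_nonneg_left h10 (by positivity)
  have e4 : |(gm k : ℝ) * (y ^ k - 1 ^ k)| ≤ (gm k : ℝ) * (c * k * (1 + c) ^ (k - 1)) / x := by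
    rw [abs_mul, abs_of_nonneg (Nat.cast_nonneg (gm k) : (0 : ℝ) ≤ _), mul_div_assoc]
    refine mul_le_mul_of_nonneg_left ?_ (Nat.cast_nonneg _)
    have h2 := abs_pow_sub_pow_le y 1 k
    refine h2.trans ?_
    have h3 : max |y| |1| ≤ 1 + c := by
      rw [abs_one, abs_of_nonneg hy0]
      exact max_le hy1 (by linarith)
    calc |y - 1| * k * max |y| |1| ^ (k - 1) ≤ c / x * k * (1 + c) ^ (k - 1) := by
          refine mul_le_mul (mul_le_mul_of_nonneg_right hyd (Nat.cast_nonneg _)) (pow_le_pow_left₀ (by positivity) h3 _) (by positivity) (by positivity)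
      _ = _ := by ring
  rw [← hu, e2]
  refine (abs_add_le _ _).trans ((add_le_add e3 e4).trans ?_)
  rw [← add_div]
  exact div_le_div_of_nonneg_right (hKk k hk) hx0.le

end Q282AE
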