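import Pool.Agent.Q282.AE.Ave
import Pool.Agent.Q282.GH.Main

/-!
# Values of polynomials of bounded degree at points over a finite field
-/

set_option autoImplicit false
set_option linter.unusedSectionVars false

namespace Q282AE

open Finset MvPolynomial

section filtration

variable {k : Type} [Field k] {M : ℕ} {R : Type} [CommRing R] [Algebra k R]

/-- the values of the polynomials of degree at most `j` -/
noncomputable def img (y : Fin M → R) (j : ℕ) : Submodule k R :=
  (restrictTotalDegree (Fin M) k j).map (aeval y : MvPolynomial (Fin M) k →ₐ[k] R).toLinearMap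

lemma mem_img (y : Fin M → R) (j : ℕ) (a : R) : a ∈ img (k := k) y j ↔ ∃ p : MvPolynomial (Fin M) k, p.totalDegree ≤ j ∧ aeval y p = a := by
  unfold img
  rw [Submodule.mem_map]
  constructor
  · rintro ⟨p, hp, rfl⟩
    exact ⟨p, (mem_restrictTotalDegree _ _ _).1 hp, rfl⟩
  · rintro ⟨p, hp, rfl⟩
    exact ⟨p, (mem_restrictTotalDegree _ _ _).2 hp, rfl⟩

lemma img_mono (y : Fin M → R) (j : ℕ) : img (k := k) y j ≤ img y (j + 1) := by
  intro a ha
  rw [mem_img] at ha ⊢
  obtain ⟨p, hp, rfl⟩ := ha
  exact ⟨p, by omega, rfl⟩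

lemma img_top (y : Fin M → R) (hy : Function.Surjective (aeval y : MvPolynomial (Fin M) k →ₐ[k] R)) (j : ℕ)
    (h : img (k := k) y (j + 1) ≤ img y j) : img (k := k) y j = ⊤ := by
  have key : ∀ p : MvPolynomial (Fin M) k, aeval y p ∈ img (k := k) y j := by
    intro p
    induction p using MvPolynomial.induction_on with
    | C a =>
      rw [mem_img]
      exact ⟨C a, by rw [totalDegree_C]; exact Nat.zero_le _, rfl⟩
    | add p q hp hq =>
      rw [map_add]
      exact Submodule.add_mem _ hp hq
    | mul_X p i hp =>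
      apply h
      rw [mem_img] at hp ⊢
      obtain ⟨p', hp', he⟩ := hp
      refine ⟨p' * X i, ?_, ?_⟩
      · refine (totalDegree_mul _ _).trans ?_
        have : (X i : MvPolynomial (Fin M) k).totalDegree ≤ 1 := by
          refine (totalDegree_monomial_le _ _).trans ?_
          simp
        omega
      · rw [map_mul, he, map_mul]
  rw [eq_top_iff]
  rintro a -
  obtain ⟨p, rfl⟩ := hy a
  exact key p

lemma img_rank [Nontrivial R] [Module.Finite k R] (y : Fin M → R) (hy : Function.Surjective (aeval y : MvPolynomial (Fin M) k →ₐ[k] R))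
    (j : ℕ) : img (k := k) y j = ⊤ ∨ j + 1 ≤ Module.finrank k (img (k := k) y j) := by
  induction j with
  | zero =>
    right
    have h1 : (1 : R) ∈ img (k := k) y 0 := by
      rw [mem_img]
      exact ⟨1, by rw [totalDegree_one], map_one _⟩
    rw [zero_add, Nat.one_le_iff_ne_zero]
    intro h0
    have := (Submodule.finrank_eq_zero (S := img (k := k) y 0)).1 h0
    rw [this, Submodule.mem_bot] at h1
    exact one_ne_zero h1
  | succ j ih =>
    by_cases hle : img (k := k) y (j + 1) ≤ img y j
    · left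
      have h1 := img_top y hy j hle
      rw [eq_top_iff, ← h1]
      exact img_mono y j
    · rcases ih with ih | ih
      · exact absurd (by rw [ih]; exact le_top) hle
      · right
        have hlt : img (k := k) y j < img y (j + 1) := lt_of_le_not_ge (img_mono y j) hle
        have := Submodule.finrank_lt_finrank_of_lt hlt
        omega

theorem img_full [Nontrivial R] [Module.Finite k R] (y : Fin M → R)
    (hy : Function.Surjective (aeval y : MvPolynomial (Fin M) k →ₐ[k] R)) (j : ℕ) (hj : Module.finrank k R ≤ j + 1) (a : R) :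
    ∃ p : MvPolynomial (Fin M) k, p.totalDegree ≤ j ∧ aeval y p = a := by
  have h1 : img (k := k) y j = ⊤ := by
    rcases img_rank y hy j with h | h
    · exact h
    · exact Submodule.eq_top_of_finrank_eq (le_antisymm (Submodule.finrank_le _) (hj.trans h))
  rw [← mem_img, h1]
  exact Submodule.mem_top

end filtration

section points

variable {k : Type} [Field k] {M : ℕ} {F : Type} [Field F] [Algebra k F]

/-- the coordinates of the point generate the field -/
def Gen (k : Type) [Field k] {M : ℕ} {F : Type} [Field F] [Algebra k F] (x : Fin M → F) : Prop :=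
  Function.Surjective (aeval x : MvPolynomial (Fin M) k →ₐ[k] F)

/-- the ideal of a point -/
noncomputable def idl (k : Type) [Field k] {M : ℕ} {F : Type} [Field F] [Algebra k F] (x : Fin M → F) : Ideal (MvPolynomial (Fin M) k) :=
  RingHom.ker (aeval x : MvPolynomial (Fin M) k →ₐ[k] F)

lemma idl_max {x : Fin M → F} (hx : Gen k x) : (idl k x).IsMaximal :=
  RingHom.ker_isMaximal_of_surjective (aeval x : MvPolynomial (Fin M) k →ₐ[k] F) hx

theorem surj_two [Module.Finite k F] {x x' : Fin M → F} (hx : Gen k x) (hx' : Gen k x') (hne : idl k x ≠ idl k x') (n : ℕ)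
    (hn : 2 * Module.finrank k F ≤ n + 1) (t : F) : ∃ p : MvPolynomial (Fin M) k, p.totalDegree ≤ n ∧ aeval x p = t ∧ aeval x' p = 0 := by
  have h1 := Ideal.IsMaximal.coprime_of_ne (idl_max hx) (idl_max hx') hne
  have h2 : (1 : MvPolynomial (Fin M) k) ∈ idl k x ⊔ idl k x' := by
    rw [h1]
    exact Submodule.mem_top
  obtain ⟨a, ha, b, hb, hab⟩ := Submodule.mem_sup.1 h2
  have ha' : aeval x a = 0 := ha
  have hb' : aeval x' b = 0 := hb
  have hb1 : aeval x b = (1 : F) := by
    have := congrArg (aeval x : MvPolynomial (Fin M) k →ₐ[k] F) hab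
    rw [map_add, ha', zero_add, map_one] at this
    exact this
  have ha1 : aeval x' a = (1 : F) := by
    have := congrArg (aeval x' : MvPolynomial (Fin M) k →ₐ[k] F) hab
    rw [map_add, hb', add_zero, map_one] at this
    exact this
  obtain ⟨y, hy⟩ : ∃ y : Fin M → F × F, y = fun i => (x i, x' i) := ⟨_, rfl⟩
  have hev : ∀ p : MvPolynomial (Fin M) k, aeval y p = ((aeval x p : F), (aeval x' p : F)) := by
    intro p
    have h3 : (aeval y : MvPolynomial (Fin M) k →ₐ[k] F × F) = (aeval x : MvPolynomial (Fin M) k →ₐ[k] F).prod (aeval x') := by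
      refine algHom_ext fun i => ?_
      rw [aeval_X, AlgHom.prod_apply, aeval_X, aeval_X, hy]
    rw [h3, AlgHom.prod_apply]
  have hsur : Function.Surjective (aeval y : MvPolynomial (Fin M) k →ₐ[k] F × F) := by
    rintro ⟨s, s'⟩
    obtain ⟨p, hp⟩ := hx s
    obtain ⟨p', hp'⟩ := hx' s'
    refine ⟨p * b + p' * a, ?_⟩
    rw [hev, map_add, map_mul, map_mul, map_add, map_mul, map_mul, hp, hp', ha', hb', ha1, hb1]
    simp
  obtain ⟨p, hp1, hp2⟩ := img_full y hsur n (by rw [Module.finrank_prod]; omega) (t, 0)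
  rw [hev] at hp2
  exact ⟨p, hp1, (Prod.ext_iff.1 hp2).1, (Prod.ext_iff.1 hp2).2⟩

theorem surj_one [Module.Finite k F] {x : Fin M → F} (hx : Gen k x) (n : ℕ)
    (hn : Module.finrank k F ≤ n + 1) (t : F) : ∃ p : MvPolynomial (Fin M) k, p.totalDegree ≤ n ∧ aeval x p = t :=
  img_full x hx n hn t

/-- conjugate points -/
theorem card_conj [Fintype F] [Module.Finite k F] {x : Fin M → F} (hx : Gen k x) :
    Nat.card {x' : Fin M → F // idl k x' = idl k x} ≤ Module.finrank k F := by
  classical
  have hf : ∀ x' : {x' : Fin M → F // idl k x' = idl k x}, ∃ g : F →ₐ[k] F, ∀ i, g (x i) = x'.1 i := by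
    rintro ⟨x', hx'⟩
    have h1 : ∀ p ∈ RingHom.ker (aeval x : MvPolynomial (Fin M) k →ₐ[k] F), aeval x' p = (0 : F) := by
      intro p hp
      have : p ∈ idl k x' := by
        rw [hx']
        exact hp
      exact this
    refine ⟨((Ideal.Quotient.liftₐ _ (aeval x' : MvPolynomial (Fin M) k →ₐ[k] F) h1).comp
      (Ideal.quotientKerAlgEquivOfSurjective (f := (aeval x : MvPolynomial (Fin M) k →ₐ[k] F)) hx).symm.toAlgHom), ?_⟩
    intro i
    have h2 : (Ideal.quotientKerAlgEquivOfSurjective (f := (aeval x : MvPolynomial (Fin M) k →ₐ[k] F)) hx).symm (x i) =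
        Ideal.Quotient.mk _ (X i) := by
      rw [AlgEquiv.symm_apply_eq]
      have := Ideal.quotientKerAlgEquivOfSurjective_mk (f := (aeval x : MvPolynomial (Fin M) k →ₐ[k] F)) hx (X i)
      rw [aeval_X] at this
      exact this.symm
    have h3 : (((Ideal.Quotient.liftₐ _ (aeval x' : MvPolynomial (Fin M) k →ₐ[k] F) h1).comp
      (Ideal.quotientKerAlgEquivOfSurjective (f := (aeval x : MvPolynomial (Fin M) k →ₐ[k] F)) hx).symm.toAlgHom)) (x i) =
      (Ideal.Quotient.liftₐ _ (aeval x' : MvPolynomial (Fin M) k →ₐ[k] F) h1)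
        ((Ideal.quotientKerAlgEquivOfSurjective (f := (aeval x : MvPolynomial (Fin M) k →ₐ[k] F)) hx).symm (x i)) := rfl
    rw [h3, h2]
    have h4 : (Ideal.Quotient.liftₐ _ (aeval x' : MvPolynomial (Fin M) k →ₐ[k] F) h1) (Ideal.Quotient.mk _ (X i)) = aeval x' (X i : MvPolynomial (Fin M) k) := rfl
    rw [h4, aeval_X]
  choose g hg using hf
  have hinj : Function.Injective g := by
    intro a b hab
    apply Subtype.ext
    funext i
    rw [← hg a i, ← hg b i, hab]
  have h1 := Nat.card_le_card_of_injective g hinj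
  refine h1.trans ?_
  rw [Nat.card_eq_fintype_card]
  exact AlgHom.card_le

end points

section counts

variable {k : Type} [Field k] [Fintype k] {M : ℕ} {F : Type} [Field F] [Fintype F] [DecidableEq F] [Algebra k F]

open Classical in
lemma card_roots (e : ℕ) (he : 1 ≤ e) : ((univ : Finset F).filter fun y => y ^ (Fintype.card k ^ e) = y).card ≤ Fintype.card k ^ e := by
  have hq : 1 < Fintype.card k ^ e := Nat.one_lt_pow (by omega) Fintype.one_lt_card
  obtain ⟨P, hP⟩ : ∃ P : Polynomial F, P = Polynomial.X ^ (Fintype.card k ^ e) - Polynomial.X := ⟨_, rfl⟩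
  have hd : P.natDegree = Fintype.card k ^ e := by
    rw [hP]
    exact FiniteField.X_pow_card_sub_X_natDegree_eq F hq
  have h0 : P ≠ 0 := by
    rw [hP]
    exact FiniteField.X_pow_card_sub_X_ne_zero F hq
  have h1 : ((univ : Finset F).filter fun y => y ^ (Fintype.card k ^ e) = y) ⊆ P.roots.toFinset := by
    intro y hy
    rw [mem_filter] at hy
    rw [Multiset.mem_toFinset, Polynomial.mem_roots h0, Polynomial.IsRoot.def, hP, Polynomial.eval_sub, Polynomial.eval_pow,
      Polynomial.eval_X, hy.2, sub_self]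
  refine (card_le_card h1).trans ((Multiset.toFinset_card_le _).trans ?_)
  rw [← hd]
  exact P.card_roots'

lemma not_gen {x : Fin M → F} (hx : ¬ Gen k x) : ∃ e : ℕ, 1 ≤ e ∧ 2 * e ≤ Module.finrank k F ∧ ∀ i, x i ^ (Fintype.card k ^ e) = x i := by
  classical
  obtain ⟨L, hL⟩ : ∃ L : IntermediateField k F, L = IntermediateField.adjoin k (Set.range x) := ⟨_, rfl⟩
  have hfin : Module.Finite k F := Module.Finite.of_finite
  have hLtop : L ≠ ⊤ := by
    intro h0
    apply hx
    have h1 : Algebra.adjoin k (Set.range x) = ⊤ := by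
      rw [← IntermediateField.adjoin_toSubalgebra, ← hL, h0, IntermediateField.top_toSubalgebra]
    intro y
    have h2 : y ∈ Algebra.adjoin k (Set.range x) := by
      rw [h1]
      exact Algebra.mem_top
    rw [Algebra.adjoin_range_eq_range_aeval] at h2
    exact h2
  have hmul : Module.finrank k L * Module.finrank L F = Module.finrank k F := Module.finrank_mul_finrank k L F
  have hpos : 0 < Module.finrank k L := Module.finrank_pos
  have hpos2 : 0 < Module.finrank L F := Module.finrank_pos
  have hne1 : Module.finrank L F ≠ 1 := by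
    intro h1
    exact hLtop (IntermediateField.finrank_eq_one_iff_eq_top.1 h1)
  refine ⟨Module.finrank k L, hpos, ?_, ?_⟩
  · rw [← hmul, mul_comm]
    exact Nat.mul_le_mul_left _ (by omega)
  · intro i
    have hxi : x i ∈ L := by
      rw [hL]
      exact IntermediateField.subset_adjoin _ _ ⟨i, rfl⟩
    have hfl : Fintype L := Fintype.ofFinite L
    have h1 := FiniteField.pow_card (⟨x i, hxi⟩ : L)
    have h2 : Fintype.card L = Fintype.card k ^ Module.finrank k L := Module.card_eq_pow_finrank
    rw [h2] at h1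
    have h3 := congrArg (fun z : L => (z : F)) h1
    exact h3

open Classical in
/-- the points whose coordinates do not generate the field -/
theorem card_not_gen (hM : 1 ≤ M) : (Nat.card {x : Fin M → F // ¬ Gen k x} : ℝ) ≤ 2 * (Fintype.card k : ℝ) ^ (M * (Module.finrank k F / 2)) := by
  obtain ⟨m, hm⟩ : ∃ m, m = Module.finrank k F := ⟨_, rfl⟩
  have h1 : (univ.filter fun x : Fin M → F => ¬ Gen k x) ⊆ (range (m / 2 + 1)).biUnion fun e =>
      if 1 ≤ e then Fintype.piFinset fun _ : Fin M => (univ : Finset F).filter fun y => y ^ (Fintype.card k ^ e) = y else ∅ := by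
    intro x hx
    rw [mem_filter] at hx
    obtain ⟨e, he1, he2, he3⟩ := not_gen hx.2
    rw [mem_biUnion]
    refine ⟨e, ?_, ?_⟩
    · rw [mem_range]
      omega
    · rw [if_pos he1, Fintype.mem_piFinset]
      intro i
      rw [mem_filter]
      exact ⟨mem_univ _, he3 i⟩
  have hq2 : (2 : ℝ) ≤ (Fintype.card k : ℝ) := by exact_mod_cast Fintype.one_lt_card
  obtain ⟨Q, hQ⟩ : ∃ Q : ℝ, Q = (Fintype.card k : ℝ) ^ M := ⟨_, rfl⟩
  have hQ2 : 2 ≤ Q := by
    rw [hQ]
    calc (2 : ℝ) ≤ (Fintype.card k : ℝ) := hq2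
      _ = (Fintype.card k : ℝ) ^ 1 := (pow_one _).symm
      _ ≤ _ := pow_le_pow_right₀ (by linarith) hM
  rw [Nat.card_eq_fintype_card, Fintype.card_subtype]
  have h2 : (((univ.filter fun x : Fin M → F => ¬ Gen k x).card : ℕ) : ℝ) ≤ ∑ e ∈ range (m / 2 + 1), Q ^ e := by
    have h3 := (card_le_card h1).trans card_biUnion_le
    have h4 : ∀ e ∈ range (m / 2 + 1), (((if 1 ≤ e then Fintype.piFinset fun _ : Fin M => (univ : Finset F).filter fun y => y ^ (Fintype.card k ^ e) = y
        else ∅ : Finset (Fin M → F)).card : ℕ) : ℝ) ≤ Q ^ e := by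
      intro e _
      split_ifs with he
      · rw [Fintype.card_piFinset, prod_const, card_univ, Fintype.card_fin, hQ, ← pow_mul, mul_comm, pow_mul]
        push_cast
        refine pow_le_pow_left₀ (by positivity) ?_ _
        exact_mod_cast card_roots (k := k) (F := F) e he
      · rw [card_empty, Nat.cast_zero]
        positivity
    calc (((univ.filter fun x : Fin M → F => ¬ Gen k x).card : ℕ) : ℝ) ≤ ((∑ e ∈ range (m / 2 + 1), (if 1 ≤ e then Fintype.piFinset fun _ : Fin M =>
          (univ : Finset F).filter fun y => y ^ (Fintype.card k ^ e) = y else ∅ : Finset (Fin M → F)).card : ℕ) : ℝ) := by exact_mod_cast h3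
      _ ≤ _ := by
        push_cast
        exact sum_le_sum h4
  refine h2.trans ?_
  rw [pow_mul, ← hQ, ← hm]
  have h5 : ∀ N : ℕ, ∑ e ∈ range (N + 1), Q ^ e ≤ 2 * Q ^ N := by
    intro N
    induction N with
    | zero => norm_num
    | succ N ih =>
      rw [sum_range_succ]
      have h6 : 0 < Q ^ N := by positivity
      have h7 : 2 * Q ^ N ≤ Q ^ (N + 1) := by
        rw [pow_succ, mul_comm]
        exact mul_le_mul_of_nonneg_left hQ2 h6.le
      linarith
  exact h5 _

end counts

end Q282AE
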