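import Pool.Agent.Q282.AE.Sum

/-!
# The members of a family over a rational function field in positive characteristic
-/

set_option autoImplicit false
set_option linter.unusedSectionVars false

namespace Q282AE

open Finset MvPolynomial
open Q282GH (zeros)
open Q282GP (oc tt kun coh)

variable {k : Type} [Field k] {M n : ℕ} {A : Type} {ι : A → Type} [∀ a, Fintype (ι a)]

/-- the equations of the member with the coefficients `c`: the equations `E` and the sums `∑ c_(a,j) f_(a,j)` -/
noncomputable def member (E : Set (MvPolynomial (Fin (n + 1)) (MvPolynomial (Fin M) k)))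
    (f : (a : A) → ι a → MvPolynomial (Fin (n + 1)) (MvPolynomial (Fin M) k)) (c : (Σ a, ι a) → MvPolynomial (Fin M) k) :
    Set (MvPolynomial (Fin (n + 1)) (MvPolynomial (Fin M) k)) :=
  Set.range (fun a => ∑ j, C (c ⟨a, j⟩) * f a j) ∪ E

/-- the point `x` of affine space belongs to the open set `Δ ≠ 0` of the member with the coefficients `c` -/
def Good (Δ : MvPolynomial (Σ a, ι a) (MvPolynomial (Fin M) k)) (c : (Σ a, ι a) → MvPolynomial (Fin M) k)
    {F : Type} [Field F] [Algebra k F] (x : Fin M → F) : Prop :=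
  eval₂ (ev x) (fun s => ev x (c s)) Δ ≠ 0

variable (Fm : ℕ → Type) [∀ m, Field (Fm m)] [∀ m, Algebra k (Fm m)]

/-- `α m x` is a multiset of `b` numbers of absolute value at most `q^(m D / 2)` that satisfy the trace formula for the number of
the points with values in `Fm m` of the fibre over `x`, for all `m ≥ 1` and all points `x` of the open set -/
structure IsFrobenius (w : ℕ → ℕ) (D r b : ℕ) (E : Set (MvPolynomial (Fin (n + 1)) (MvPolynomial (Fin M) k)))
    (f : (a : A) → ι a → MvPolynomial (Fin (n + 1)) (MvPolynomial (Fin M) k))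
    (Δ : MvPolynomial (Σ a, ι a) (MvPolynomial (Fin M) k)) (c : (Σ a, ι a) → MvPolynomial (Fin M) k)
    (α : (m : ℕ) → (Fin M → Fm m) → Multiset ℂ) : Prop where
  card : ∀ m, 1 ≤ m → ∀ x : Fin M → Fm m, Good Δ c x → (α m x).card = b
  norm : ∀ m, 1 ≤ m → ∀ x : Fin M → Fm m, Good Δ c x → ∀ a ∈ α m x, ‖a‖ ≤ Real.sqrt (Nat.card (Fm m)) ^ D
  trace : ∀ m, 1 ≤ m → ∀ x : Fin M → Fm m, Good Δ c x →
    (zeros (ev x) (member E f c) : ℂ) = ((tt w D r (Nat.card (Fm m)) : ℝ) : ℂ) + (-1) ^ D * (α m x).sum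

/-- the sum over the points with values in `Fm m` of the open set of the traces on the cohomology in degree `2 i` of the `ν`-th
power of the fibre -/
noncomputable def traceSum (w : ℕ → ℕ) (D r ν i : ℕ) (Δ : MvPolynomial (Σ a, ι a) (MvPolynomial (Fin M) k))
    (c : (Σ a, ι a) → MvPolynomial (Fin M) k) (α : (m : ℕ) → (Fin M → Fm m) → Multiset ℂ) (m : ℕ) : ℂ :=
  ∑ᶠ x : {x : Fin M → Fm m // Good Δ c x}, (kun (coh w D r (Nat.card (Fm m)) (α m x.1)) ν (2 * i)).sum

/-- the power sums `A m` belong to `∏ (1 - β' u) / (∏ (1 - γ u) ∏ (1 - β u))`, where the `γ` have absolute value `Q`, the `β` and the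
`β'` at most `Q / √q`, and the characteristic polynomial of the `γ` has integer coefficients -/
structure IsLFunction (A : ℕ → ℂ) (q Q B₁ : ℝ) (B₂ : ℕ) (γ β β' : Multiset ℂ) : Prop where
  sum : ∀ m, 1 ≤ m → A m = (γ.map fun g => g ^ m).sum + (β.map fun g => g ^ m).sum - (β'.map fun g => g ^ m).sum
  top : ∀ g ∈ γ, ‖g‖ = Q
  low : ∀ g ∈ β + β', ‖g‖ ≤ Q / Real.sqrt q
  int : ∃ P : Polynomial ℤ, P.map (Int.castRingHom ℂ) = (γ.map fun g => Polynomial.X - Polynomial.C g).prod
  card : γ.card ≤ B₂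
  num : ((β + β').card : ℝ) ≤ B₁

end Q282AE
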