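import Pool.Agent.Q282.AE.Var
import Pool.Agent.Q282.GP.Main

/-!
# The averages of the traces over the points with values in a finite field
-/

set_option autoImplicit false
set_option linter.unusedSectionVars false

namespace Q282AE

open Finset MvPolynomial
open Q282MM (gm)
open Q282GH (zeros Through)
open Q282GP (av av_add av_sub av_smul av_sum av_const av_nonneg av_mono abs_av av_indep gen fam tt vv oser cc TT mid expand)

section

variable {k : Type} [Field k] {M : ℕ} {F : Type} [Field F] [Algebra k F]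

/-- evaluation at a point -/
noncomputable def ev (x : Fin M → F) : MvPolynomial (Fin M) k →+* F := ((aeval x : MvPolynomial (Fin M) k →ₐ[k] F) : MvPolynomial (Fin M) k →+* F)

lemma ev_apply (x : Fin M → F) (p : MvPolynomial (Fin M) k) : ev x p = aeval x p := rfl

lemma ev_surj {x : Fin M → F} (hx : Gen k x) : Function.Surjective (ev (k := k) x) := hx

variable {A : Type} [Fintype A] {ι : A → Type} [∀ a, Fintype (ι a)] {n : ℕ}

/-- the normalised trace in the middle degree -/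
noncomputable def tau (w : ℕ → ℕ) (D r : ℕ) (E : Set (MvPolynomial (Fin (n + 1)) (MvPolynomial (Fin M) k)))
    (f : (a : A) → ι a → MvPolynomial (Fin (n + 1)) (MvPolynomial (Fin M) k)) (x : Fin M → F) (u : (Σ a, ι a) → F) : ℝ :=
  ((zeros (eval₂Hom (ev x) u) (fam E f) : ℝ) - tt w D r (Nat.card F)) / Real.sqrt (Nat.card F) ^ D

open Classical in
/-- the normalised trace on the cohomology of the power, zero outside the open set -/
noncomputable def XX (w : ℕ → ℕ) (D r ν i : ℕ) (E : Set (MvPolynomial (Fin (n + 1)) (MvPolynomial (Fin M) k)))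
    (f : (a : A) → ι a → MvPolynomial (Fin (n + 1)) (MvPolynomial (Fin M) k)) (Δ : MvPolynomial (Σ a, ι a) (MvPolynomial (Fin M) k))
    (x : Fin M → F) (u : (Σ a, ι a) → F) : ℝ :=
  if eval₂ (ev x) u Δ = 0 then 0 else ∑ κ ∈ range (ν + 1), (cc w D r ν i κ : ℝ) * tau w D r E f x u ^ κ

end

variable {k : Type} [Field k] [Fintype k] {M : ℕ} {A : Type} [Fintype A] [DecidableEq A] {ι : A → Type} [∀ a, Fintype (ι a)]
  [∀ a, DecidableEq (ι a)] {n : ℕ}

open Classical in
/-- **The averages over the boxes.** -/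
theorem avsum (D : ℕ) (hD : 1 ≤ D) (r : ℕ) (hr : 1 ≤ r) (hA : Fintype.card A = r) (w : ℕ → ℕ) (hw : w (D + r) = 1) (C₀ C₁ : ℝ)
    (ν : ℕ) (hν : 1 ≤ ν) (i : ℕ) (hM : 1 ≤ M) {J : Type} {h : J → MvPolynomial (Fin (n + 1)) (MvPolynomial (Fin M) k)} {e : J → ℕ} {d : A → ℕ}
    {f : (a : A) → ι a → MvPolynomial (Fin (n + 1)) (MvPolynomial (Fin M) k)} (hh : ∀ j, (h j).IsHomogeneous (e j))
    (hd : ∀ j a, e j + 2 * ν ≤ d a + 1) (hf : ∀ a, Through h (d a) (f a)) (E : Set (MvPolynomial (Fin (n + 1)) (MvPolynomial (Fin M) k)))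
    (Δ : MvPolynomial (Σ a, ι a) (MvPolynomial (Fin M) k)) (z : ℕ → ℕ) :
    ∃ K₀ C : ℝ, 0 ≤ K₀ ∧ 0 ≤ C ∧ ∀ {F : Type} [Field F] [Fintype F] [Algebra k F],
      (∀ x : Fin M → F, map (ev x) Δ ≠ 0 → |(zeros (ev x) E : ℝ) - ∑ j ∈ range (D + r + 1), w j * (Nat.card F : ℝ) ^ j| ≤
        C₀ * Real.sqrt (Nat.card F) ^ (2 * r + D - 1)) →
      (∀ x : Fin M → F, map (ev x) Δ ≠ 0 → (zeros (ev x) (E ∪ Set.range h) : ℝ) ≤ C₁ * Real.sqrt (Nat.card F) ^ D) →
      (∀ l ≤ ν, |∑ x : Fin M → F, (if map (ev x) Δ = 0 then (0 : ℝ) else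
          ((zeros (ev x) (E ∪ Set.range h) : ℝ) / Real.sqrt (Nat.card F) ^ D) ^ l) - z l * (Nat.card F : ℝ) ^ M| ≤
        C₁ * (Nat.card F : ℝ) ^ M / Real.sqrt (Nat.card F)) →
      (∀ x : Fin M → F, Gen k x → av (fun u => XX w D r ν i E f Δ x u ^ 2) ≤ C) ∧
      |∑ x ∈ univ.filter (Gen k (F := F) (M := M)), av (XX w D r ν i E f Δ x) - (∑ l ∈ range (ν + 1), (TT w D r ν i l * z l : ℕ) : ℝ) * (Nat.card F : ℝ) ^ M| ≤
        K₀ * (Nat.card F : ℝ) ^ M / Real.sqrt (Nat.card F) := by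
  obtain ⟨K, hK0, hK⟩ := good_mom D r hD hr w hw |C₀| |C₁| Δ.totalDegree (abs_nonneg _) (abs_nonneg _) (Nat.cast_nonneg _) ν hν
  obtain ⟨c₁, hc₁⟩ : ∃ c₁ : ℝ, c₁ = ∑ κ ∈ range (ν + 1), (cc w D r ν i κ : ℝ) := ⟨_, rfl⟩
  obtain ⟨c₂, hc₂⟩ : ∃ c₂ : ℝ, c₂ = ∑ κ ∈ range (ν + 1), (cc w D r ν i κ : ℝ) ^ 2 := ⟨_, rfl⟩
  obtain ⟨c₃, hc₃⟩ : ∃ c₃ : ℝ, c₃ = ∑ l ∈ range (ν + 1), (TT w D r ν i l : ℝ) := ⟨_, rfl⟩
  have hc₁0 : 0 ≤ c₁ := by
    rw [hc₁]
    positivity
  have hc₂0 : 0 ≤ c₂ := by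
    rw [hc₂]
    positivity
  have hc₃0 : 0 ≤ c₃ := by
    rw [hc₃]
    positivity
  obtain ⟨Z₁, hZ₁⟩ : ∃ Z₁ : ℝ, Z₁ = (1 + |C₁|) ^ ν := ⟨_, rfl⟩
  have hZ₁0 : 0 ≤ Z₁ := by
    rw [hZ₁]
    positivity
  refine ⟨c₁ * K + 2 * (c₃ * Z₁) + c₃ * |C₁|, ((ν + 1 : ℕ) : ℝ) * (c₂ * K), by positivity, by positivity, ?_⟩
  intro F _ _ _ hW hZ1 hZ
  rw [Nat.card_eq_fintype_card] at *
  have hp0 : (0 : ℝ) < Fintype.card F := card_pos
  have hp1 : (1 : ℝ) ≤ Fintype.card F := card_one
  obtain ⟨s, hs⟩ : ∃ s : ℝ, s = Real.sqrt (Fintype.card F) := ⟨_, rfl⟩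
  have hs1 : 1 ≤ s := by
    rw [hs]
    exact Real.one_le_sqrt.2 hp1
  have hs0 : 0 < s := by linarith
  have hsp : (Fintype.card F : ℝ) = s ^ 2 := by
    rw [hs, Real.sq_sqrt hp0.le]
  -- one point
  have hbad : ∀ x : Fin M → F, map (ev x) Δ ≠ 0 → ((univ.filter fun u : (Σ a, ι a) → F => eval₂ (ev x) u Δ = 0).card : ℝ) ≤
      (Δ.totalDegree : ℝ) * (Fintype.card F : ℝ) ^ Fintype.card (Σ a, ι a) / Fintype.card F := by
    intro x hx
    have h1 := Q282GH.sz (map (ev x) Δ) hx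
    rw [le_div_iff₀ hp0]
    rw [Nat.card_eq_fintype_card, Fintype.card_subtype] at h1
    have h2 : (univ.filter fun u : (Σ a, ι a) → F => eval u (map (ev x) Δ) = 0) = univ.filter fun u => eval₂ (ev x) u Δ = 0 := by
      refine filter_congr fun u _ => ?_
      rw [MvPolynomial.eval_map]
    rw [h2] at h1
    refine h1.trans (mul_le_mul_of_nonneg_right ?_ (by positivity))
    have h3 : (map (ev x) Δ).totalDegree ≤ Δ.totalDegree := by
      unfold totalDegree
      exact Finset.sup_mono (support_map_subset _ _)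
    exact_mod_cast h3
  have hmom : ∀ x : Fin M → F, Gen k x → map (ev x) Δ ≠ 0 → ∀ κ ≤ ν,
      |av (fun u => if eval₂ (ev x) u Δ = 0 then 0 else tau w D r E f x u ^ κ) -
        ∑ l ∈ range (ν + 1), (mid (vv w D r) κ l : ℝ) * ((zeros (ev x) (E ∪ Set.range h) : ℝ) / s ^ D) ^ l| ≤ K / s ∧
      av (fun u => (tau w D r E f x u ^ κ) ^ 2) ≤ K := by
    intro x hx hΔ κ hκ
    have h1 := hK (ev x) (ev_surj hx) hA hh hd hf E (fun u => eval₂ (ev x) u Δ = 0) (hbad x hΔ)
      ((hW x hΔ).trans (mul_le_mul_of_nonneg_right (le_abs_self _) (by positivity)))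
      ((hZ1 x hΔ).trans (mul_le_mul_of_nonneg_right (le_abs_self _) (by positivity))) κ hκ
    rw [← hs] at h1
    rw [← expand _ _ κ ν hκ]
    unfold tau
    rw [Nat.card_eq_fintype_card, ← hs]
    exact h1
  have hXX : ∀ (x : Fin M → F) (u : (Σ a, ι a) → F), XX w D r ν i E f Δ x u =
      ∑ κ ∈ range (ν + 1), (cc w D r ν i κ : ℝ) * (if eval₂ (ev x) u Δ = 0 then 0 else tau w D r E f x u ^ κ) := by
    intro x u
    unfold XX
    split_ifs
    · simp
    · rfl
  have hX0 : ∀ x : Fin M → F, map (ev x) Δ = 0 → ∀ u : (Σ a, ι a) → F, XX w D r ν i E f Δ x u = 0 := by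
    intro x hx u
    unfold XX
    rw [if_pos]
    rw [← MvPolynomial.eval_map, hx, map_zero]
  refine ⟨?_, ?_⟩
  · intro x hx
    by_cases hΔ : map (ev x) Δ = 0
    · have h1 : (fun u : (Σ a, ι a) → F => XX w D r ν i E f Δ x u ^ 2) = fun _ => 0 := by
        funext u
        rw [hX0 x hΔ u]
        norm_num
      rw [h1, av_const]
      positivity
    · have h1 : ∀ u : (Σ a, ι a) → F, XX w D r ν i E f Δ x u ^ 2 ≤
          ((ν + 1 : ℕ) : ℝ) * ∑ κ ∈ range (ν + 1), (cc w D r ν i κ : ℝ) ^ 2 * (tau w D r E f x u ^ κ) ^ 2 := by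
        intro u
        rw [hXX]
        have h2 := sq_sum_le_card_mul_sum_sq (s := range (ν + 1))
          (f := fun κ => (cc w D r ν i κ : ℝ) * (if eval₂ (ev x) u Δ = 0 then 0 else tau w D r E f x u ^ κ))
        rw [card_range] at h2
        refine h2.trans (mul_le_mul_of_nonneg_left (sum_le_sum fun κ _ => ?_) (Nat.cast_nonneg _))
        rw [mul_pow]
        refine mul_le_mul_of_nonneg_left ?_ (sq_nonneg _)
        split_ifs
        · rw [zero_pow two_ne_zero]
          exact sq_nonneg _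
        · exact le_rfl
      refine (av_mono _ _ h1).trans ?_
      rw [av_smul, av_sum]
      refine mul_le_mul_of_nonneg_left ?_ (Nat.cast_nonneg _)
      rw [hc₂, sum_mul]
      refine sum_le_sum fun κ hκ => ?_
      rw [mem_range] at hκ
      rw [av_smul]
      exact mul_le_mul_of_nonneg_left (hmom x hx hΔ κ (by omega)).2 (sq_nonneg _)
  · obtain ⟨ζ, hζ⟩ : ∃ ζ : (Fin M → F) → ℝ, ζ = fun x => (zeros (ev x) (E ∪ Set.range h) : ℝ) / s ^ D := ⟨_, rfl⟩
    obtain ⟨Y, hY⟩ : ∃ Y : (Fin M → F) → ℝ, Y = fun x => if map (ev x) Δ = 0 then 0 else ∑ l ∈ range (ν + 1), (TT w D r ν i l : ℝ) * ζ x ^ l := ⟨_, rfl⟩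
    have h1 : ∀ x : Fin M → F, Gen k x → |av (XX w D r ν i E f Δ x) - Y x| ≤ c₁ * K / s := by
      intro x hx
      by_cases hΔ : map (ev x) Δ = 0
      · have h2 : XX w D r ν i E f Δ x = fun _ => 0 := funext (hX0 x hΔ)
        rw [h2, av_const, hY]
        simp only [hΔ, if_true, sub_zero, abs_zero]
        positivity
      · have h2 : XX w D r ν i E f Δ x = fun u => ∑ κ ∈ range (ν + 1), (cc w D r ν i κ : ℝ) *
            (if eval₂ (ev x) u Δ = 0 then 0 else tau w D r E f x u ^ κ) := funext (hXX x)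
        rw [h2, av_sum]
        have h3 : Y x = ∑ κ ∈ range (ν + 1), (cc w D r ν i κ : ℝ) * ∑ l ∈ range (ν + 1), (mid (vv w D r) κ l : ℝ) * ζ x ^ l := by
          rw [hY]
          simp only [hΔ, if_false]
          simp only [mul_sum]
          rw [sum_comm]
          refine sum_congr rfl fun l _ => ?_
          unfold TT
          push_cast
          rw [sum_mul]
          refine sum_congr rfl fun κ _ => ?_
          ring
        rw [h3, ← sum_sub_distrib, mul_div_assoc, hc₁, sum_mul]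
        refine (abs_sum_le_sum_abs _ _).trans (sum_le_sum fun κ hκ => ?_)
        rw [mem_range] at hκ
        rw [av_smul, ← mul_sub, abs_mul, abs_of_nonneg (Nat.cast_nonneg _ : (0 : ℝ) ≤ _)]
        refine mul_le_mul_of_nonneg_left ?_ (Nat.cast_nonneg _)
        have h4 := (hmom x hx hΔ κ (by omega)).1
        rw [hζ]
        exact h4
    have hcardM : (Fintype.card (Fin M → F) : ℝ) = (Fintype.card F : ℝ) ^ M := by
      rw [Fintype.card_fun, Fintype.card_fin]
      push_cast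
      rfl
    have h2 : |∑ x ∈ univ.filter (Gen k (F := F) (M := M)), av (XX w D r ν i E f Δ x) - ∑ x ∈ univ.filter (Gen k (F := F) (M := M)), Y x| ≤
        c₁ * K * (Fintype.card F : ℝ) ^ M / s := by
      rw [← sum_sub_distrib]
      refine (abs_sum_le_sum_abs _ _).trans ?_
      have h3 : ∀ x ∈ univ.filter (Gen k (F := F) (M := M)), |av (XX w D r ν i E f Δ x) - Y x| ≤ c₁ * K / s := fun x hx =>
        h1 x (mem_filter.1 hx).2
      refine (sum_le_sum h3).trans ?_
      rw [sum_const, nsmul_eq_mul]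
      have h4 : (((univ.filter (Gen k (F := F) (M := M))).card : ℕ) : ℝ) ≤ (Fintype.card F : ℝ) ^ M := by
        rw [← hcardM]
        exact_mod_cast card_le_univ _
      calc _ ≤ (Fintype.card F : ℝ) ^ M * (c₁ * K / s) := mul_le_mul_of_nonneg_right h4 (by positivity)
        _ = _ := by ring
    have hζ1 : ∀ x : Fin M → F, map (ev x) Δ ≠ 0 → 0 ≤ ζ x ∧ ζ x ≤ |C₁| := by
      intro x hx
      rw [hζ]
      refine ⟨by positivity, ?_⟩
      simp only
      rw [div_le_iff₀ (by positivity)]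
      have h3 := hZ1 x hx
      rw [← hs] at h3
      exact h3.trans (mul_le_mul_of_nonneg_right (le_abs_self _) (by positivity))
    have hYb : ∀ x : Fin M → F, |Y x| ≤ c₃ * Z₁ := by
      intro x
      rw [hY]
      simp only
      split_ifs with hΔ
      · rw [abs_zero]
        positivity
      · rw [hc₃, sum_mul]
        refine (abs_sum_le_sum_abs _ _).trans (sum_le_sum fun l hl => ?_)
        rw [mem_range] at hl
        rw [abs_mul, abs_of_nonneg (Nat.cast_nonneg _ : (0 : ℝ) ≤ _)]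
        refine mul_le_mul_of_nonneg_left ?_ (Nat.cast_nonneg _)
        obtain ⟨h3, h4⟩ := hζ1 x hΔ
        rw [abs_of_nonneg (by positivity), hZ₁]
        have h5 : 0 ≤ |C₁| := abs_nonneg _
        exact (pow_le_pow_left₀ h3 (by linarith) l).trans (pow_le_pow_right₀ (by linarith) (by omega))
    have h3 : |∑ x ∈ univ.filter (Gen k (F := F) (M := M)), Y x - ∑ x, Y x| ≤ 2 * (c₃ * Z₁) * (Fintype.card F : ℝ) ^ M / s := by
      have h4 : ∑ x, Y x = ∑ x ∈ univ.filter (Gen k (F := F) (M := M)), Y x + ∑ x ∈ univ.filter (fun x => ¬ Gen k (F := F) (M := M) x), Y x :=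
        (sum_filter_add_sum_filter_not _ _ _).symm
      rw [h4, sub_add_cancel_left, abs_neg]
      refine (abs_sum_le_sum_abs _ _).trans ((sum_le_sum fun x _ => hYb x).trans ?_)
      rw [sum_const, nsmul_eq_mul]
      have h5 := card_not_gen (k := k) (F := F) hM
      rw [Nat.card_eq_fintype_card, Fintype.card_subtype] at h5
      have h6 : (Fintype.card k : ℝ) ^ (M * (Module.finrank k F / 2)) ≤ s ^ M := by
        have h7 : (Fintype.card F : ℝ) = (Fintype.card k : ℝ) ^ Module.finrank k F := by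
          have : Fintype.card F = Fintype.card k ^ Module.finrank k F := Module.card_eq_pow_finrank
          exact_mod_cast this
        rw [mul_comm, pow_mul]
        refine pow_le_pow_left₀ (by positivity) ?_ _
        rw [hs]
        refine Real.le_sqrt_of_sq_le ?_
        rw [h7, ← pow_mul]
        have : (1 : ℝ) ≤ Fintype.card k := by exact_mod_cast Fintype.one_lt_card.le
        exact pow_le_pow_right₀ this (by omega)
      have h7 : s ^ M ≤ (Fintype.card F : ℝ) ^ M / s := by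
        rw [le_div_iff₀ hs0, hsp, ← pow_mul]
        calc s ^ M * s = s ^ (M + 1) := (pow_succ _ _).symm
          _ ≤ s ^ (2 * M) := pow_le_pow_right₀ hs1 (by omega)
      calc (((univ.filter (fun x => ¬ Gen k (F := F) (M := M) x)).card : ℕ) : ℝ) * (c₃ * Z₁) ≤
          (2 * ((Fintype.card F : ℝ) ^ M / s)) * (c₃ * Z₁) := mul_le_mul_of_nonneg_right (by linarith) (by positivity)
        _ = _ := by ring
    have h4 : |∑ x, Y x - (∑ l ∈ range (ν + 1), (TT w D r ν i l * z l : ℕ) : ℝ) * (Fintype.card F : ℝ) ^ M| ≤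
        c₃ * |C₁| * (Fintype.card F : ℝ) ^ M / s := by
      have h5 : ∑ x, Y x = ∑ l ∈ range (ν + 1), (TT w D r ν i l : ℝ) * ∑ x : Fin M → F, (if map (ev x) Δ = 0 then (0 : ℝ) else ζ x ^ l) := by
        simp only [mul_sum]
        rw [sum_comm]
        refine sum_congr rfl fun x _ => ?_
        rw [hY]
        simp only
        split_ifs
        · simp
        · rfl
      rw [h5, sum_mul, ← sum_sub_distrib]
      have h6 : c₃ * |C₁| * (Fintype.card F : ℝ) ^ M / s = ∑ l ∈ range (ν + 1), (TT w D r ν i l : ℝ) * (|C₁| * (Fintype.card F : ℝ) ^ M / s) := by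
        rw [← sum_mul, ← hc₃]
        ring
      rw [h6]
      refine (abs_sum_le_sum_abs _ _).trans (sum_le_sum fun l hl => ?_)
      rw [mem_range] at hl
      push_cast
      rw [mul_assoc, ← mul_sub, abs_mul, abs_of_nonneg (Nat.cast_nonneg _ : (0 : ℝ) ≤ _)]
      refine mul_le_mul_of_nonneg_left ?_ (Nat.cast_nonneg _)
      have h7 := hZ l (by omega)
      rw [← hs] at h7
      rw [hζ]
      refine h7.trans ?_
      exact div_le_div_of_nonneg_right (mul_le_mul_of_nonneg_right (le_abs_self _) (by positivity)) hs0.le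
    rw [← hs]
    have h5 : (c₁ * K + 2 * (c₃ * Z₁) + c₃ * |C₁|) * (Fintype.card F : ℝ) ^ M / s = c₁ * K * (Fintype.card F : ℝ) ^ M / s +
        2 * (c₃ * Z₁) * (Fintype.card F : ℝ) ^ M / s + c₃ * |C₁| * (Fintype.card F : ℝ) ^ M / s := by ring
    rw [h5]
    rw [abs_le] at h2 h3 h4 ⊢
    constructor <;> linarith [h2.1, h2.2, h3.1, h3.2, h4.1, h4.2]

end Q282AE
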