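import Pool.Agent.Q282.AE.Pol

/-!
# The second moment of a sum over the points of a box of polynomials
-/

set_option autoImplicit false
set_option linter.unusedSectionVars false

namespace Q282AE

open Finset MvPolynomial
open Q282GP (av av_add av_sub av_smul av_sum av_const av_nonneg av_mono abs_av av_indep)

section

variable (k : Type) [Field k] [Fintype k] (M N : ℕ) (S : Type)

/-- the families of polynomials of total degree at most `N` -/
abbrev Box : Type := S → restrictTotalDegree (Fin M) k N

noncomputable instance instFinV : Fintype (restrictTotalDegree (Fin M) k N) :=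
  have : Finite (restrictTotalDegree (Fin M) k N) := Module.finite_of_finite k
  Fintype.ofFinite _

end

variable {k : Type} [Field k] [Fintype k] {M N : ℕ} {S : Type} [Fintype S] [DecidableEq S]
  {F : Type} [Field F] [Fintype F] [DecidableEq F] [Algebra k F]

/-- the values of a family of polynomials at a point -/
noncomputable def at' (x : Fin M → F) (c : Box k M N S) (s : S) : F := aeval x (c s : MvPolynomial (Fin M) k)

lemma at_add (x : Fin M → F) (c c' : Box k M N S) : at' x (c + c') = at' x c + at' x c' := by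
  funext s
  unfold at'
  rw [Pi.add_apply, Pi.add_apply, Submodule.coe_add, map_add]

theorem uni_one {x : Fin M → F} (hx : Gen k x) (hN : Module.finrank k F ≤ N + 1) (G : (S → F) → ℝ) :
    av (fun c : Box k M N S => G (at' x c)) = av G := by
  choose p hp1 hp2 using surj_one hx N hN
  have h1 := av_indep (Γ := Box k M N S) (H := S → F) (at' x)
    (fun t s => ⟨p (t s), (mem_restrictTotalDegree _ _ _).2 (hp1 _)⟩) (fun c t => by
      rw [at_add]
      congr 1
      funext s
      exact hp2 _) (fun _ => (1 : ℝ)) (fun _ _ => rfl) G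
  rw [av_const, one_mul] at h1
  simp only [one_mul] at h1
  exact h1

theorem uni_two {x x' : Fin M → F} (hx : Gen k x) (hx' : Gen k x') (hne : idl k x ≠ idl k x') (hN : 2 * Module.finrank k F ≤ N + 1)
    (G G' : (S → F) → ℝ) :
    av (fun c : Box k M N S => G (at' x c) * G' (at' x' c)) = av G * av G' := by
  have hfin : Module.Finite k F := Module.Finite.of_finite
  choose p hp1 hp2 hp3 using surj_two hx' hx hne.symm N hN
  have h1 := av_indep (Γ := Box k M N S) (H := S → F) (at' x')
    (fun t s => ⟨p (t s), (mem_restrictTotalDegree _ _ _).2 (hp1 _)⟩) (fun c t => by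
      rw [at_add]
      congr 1
      funext s
      exact hp2 _) (fun c => G (at' x c)) (fun c t => by
      congr 1
      rw [at_add]
      have : at' x (fun s => ⟨p (t s), (mem_restrictTotalDegree _ _ _).2 (hp1 _)⟩ : Box k M N S) = 0 := by
        funext s
        exact hp3 _
      rw [this, add_zero]) G'
  rw [h1, uni_one hx (by omega)]

open Classical in
/-- **The second moment.** -/
theorem second_moment (X : (Fin M → F) → (S → F) → ℝ) (C : ℝ) (hC0 : 0 ≤ C) (hC : ∀ x, Gen k x → av (fun u => X x u ^ 2) ≤ C)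
    (hN : 2 * Module.finrank k F ≤ N + 1) :
    av (fun c : Box k M N S => (∑ x ∈ univ.filter (Gen k), (X x (at' x c) - av (X x))) ^ 2) ≤
      C * Module.finrank k F * (Fintype.card F : ℝ) ^ M := by
  have hfin : Module.Finite k F := Module.Finite.of_finite
  obtain ⟨Y, hY⟩ : ∃ Y : (Fin M → F) → (S → F) → ℝ, Y = fun x u => X x u - av (X x) := ⟨_, rfl⟩
  have hY0 : ∀ x, av (Y x) = 0 := by
    intro x
    rw [hY]
    show av (fun u => X x u - av (X x)) = 0
    rw [av_sub, av_const, sub_self]
  have hY2 : ∀ x, Gen k x → av (fun u => Y x u ^ 2) ≤ C := by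
    intro x hx
    have h1 : (fun u => Y x u ^ 2) = fun u => (X x u ^ 2 + (-(2 * av (X x))) * X x u) + (av (X x)) ^ 2 := by
      funext u
      rw [hY]
      ring
    rw [h1, av_add, av_add, av_smul, av_const]
    have h2 := hC x hx
    have h3 : 0 ≤ (av (X x)) ^ 2 := sq_nonneg _
    nlinarith
  have h1 : (fun c : Box k M N S => (∑ x ∈ univ.filter (Gen k), (X x (at' x c) - av (X x))) ^ 2) =
      fun c => ∑ x ∈ univ.filter (Gen k), ∑ x' ∈ univ.filter (Gen k), Y x (at' x c) * Y x' (at' x' c) := by
    funext c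
    rw [sq, sum_mul_sum]
    rw [hY]
  rw [h1, av_sum]
  have h2 : ∀ x ∈ univ.filter (Gen k (F := F) (M := M)), av (fun c : Box k M N S => ∑ x' ∈ univ.filter (Gen k), Y x (at' x c) * Y x' (at' x' c)) ≤
      C * Module.finrank k F := by
    intro x hx
    rw [mem_filter] at hx
    rw [av_sum]
    have h3 : ∀ x' ∈ univ.filter (Gen k (F := F) (M := M)), av (fun c : Box k M N S => Y x (at' x c) * Y x' (at' x' c)) ≤
        if idl k x' = idl k x then C else 0 := by
      intro x' hx'
      rw [mem_filter] at hx'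
      split_ifs with he
      · have h4 : ∀ c : Box k M N S, Y x (at' x c) * Y x' (at' x' c) ≤ (1 / 2) * (Y x (at' x c)) ^ 2 + (1 / 2) * (Y x' (at' x' c)) ^ 2 := by
          intro c
          nlinarith [sq_nonneg (Y x (at' x c) - Y x' (at' x' c))]
        refine (av_mono _ _ h4).trans ?_
        rw [av_add, av_smul, av_smul, uni_one hx.2 (by omega) (fun u => Y x u ^ 2), uni_one hx'.2 (by omega) (fun u => Y x' u ^ 2)]
        have h5 := hY2 x hx.2
        have h6 := hY2 x' hx'.2
        linarith
      · rw [uni_two hx.2 hx'.2 (fun h => he h.symm) hN, hY0 x, zero_mul]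
    refine (sum_le_sum h3).trans ?_
    rw [← sum_filter, sum_const, nsmul_eq_mul, mul_comm]
    refine mul_le_mul_of_nonneg_left ?_ hC0
    have h4 := card_conj hx.2
    rw [Nat.card_eq_fintype_card, Fintype.card_subtype] at h4
    refine le_trans ?_ (Nat.cast_le.2 h4)
    refine Nat.cast_le.2 (card_le_card ?_)
    intro x' hx'
    rw [mem_filter] at hx' ⊢
    exact ⟨mem_univ _, hx'.2⟩
  refine (sum_le_sum h2).trans ?_
  rw [sum_const, nsmul_eq_mul, mul_comm]
  refine mul_le_mul_of_nonneg_left ?_ (by positivity)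
  have h3 : (univ.filter (Gen k (F := F) (M := M))).card ≤ Fintype.card (Fin M → F) := card_le_univ _
  rw [Fintype.card_fun, Fintype.card_fin] at h3
  exact_mod_cast h3

open Classical in
/-- **The inequality of Chebyshev.** -/
theorem chebyshev (X : (Fin M → F) → (S → F) → ℝ) (C : ℝ) (hC0 : 0 ≤ C) (hC : ∀ x, Gen k x → av (fun u => X x u ^ 2) ≤ C)
    (hN : 2 * Module.finrank k F ≤ N + 1) (T δ : ℝ) (hδ : 0 < δ)
    (hT : |∑ x ∈ univ.filter (Gen k), av (X x) - T * (Fintype.card F : ℝ) ^ M| ≤ δ * (Fintype.card F : ℝ) ^ M) :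
    ((univ.filter fun c : Box k M N S => 2 * δ * (Fintype.card F : ℝ) ^ M <
      |∑ x ∈ univ.filter (Gen k), X x (at' x c) - T * (Fintype.card F : ℝ) ^ M|).card : ℝ) * (Fintype.card F : ℝ) ^ M ≤
      C / δ ^ 2 * Module.finrank k F * Fintype.card (Box k M N S) := by
  have h1 := second_moment (N := N) (S := S) X C hC0 hC hN
  obtain ⟨Q, hQ⟩ : ∃ Q : ℝ, Q = (Fintype.card F : ℝ) ^ M := ⟨_, rfl⟩
  have hQ0 : 0 < Q := by
    rw [hQ]
    exact pow_pos card_pos _
  rw [← hQ] at h1 hT ⊢
  unfold av at h1
  have hB0 : (0 : ℝ) < Fintype.card (Box k M N S) := by exact_mod_cast Fintype.card_pos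
  rw [div_le_iff₀ hB0] at h1
  have h2 : ∑ c ∈ univ.filter (fun c : Box k M N S => 2 * δ * Q < |∑ x ∈ univ.filter (Gen k), X x (at' x c) - T * Q|), (δ * Q) ^ 2 ≤
      ∑ c : Box k M N S, (∑ x ∈ univ.filter (Gen k), (X x (at' x c) - (∑ a, X x a) / Fintype.card (S → F))) ^ 2 := by
    refine (sum_le_sum fun c hc => ?_).trans (sum_le_sum_of_subset_of_nonneg (filter_subset _ _) fun _ _ _ => sq_nonneg _)
    rw [mem_filter] at hc
    have h3 : ∑ x ∈ univ.filter (Gen k), (X x (at' x c) - (∑ a, X x a) / Fintype.card (S → F)) =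
        (∑ x ∈ univ.filter (Gen k), X x (at' x c) - T * Q) - (∑ x ∈ univ.filter (Gen k), av (X x) - T * Q) := by
      rw [sum_sub_distrib]
      unfold av
      ring
    rw [h3]
    have h4 : δ * Q ≤ |(∑ x ∈ univ.filter (Gen k), X x (at' x c) - T * Q) - (∑ x ∈ univ.filter (Gen k), av (X x) - T * Q)| := by
      have h5 := abs_sub_abs_le_abs_sub (∑ x ∈ univ.filter (Gen k), X x (at' x c) - T * Q) (∑ x ∈ univ.filter (Gen k), av (X x) - T * Q)
      linarith [hc.2]
    rw [← sq_abs (_ - _)]
    exact pow_le_pow_left₀ (by positivity) h4 2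
  rw [sum_const, nsmul_eq_mul] at h2
  have h3 := h2.trans h1
  have h4 : ((univ.filter (fun c : Box k M N S => 2 * δ * Q < |∑ x ∈ univ.filter (Gen k), X x (at' x c) - T * Q|)).card : ℝ) * Q =
      ((univ.filter (fun c : Box k M N S => 2 * δ * Q < |∑ x ∈ univ.filter (Gen k), X x (at' x c) - T * Q|)).card : ℝ) * (δ * Q) ^ 2 / (δ ^ 2 * Q) := by
    field_simp
  rw [h4, div_le_iff₀ (by positivity)]
  refine h3.trans (le_of_eq ?_)
  field_simp

end Q282AE
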